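import Pool.Agent.Q251.EW.Con1
import Pool.Agent.Q195.EW.SUP
import Pool.Agent.H448R2.GC.X1

set_option autoImplicit false

namespace Pool.Agent.Q251.EW

open Pool.Agent.Q80.EW Filter Topology MeasureTheory

theorem chi_eq (t : ℝ) : chi t = Pool.Agent.H448R2.GC.XX ((starRingEnd ℂ) ((1 / 2 : ℂ) + (t : ℂ) * Complex.I)) := by
  unfold chi
  congr 1
  simp only [map_add, map_div₀, map_one, map_mul, Complex.conj_ofReal, Complex.conj_I]
  rw [show (starRingEnd ℂ) 2 = 2 from Complex.conj_ofNat 2]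
  ring

theorem chi_norm (t : ℝ) : ‖chi t‖ = 1 := by
  rw [chi_eq, Pool.Agent.H448R2.GC.X1.norm_XX_conj, Pool.Agent.H448R2.GC.X1.XX_eq]
  exact H345.norm_XX_half t

theorem chi_cont : Continuous chi := by
  rw [continuous_iff_continuousAt]
  intro t
  unfold chi
  have h1 : ContinuousAt (fun t : ℝ => 1 - ((1 / 2 : ℂ) + (t : ℂ) * Complex.I)) t := by fun_prop
  have h2 := Pool.Agent.H448R2.GC.X1.contAt_XX (1 - ((1 / 2 : ℂ) + (t : ℂ) * Complex.I)) (by
    simp; norm_num)
  exact ContinuousAt.comp (f := fun t : ℝ => 1 - ((1 / 2 : ℂ) + (t : ℂ) * Complex.I)) h2 h1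

theorem winC_cont (f : ℝ → ℂ) (hf : Continuous f) (U : ℝ) :
    Continuous fun t => ∫ h in (0 : ℝ)..U, f (t + h) := by
  have h1 : (fun t => ∫ h in (0 : ℝ)..U, f (t + h)) =
      fun t => (∫ u in (0 : ℝ)..(t + U), f u) - ∫ u in (0 : ℝ)..t, f u := by
    funext t
    rw [intervalIntegral.integral_interval_sub_left (hf.intervalIntegrable _ _) (hf.intervalIntegrable _ _),
      intervalIntegral.integral_comp_add_left (fun u => f u) t, add_zero]
  rw [h1]
  have h2 := intervalIntegral.continuous_primitive (μ := volume) (fun a b => hf.intervalIntegrable a b) 0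
  exact (h2.comp (continuous_id.add continuous_const)).sub h2

theorem sq_id (D c : ℂ) (hc : ‖c‖ = 1) :
    ‖D + c * (starRingEnd ℂ) D‖ ^ 2 = 2 * ‖D‖ ^ 2 + 2 * ((starRingEnd ℂ) c * D ^ 2).re := by
  have h1 : ((‖D + c * (starRingEnd ℂ) D‖ ^ 2 : ℝ) : ℂ) =
      ((2 * ‖D‖ ^ 2 + 2 * ((starRingEnd ℂ) c * D ^ 2).re : ℝ) : ℂ) := by
    have e1 : ((‖D + c * (starRingEnd ℂ) D‖ ^ 2 : ℝ) : ℂ) =
        (D + c * (starRingEnd ℂ) D) * (starRingEnd ℂ) (D + c * (starRingEnd ℂ) D) := by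
      rw [Complex.mul_conj, Complex.normSq_eq_norm_sq]
    have e2 : ((‖D‖ ^ 2 : ℝ) : ℂ) = D * (starRingEnd ℂ) D := by
      rw [Complex.mul_conj, Complex.normSq_eq_norm_sq]
    have e3 : c * (starRingEnd ℂ) c = 1 := by
      rw [Complex.mul_conj, Complex.normSq_eq_norm_sq, hc]; simp
    have e4 : ((2 * ((starRingEnd ℂ) c * D ^ 2).re : ℝ) : ℂ) =
        (starRingEnd ℂ) c * D ^ 2 + (starRingEnd ℂ) ((starRingEnd ℂ) c * D ^ 2) := by
      rw [Complex.add_conj]
    rw [e1, Complex.ofReal_add, e4]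
    have e5 : ((2 * ‖D‖ ^ 2 : ℝ) : ℂ) = 2 * (D * (starRingEnd ℂ) D) := by
      rw [← e2]; push_cast; ring
    rw [e5]
    simp only [map_add, map_mul, map_pow, Complex.conj_conj]
    linear_combination (D * (starRingEnd ℂ) D) * e3
  exact_mod_cast h1

theorem g_le (z b : ℂ) (s : ℝ) (hs : 0 < s) (hs1 : s ≤ 1 / 2) :
    |‖z‖ ^ 2 - ‖b‖ ^ 2| ≤ 1 / s * ‖z - b‖ ^ 2 + 4 * s * ‖z‖ ^ 2 := by
  have h1 : |‖z‖ - ‖b‖| ≤ ‖z - b‖ := abs_norm_sub_norm_le z b
  have h2 : ‖b‖ ≤ ‖z‖ + ‖z - b‖ := by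
    have := abs_le.1 h1
    linarith [this.1]
  set p := ‖z - b‖ with hp
  have hp0 : 0 ≤ p := norm_nonneg _
  have hz0 : 0 ≤ ‖z‖ := norm_nonneg _
  have hb0 : 0 ≤ ‖b‖ := norm_nonneg _
  have h3 : |‖z‖ ^ 2 - ‖b‖ ^ 2| ≤ p * (2 * ‖z‖ + p) := by
    have e1 : ‖z‖ ^ 2 - ‖b‖ ^ 2 = (‖z‖ - ‖b‖) * (‖z‖ + ‖b‖) := by ring
    rw [e1, abs_mul, abs_of_nonneg (add_nonneg hz0 hb0)]
    exact mul_le_mul h1 (by linarith) (by positivity) hp0
  refine h3.trans ?_
  have h4 : 2 * (p * ‖z‖) ≤ 1 / (4 * s) * p ^ 2 + 4 * s * ‖z‖ ^ 2 := by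
    have e2 : 1 / (4 * s) * p ^ 2 + 4 * s * ‖z‖ ^ 2 - 2 * (p * ‖z‖) =
        1 / (4 * s) * (p - 4 * s * ‖z‖) ^ 2 := by
      field_simp; ring
    have : 0 ≤ 1 / (4 * s) * (p - 4 * s * ‖z‖) ^ 2 := by positivity
    linarith
  have h5 : p ^ 2 ≤ 1 / (2 * s) * p ^ 2 := by
    have : 1 ≤ 1 / (2 * s) := by
      rw [le_div_iff₀ (by positivity)]; linarith
    nlinarith [sq_nonneg p]
  have h6 : 1 / (4 * s) * p ^ 2 + 1 / (2 * s) * p ^ 2 ≤ 1 / s * p ^ 2 := by
    have : 1 / (4 * s) * p ^ 2 + 1 / (2 * s) * p ^ 2 = 3 / 4 * (1 / s * p ^ 2) := by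
      field_simp; ring
    rw [this]
    have : 0 ≤ 1 / s * p ^ 2 := by positivity
    linarith
  nlinarith

theorem tendsto_La' : Tendsto La atTop atTop := Real.tendsto_log_atTop.comp Real.tendsto_log_atTop

theorem tendsto_UU (y : ℝ) (hy : 0 < y) : Tendsto (fun T => Real.exp (y * Real.sqrt (La T))) atTop atTop :=
  Real.tendsto_exp_atTop.comp
    ((Real.tendsto_sqrt_atTop.comp tendsto_La').const_mul_atTop hy)

theorem ev_UU (y κ : ℝ) (hκ : 0 < κ) : ∀ᶠ T : ℝ in atTop, Real.exp (y * Real.sqrt (La T)) ≤ T ^ κ := by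
  have h1 : ∀ᶠ x : ℝ in atTop, |y| * Real.log x ≤ κ * x := by
    have h2 := (Real.isLittleO_log_id_atTop.def (c := κ / (|y| + 1)) (by positivity))
    filter_upwards [h2, eventually_ge_atTop 1] with x hx hx1
    rw [Real.norm_eq_abs, Real.norm_eq_abs, abs_of_nonneg (Real.log_nonneg hx1), id,
      abs_of_nonneg (show (0 : ℝ) ≤ x by linarith)] at hx
    have h3 : |y| * Real.log x ≤ |y| * (κ / (|y| + 1) * x) :=
      mul_le_mul_of_nonneg_left hx (abs_nonneg y)
    refine h3.trans ?_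
    have h4 : |y| * (κ / (|y| + 1) * x) = |y| / (|y| + 1) * (κ * x) := by ring
    rw [h4]
    have h5 : |y| / (|y| + 1) ≤ 1 := by
      rw [div_le_one (by positivity)]; linarith
    exact mul_le_of_le_one_left (by positivity) h5
  filter_upwards [Real.tendsto_log_atTop.eventually h1, eventually_gt_atTop 1,
    tendsto_La'.eventually_ge_atTop 1] with T h1 hT hL
  rw [Real.rpow_def_of_pos (by linarith)]
  apply Real.exp_le_exp.2
  have h2 : Real.sqrt (La T) ≤ La T := by
    rw [Real.sqrt_le_left (by linarith)]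
    nlinarith
  have h3 : y * Real.sqrt (La T) ≤ |y| * La T :=
    mul_le_mul (le_abs_self y) h2 (Real.sqrt_nonneg _) (abs_nonneg y)
  unfold La at h3 ⊢
  linarith

theorem t_DIF (hA1 : J_AP1) (hA2 : J_AP2) (hH : J_HLW) (hD : J_DD) (hE : J_EXP) : J_DIF := by
  obtain ⟨C1, hC1, hA1⟩ := hA1
  obtain ⟨C2, hC2, hA2⟩ := hA2
  obtain ⟨C3, hH⟩ := hH
  refine ⟨C1 + 17, by positivity, ?_⟩
  intro η hη hη1 y hy
  have hs0 : 0 < Real.sqrt η := Real.sqrt_pos.2 hη
  filter_upwards [hA1 η hη hη1, hA2 η hη hη1, hD η hη hη1, eventually_ge_atTop (3 : ℝ),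
    ev_UU y (1 / 10) (by norm_num), tendsto_La'.eventually_ge_atTop 1,
    (tendsto_UU y hy).eventually_ge_atTop (2 * C2 / (η * Real.sqrt η)),
    Real.tendsto_log_atTop.eventually_ge_atTop (3 * |C3| + 1)] with T hA1 hA2 hD hT hU10 hLa hUb hL3
  set U : ℝ := Real.exp (y * Real.sqrt (La T)) with hU
  set s : ℝ := Real.sqrt η with hs
  have hs2 : s ^ 2 = η := Real.sq_sqrt hη.le
  have hs1 : s ≤ 1 / 2 := by
    rw [hs, Real.sqrt_le_left (by norm_num)]; nlinarith
  have hU1 : 1 ≤ U := Real.one_le_exp (by positivity)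
  have hU0 : 0 < U := by linarith
  have hUT : U ≤ T := hU10.trans (by
    calc T ^ (1 / 10 : ℝ) ≤ T ^ (1 : ℝ) := Real.rpow_le_rpow_of_exponent_le (by linarith) (by norm_num)
      _ = T := Real.rpow_one T)
  have hL0 : 0 < Real.log T := by linarith [abs_nonneg C3]
  obtain ⟨d1, d2, d3⟩ := hD
  have a1 := hA1 (dd η T) d1 d2 d3
  have a2 := hA2 (dd η T) d1 d2 U hU1 hU10
  -- the functions
  set D : ℝ → ℂ := Dp η T with hDD
  have hDc : Continuous D := Dp_cont hE η T
  set B : ℝ → ℂ := fun u => D u + chi u * (starRingEnd ℂ) (D u) with hB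
  have hBc : Continuous B := hDc.add (chi_cont.mul (Complex.continuous_conj.comp hDc))
  set c : ℝ → ℂ := fun u => (starRingEnd ℂ) (chi u) * D u ^ 2 with hc
  have hcc : Continuous c := (Complex.continuous_conj.comp chi_cont).mul (hDc.pow 2)
  set g : ℝ → ℝ := fun u => |‖ze u‖ ^ 2 - ‖B u‖ ^ 2| with hg
  have hgc : Continuous g := ((ze_cont.norm.pow 2).sub (hBc.norm.pow 2)).abs
  have hBsq : ∀ u, ‖B u‖ ^ 2 = 2 * ‖D u‖ ^ 2 + 2 * (c u).re := fun u => sq_id (D u) (chi u) (chi_norm u)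
  have a1' : ∫ t in T..(4 * T), ‖ze t - B t‖ ^ 2 ≤ C1 * η * T * Real.log T := by
    refine le_trans (le_of_eq ?_) a1
    congr 1
    funext t
    rw [hB]
    simp only [hDD, Dp]
    rw [sub_sub]
  have a2' : ∫ t in T..(3 * T), ‖∫ h in (0 : ℝ)..U, c (t + h)‖ ≤ C2 / η * T * Real.log T := a2
  -- pointwise bound
  have hpt : ∀ t : ℝ, |MM U T t - 2 / (U * Real.log T) * ∫ h in (0 : ℝ)..U, ‖D (t + h)‖ ^ 2| ≤
      1 / (U * Real.log T) * ((∫ u in t..(t + U), g u) + 2 * ‖∫ h in (0 : ℝ)..U, c (t + h)‖) := by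
    intro t
    have hz : Continuous fun u => ‖ze u‖ ^ 2 := ze_cont.norm.pow 2
    have hb : Continuous fun u => ‖B u‖ ^ 2 := hBc.norm.pow 2
    have hd : Continuous fun u => ‖D u‖ ^ 2 := hDc.norm.pow 2
    have hre : Continuous fun u => (c u).re := Complex.continuous_re.comp hcc
    have e1 : ∫ h in (0 : ℝ)..U, ‖D (t + h)‖ ^ 2 = ∫ u in t..(t + U), ‖D u‖ ^ 2 :=
      win_eq (fun u => ‖D u‖ ^ 2) U t
    have e2 : ∫ h in (0 : ℝ)..U, c (t + h) = ∫ u in t..(t + U), c u := by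
      rw [intervalIntegral.integral_comp_add_left (fun u => c u) t, add_zero]
    have e3 : (∫ u in t..(t + U), c u).re = ∫ u in t..(t + U), (c u).re := by
      have := (Complex.reCLM.intervalIntegral_comp_comm (hcc.intervalIntegrable (μ := volume) t (t + U)))
      simpa using this.symm
    have e4 : ∫ u in t..(t + U), (‖ze u‖ ^ 2 - ‖B u‖ ^ 2) =
        (∫ u in t..(t + U), ‖ze u‖ ^ 2) - (2 * (∫ u in t..(t + U), ‖D u‖ ^ 2) +
          2 * (∫ u in t..(t + U), (c u).re)) := by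
      rw [intervalIntegral.integral_sub (hz.intervalIntegrable _ _) (hb.intervalIntegrable _ _)]
      congr 1
      rw [← intervalIntegral.integral_const_mul, ← intervalIntegral.integral_const_mul,
        ← intervalIntegral.integral_add ((hd.const_mul 2).intervalIntegrable _ _)
          ((hre.const_mul 2).intervalIntegrable _ _)]
      congr 1
      funext u
      exact hBsq u
    have e5 : MM U T t - 2 / (U * Real.log T) * ∫ h in (0 : ℝ)..U, ‖D (t + h)‖ ^ 2 =
        1 / (U * Real.log T) * ((∫ u in t..(t + U), (‖ze u‖ ^ 2 - ‖B u‖ ^ 2)) +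
          2 * (∫ h in (0 : ℝ)..U, c (t + h)).re) := by
      rw [e4, e1, e2, e3]
      unfold MM
      ring
    rw [e5, abs_mul, abs_of_nonneg (by positivity : 0 ≤ 1 / (U * Real.log T))]
    apply mul_le_mul_of_nonneg_left _ (by positivity)
    refine (abs_add_le _ _).trans (add_le_add ?_ ?_)
    · exact intervalIntegral.abs_integral_le_integral_abs (by linarith)
    · rw [abs_mul, abs_two]
      exact mul_le_mul_of_nonneg_left (Complex.abs_re_le_norm _) (by norm_num)
  have hFc : Continuous fun t => |MM U T t - 2 / (U * Real.log T) * ∫ h in (0 : ℝ)..U, ‖D (t + h)‖ ^ 2| := by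
    obtain ⟨k1, k2, _, _⟩ := t_CON hE η y 1 1 T (by
      rcases hT.lt_or_eq with h | h
      · exact h
      · exfalso
        rw [← h] at hLa
        unfold La at hLa
        have : Real.log (Real.log 3) ≤ Real.log 3 - 1 := Real.log_le_sub_one_of_pos (by rw [h]; exact hL0)
        have h3 : Real.log 3 < 2 := by
          rw [Real.log_lt_iff_lt_exp (by norm_num)]
          have := Real.add_one_le_exp (1 : ℝ)
          have h4 : Real.exp 2 = Real.exp 1 * Real.exp 1 := by rw [← Real.exp_add]; norm_num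
          nlinarith
        linarith)
    exact (k1.sub k2).abs
  obtain ⟨s1, s2⟩ := Pool.Agent.Q195.EW.slide hgc (fun x => abs_nonneg _) (A := T) (B := 3 * T) (U := U)
    (by linarith) hU0.le
  have hWc : Continuous fun t => ‖∫ h in (0 : ℝ)..U, c (t + h)‖ := (winC_cont c hcc U).norm
  have hmain : ∫ t in T..(3 * T), |MM U T t - 2 / (U * Real.log T) * ∫ h in (0 : ℝ)..U, ‖D (t + h)‖ ^ 2| ≤
      1 / (U * Real.log T) * ((∫ t in T..(3 * T), ∫ u in t..(t + U), g u) +
        2 * ∫ t in T..(3 * T), ‖∫ h in (0 : ℝ)..U, c (t + h)‖) := by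
    rw [← intervalIntegral.integral_const_mul, ← intervalIntegral.integral_add
      (s1.intervalIntegrable _ _) ((hWc.const_mul 2).intervalIntegrable _ _),
      ← intervalIntegral.integral_const_mul]
    apply intervalIntegral.integral_mono_on (by linarith) (hFc.intervalIntegrable _ _)
    · exact ((s1.add (hWc.const_mul 2)).const_mul _).intervalIntegrable _ _
    · intro t _; exact hpt t
  have hzc : Continuous fun u => ‖ze u‖ ^ 2 := ze_cont.norm.pow 2
  have hz4 : ∫ u in T..(4 * T), ‖ze u‖ ^ 2 ≤ 4 * T * Real.log T := by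
    have q0 := hH T 0 (by linarith) le_rfl (by linarith)
    have q1 := hH T T (by linarith) (by linarith) (by linarith)
    have q2 := hH T (2 * T) (by linarith) (by linarith) (by linarith)
    have r0 : ∫ t in T..(2 * T), ‖ze (t + 0)‖ ^ 2 = ∫ u in T..(2 * T), ‖ze u‖ ^ 2 := by simp
    have r1 : ∫ t in T..(2 * T), ‖ze (t + T)‖ ^ 2 = ∫ u in (2 * T)..(3 * T), ‖ze u‖ ^ 2 := by
      rw [intervalIntegral.integral_comp_add_right (fun u => ‖ze u‖ ^ 2) T]
      congr 1 <;> ring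
    have r2 : ∫ t in T..(2 * T), ‖ze (t + 2 * T)‖ ^ 2 = ∫ u in (3 * T)..(4 * T), ‖ze u‖ ^ 2 := by
      rw [intervalIntegral.integral_comp_add_right (fun u => ‖ze u‖ ^ 2) (2 * T)]
      congr 1 <;> ring
    have r3 : ∫ u in T..(4 * T), ‖ze u‖ ^ 2 = (∫ u in T..(2 * T), ‖ze u‖ ^ 2) +
        (∫ u in (2 * T)..(3 * T), ‖ze u‖ ^ 2) + ∫ u in (3 * T)..(4 * T), ‖ze u‖ ^ 2 := by
      rw [intervalIntegral.integral_add_adjacent_intervals (hzc.intervalIntegrable _ _) (hzc.intervalIntegrable _ _),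
        intervalIntegral.integral_add_adjacent_intervals (hzc.intervalIntegrable _ _) (hzc.intervalIntegrable _ _)]
    rw [r0] at q0
    rw [r1] at q1
    rw [r2] at q2
    rw [r3]
    have t0 := (abs_le.1 q0).2
    have t1 := (abs_le.1 q1).2
    have t2 := (abs_le.1 q2).2
    have t3 : C3 * T ≤ |C3| * T := mul_le_mul_of_nonneg_right (le_abs_self _) (by linarith)
    have t4 : (3 * |C3| + 1) * T ≤ Real.log T * T := mul_le_mul_of_nonneg_right hL3 (by linarith)
    nlinarith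
  have hg4 : ∫ u in T..(4 * T), g u ≤ (C1 + 16) * s * T * Real.log T := by
    have hk1 : Continuous fun u => 1 / s * ‖ze u - B u‖ ^ 2 :=
      continuous_const.mul ((ze_cont.sub hBc).norm.pow 2)
    have hk2 : Continuous fun u => 4 * s * ‖ze u‖ ^ 2 := continuous_const.mul hzc
    have h1 : ∫ u in T..(4 * T), g u ≤ ∫ u in T..(4 * T), (1 / s * ‖ze u - B u‖ ^ 2 + 4 * s * ‖ze u‖ ^ 2) := by
      apply intervalIntegral.integral_mono_on (by linarith) (hgc.intervalIntegrable _ _)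
      · exact (hk1.add hk2).intervalIntegrable _ _
      · intro u _; exact g_le (ze u) (B u) s hs0 hs1
    rw [intervalIntegral.integral_add (hk1.intervalIntegrable _ _) (hk2.intervalIntegrable _ _),
      intervalIntegral.integral_const_mul, intervalIntegral.integral_const_mul] at h1
    have h2 : 1 / s * ∫ u in T..(4 * T), ‖ze u - B u‖ ^ 2 ≤ 1 / s * (C1 * η * T * Real.log T) :=
      mul_le_mul_of_nonneg_left a1' (by positivity)
    have h3 : 1 / s * (C1 * η * T * Real.log T) = C1 * s * T * Real.log T := by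
      rw [← hs2]; field_simp
    have h4 : 4 * s * ∫ u in T..(4 * T), ‖ze u‖ ^ 2 ≤ 4 * s * (4 * T * Real.log T) :=
      mul_le_mul_of_nonneg_left hz4 (by positivity)
    nlinarith
  have hg4' : ∫ u in T..(3 * T + U), g u ≤ ∫ u in T..(4 * T), g u := by
    have e1 := intervalIntegral.integral_add_adjacent_intervals
      (hgc.intervalIntegrable (μ := volume) T (3 * T + U)) (hgc.intervalIntegrable (3 * T + U) (4 * T))
    have e2 : 0 ≤ ∫ u in (3 * T + U)..(4 * T), g u :=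
      intervalIntegral.integral_nonneg (by linarith) fun u _ => abs_nonneg _
    linarith
  have hfin : 1 / (U * Real.log T) * ((∫ t in T..(3 * T), ∫ u in t..(t + U), g u) +
        2 * ∫ t in T..(3 * T), ‖∫ h in (0 : ℝ)..U, c (t + h)‖) ≤
      1 / (U * Real.log T) * (U * ((C1 + 16) * s * T * Real.log T) + 2 * (C2 / η * T * Real.log T)) := by
    apply mul_le_mul_of_nonneg_left _ (by positivity)
    have k1 : U * ∫ u in T..(3 * T + U), g u ≤ U * ((C1 + 16) * s * T * Real.log T) :=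
      mul_le_mul_of_nonneg_left (hg4'.trans hg4) hU0.le
    have k2 := s2.trans k1
    linarith
  have hlast : 1 / (U * Real.log T) * (U * ((C1 + 16) * s * T * Real.log T) + 2 * (C2 / η * T * Real.log T)) ≤
      (C1 + 17) * s * T := by
    have e1 : 1 / (U * Real.log T) * (U * ((C1 + 16) * s * T * Real.log T) + 2 * (C2 / η * T * Real.log T)) =
        (C1 + 16) * s * T + (2 * C2 / η) / U * T := by
      field_simp
    rw [e1]
    have e2 : (2 * C2 / η) / U ≤ s := by
      rw [div_le_iff₀ hU0]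
      have : 2 * C2 / (η * s) * s ≤ U * s := mul_le_mul_of_nonneg_right hUb hs0.le
      have e3 : 2 * C2 / (η * s) * s = 2 * C2 / η := by field_simp
      rw [e3] at this
      linarith
    have e4 : (2 * C2 / η) / U * T ≤ s * T := mul_le_mul_of_nonneg_right e2 (by linarith)
    linarith
  exact hmain.trans (hfin.trans hlast)

end Pool.Agent.Q251.EW
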