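import Pool.Agent.Q80.EW.Stm3
import Pool.Agent.Q251.EW.DIF
import Pool.Agent.Q237.EW.Bas

set_option autoImplicit false

namespace Pool.Agent.Q251.EW

open Pool.Agent.Q80.EW Filter Topology MeasureTheory

/-- the integral over a sliding window -/
theorem slide' {w : ℝ → ℝ} (hw : ∀ a b : ℝ, IntervalIntegrable w volume a b) (h0 : ∀ x, 0 ≤ w x)
    {A B U : ℝ} (hU : 0 ≤ U) :
    ∫ t in A..B, (∫ x in t..(t + U), w x) ≤ U * ∫ x in A..(B + U), w x := by
  set W : ℝ → ℝ := fun t => ∫ x in A..t, w x with hW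
  have hWc : Continuous W := intervalIntegral.continuous_primitive hw A
  have e : ∀ t, ∫ x in t..(t + U), w x = W (t + U) - W t := by
    intro t
    rw [hW]
    simp only
    rw [intervalIntegral.integral_interval_sub_left (hw _ _) (hw _ _)]
  have hmono : ∀ s t, s ≤ t → W s ≤ W t := by
    intro s t hst
    have : W t - W s = ∫ x in s..t, w x := by
      rw [hW]
      simp only
      rw [intervalIntegral.integral_interval_sub_left (hw _ _) (hw _ _)]
    have h2 : 0 ≤ ∫ x in s..t, w x := intervalIntegral.integral_nonneg hst fun _ _ => h0 _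
    linarith
  simp only [e]
  have i1 : ∀ a b : ℝ, IntervalIntegrable W volume a b := fun a b => hWc.intervalIntegrable _ _
  have i2 : IntervalIntegrable (fun t => W (t + U)) volume A B := Continuous.intervalIntegrable (by fun_prop) _ _
  rw [intervalIntegral.integral_sub i2 (i1 _ _), intervalIntegral.integral_comp_add_right]
  have e2 : (∫ x in (A + U)..(B + U), W x) - ∫ x in A..B, W x =
      (∫ x in B..(B + U), W x) - ∫ x in A..(A + U), W x := by
    have h1 := intervalIntegral.integral_add_adjacent_intervals (i1 A (A + U)) (i1 (A + U) (B + U))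
    have h2 := intervalIntegral.integral_add_adjacent_intervals (i1 A B) (i1 B (B + U))
    linarith
  rw [e2]
  have h3 : ∫ x in B..(B + U), W x ≤ ∫ x in B..(B + U), W (B + U) :=
    intervalIntegral.integral_mono_on (by linarith) (i1 _ _) (by simp) fun x hx => hmono _ _ hx.2
  have h4 : ∫ x in A..(A + U), W A ≤ ∫ x in A..(A + U), W x :=
    intervalIntegral.integral_mono_on (by linarith) (by simp) (i1 _ _) fun x hx => hmono _ _ hx.1
  rw [intervalIntegral.integral_const] at h3 h4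
  simp only [add_sub_cancel_left, smul_eq_mul] at h3 h4
  have hWA : W A = 0 := by simp [hW]
  have hWB : W (B + U) = ∫ x in A..(B + U), w x := rfl
  rw [hWA] at h4
  rw [hWB] at h3
  linarith

theorem zc0 : zc 0 ≤ 3 := by
  unfold zc
  rw [Nat.ceil_le]
  rw [Real.exp_zero]
  have := Real.exp_one_lt_d9
  norm_num
  linarith

theorem pb3 : Nat.primesBelow 3 = {2} := by decide

theorem pb_sub : Nat.primesBelow (zc 0) ⊆ {2} := by
  rw [← pb3]
  intro p hp
  rw [Nat.mem_primesBelow] at hp ⊢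
  exact ⟨lt_of_lt_of_le hp.1 zc0, hp.2⟩

theorem XX0 (t : ℝ) : |XX 0 t| ≤ 2 := by
  have h1 : ‖PP 0 t‖ ≤ 1 := by
    unfold PP
    refine (norm_sum_le _ _).trans ?_
    have h2 : ∑ p ∈ Nat.primesBelow (zc 0), ‖(p : ℂ) ^ (-((1 / 2 : ℂ) + (t : ℂ) * Complex.I))‖ ≤
        ∑ p ∈ ({2} : Finset ℕ), ‖(p : ℂ) ^ (-((1 / 2 : ℂ) + (t : ℂ) * Complex.I))‖ :=
      Finset.sum_le_sum_of_subset_of_nonneg pb_sub fun _ _ _ => norm_nonneg _
    refine h2.trans ?_
    rw [Finset.sum_singleton, Complex.norm_natCast_cpow_of_pos (by norm_num)]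
    apply Real.rpow_le_one_of_one_le_of_nonpos
    · norm_num
    · simp
  have h3 : 0 ≤ VV 0 := by unfold VV; positivity
  have h4 : VV 0 ≤ 1 := by
    unfold VV
    have h2 : ∑ p ∈ Nat.primesBelow (zc 0), (1 : ℝ) / (p : ℝ) ≤ ∑ p ∈ ({2} : Finset ℕ), (1 : ℝ) / (p : ℝ) :=
      Finset.sum_le_sum_of_subset_of_nonneg pb_sub fun _ _ _ => by positivity
    refine h2.trans ?_
    rw [Finset.sum_singleton]; norm_num
  unfold XX
  have h5 := abs_le.1 ((Complex.abs_re_le_norm (PP 0 t)).trans h1)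
  rw [abs_le]; constructor <;> linarith [h5.1, h5.2]

/-- telescoping -/
theorem tele (T : ℝ) (m : ℕ) (k : Fin m) (t : ℝ) :
    ∑ i ∈ Finset.Iic k, De T m i t =
      (XX (((k : ℝ) + 1) * (Yt T / m)) t - XX 0 t) / Real.sqrt (La T) := by
  have h1 : ∑ i ∈ Finset.Iic k, De T m i t = ∑ j ∈ Finset.range ((k : ℕ) + 1),
      ((XX (((j + 1 : ℕ) : ℝ) * (Yt T / m)) t / Real.sqrt (La T)) -
        XX (((j : ℕ) : ℝ) * (Yt T / m)) t / Real.sqrt (La T)) := by
    refine Finset.sum_bij (fun i _ => (i : ℕ)) ?_ ?_ ?_ ?_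
    · intro i hi
      rw [Finset.mem_Iic] at hi
      rw [Finset.mem_range]
      have : (i : ℕ) ≤ (k : ℕ) := hi
      omega
    · intro i _ j _ h
      exact Fin.ext h
    · intro j hj
      rw [Finset.mem_range] at hj
      refine ⟨⟨j, by omega⟩, ?_, rfl⟩
      rw [Finset.mem_Iic]
      show j ≤ (k : ℕ)
      omega
    · intro i _
      unfold De
      rw [sub_div]
      push_cast
      rfl
  rw [h1, Finset.sum_range_sub (fun j : ℕ => XX ((j : ℝ) * (Yt T / m)) t / Real.sqrt (La T))]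
  push_cast
  rw [zero_mul, sub_div]

/-- the set of the good points at the coarse levels -/
def GS (T : ℝ) (m : ℕ) (b : ℝ) : Set ℝ := {t | NE T m t ∧ WK T m b t}

theorem De_cont (T : ℝ) (m : ℕ) (i : Fin m) : Continuous (De T m i) := by
  unfold De
  exact ((XX_cont _).sub (XX_cont _)).div_const _

theorem GS_closed (T : ℝ) (m : ℕ) (b : ℝ) : IsClosed (GS T m b) := by
  have h : GS T m b = {t | NE T m t} ∩ {t | WK T m b t} := rfl
  rw [h]
  apply IsClosed.inter
  · have : {t | NE T m t} = ⋂ i : ℕ, ⋂ _ : i ≤ m, {t | ‖PP ((i : ℝ) * (Yt T / m)) t‖ ≤ 40 * La T} := by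
      ext t; simp [NE]
    rw [this]
    exact isClosed_iInter fun i => isClosed_iInter fun _ => isClosed_le (PP_cont _).norm continuous_const
  · have : {t | WK T m b t} = ⋂ k : Fin m, {t | ∑ i ∈ Finset.Iic k, De T m i t ≤ b} := by
      ext t; simp [WK]
    rw [this]
    exact isClosed_iInter fun k => isClosed_le (continuous_finsetSum _ fun i _ => De_cont T m i) continuous_const

theorem t_C2 (hGW : J_GW) (hP1 : J_P1) (hMV : J_MV) (hMASS : J_MASS) (hE : J_EXP) (hFF : J_FF) : J_C2 := by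
  obtain ⟨CV, hCV, hMV⟩ := hMV
  intro η y ε δ m hη hη1 hy hε hδ hm
  have hm0 : (0 : ℝ) < m := by exact_mod_cast hm
  obtain ⟨d, hd0, hdδ, hd1⟩ : ∃ d : ℝ, 0 < d ∧ d ≤ δ / 8 ∧ d ≤ 1 :=
    ⟨min (δ / 8) 1, by positivity, min_le_left _ _, min_le_right _ _⟩
  have hgam0 : 0 ≤ gam m (y / 2 + 2 * ε) := measureReal_nonneg
  have hgam1 : gam m (y / 2 + 2 * ε) ≤ 1 := by unfold gam gm; exact measureReal_le_one
  -- the eventual facts
  have ev1 := hGW y ε (δ / ((m : ℝ) + 1)) hy hε (by positivity)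
  have ev2 : ∀ᶠ T : ℝ in atTop, (∫ t in T..(3 * T), Set.indicator {t | NE T m t ∧ WK T m (y / 2 + 2 * ε) t}
      (fun t => ‖Dp η T t‖ ^ 2) t) / (2 * T * nm (dd η T)) < gam m (y / 2 + 2 * ε) + d :=
    (hP1 η m (y / 2 + 2 * ε) hη hη1 hm).eventually (gt_mem_nhds (by linarith))
  have ev3 : ∀ᶠ T : ℝ in atTop, nm (dd η T) / Real.log T < 1 / 2 - 2 * η + d :=
    (hMASS η hη hη1).eventually (gt_mem_nhds (by linarith))
  have ev3' : ∀ᶠ T : ℝ in atTop, 0 < nm (dd η T) / Real.log T :=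
    (hMASS η hη hη1).eventually (lt_mem_nhds (by linarith))
  have ev4 : ∀ᶠ T : ℝ in atTop, T ^ (1 / 2 : ℝ) * (1 + CV) ≤ 2 * d * T := by
    have h1 : Tendsto (fun T : ℝ => T ^ (1 / 2 : ℝ)) atTop atTop := tendsto_rpow_atTop (by norm_num)
    filter_upwards [h1.eventually_ge_atTop ((1 + CV) / (2 * d)), eventually_gt_atTop (0 : ℝ)] with T h hT
    have e1 : T = T ^ (1 / 2 : ℝ) * T ^ (1 / 2 : ℝ) := by
      rw [← Real.rpow_add hT]; norm_num
    have h2 : 1 + CV ≤ 2 * d * T ^ (1 / 2 : ℝ) := by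
      rw [div_le_iff₀ (by positivity)] at h; linarith
    have h3 : 0 < T ^ (1 / 2 : ℝ) := Real.rpow_pos_of_pos hT _
    calc T ^ (1 / 2 : ℝ) * (1 + CV) ≤ T ^ (1 / 2 : ℝ) * (2 * d * T ^ (1 / 2 : ℝ)) :=
          mul_le_mul_of_nonneg_left h2 h3.le
      _ = 2 * d * (T ^ (1 / 2 : ℝ) * T ^ (1 / 2 : ℝ)) := by ring
      _ = 2 * d * T := by rw [← e1]
  have ev5 : ∀ᶠ T : ℝ in atTop, 2 ≤ ε * Real.sqrt (La T) := by
    have := (Real.tendsto_sqrt_atTop.comp tendsto_La').const_mul_atTop hε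
    exact this.eventually_ge_atTop 2
  filter_upwards [ev1, ev2, ev3, ev3', ev4, ev5, Pool.Agent.Q237.EW.ev_Yt, ev_UU y (1 / 10) (by norm_num),
    eventually_gt_atTop (3 : ℝ), hFF η hη hη1] with T e1 e2 e3 e3' e4 e5 e6 e7 hT hFT
  obtain ⟨hY0, hYL, hLa⟩ := e6
  have hT0 : 0 < T := by linarith
  have hL : 0 < Real.log T := Real.log_pos (by linarith)
  have hsq : 0 < Real.sqrt (La T) := Real.sqrt_pos.2 (by linarith)
  set U : ℝ := UU y T with hU
  have hUe : U = Real.exp (y * Real.sqrt (La T)) := rfl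
  have hU0 : 0 < U := Real.exp_pos _
  have hUT : U ≤ T ^ (1 / 10 : ℝ) := e7
  -- the bad set
  set Bi : ℕ → ℝ → Set ℝ := fun i h => {t : ℝ | (y / 2 + ε) * Real.sqrt (La T) < XX ((i : ℝ) * (Yt T / m)) (t + h)} ∪
    {t : ℝ | 40 * La T < ‖PP ((i : ℝ) * (Yt T / m)) (t + h)‖} with hBi
  set B : Set ℝ := ⋃ i : ℕ, ⋃ _ : i ≤ m, ⋃ h : ℝ, ⋃ _ : h ∈ Set.Icc (0 : ℝ) U, Bi i h with hB
  have hBo : IsOpen B := by
    refine isOpen_iUnion fun i => isOpen_iUnion fun _ => isOpen_iUnion fun h => isOpen_iUnion fun _ => ?_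
    apply IsOpen.union
    · exact isOpen_lt continuous_const ((XX_cont _).comp (continuous_id.add continuous_const))
    · exact isOpen_lt continuous_const ((PP_cont _).comp (continuous_id.add continuous_const)).norm
  have hBmem : ∀ t : ℝ, t ∈ B ↔ ∃ i : ℕ, i ≤ m ∧ ∃ h ∈ Set.Icc (0 : ℝ) U,
      ((y / 2 + ε) * Real.sqrt (La T) < XX ((i : ℝ) * (Yt T / m)) (t + h) ∨
        40 * La T < ‖PP ((i : ℝ) * (Yt T / m)) (t + h)‖) := by
    intro t
    simp only [hB, hBi, Set.mem_iUnion, Set.mem_union, Set.mem_setOf_eq, exists_prop]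
  refine ⟨B, hBo.measurableSet, ?_, ?_⟩
  · -- measure
    set Si : ℕ → Set ℝ := fun i => {t : ℝ | t ∈ Set.Icc T (3 * T) ∧ ∃ h ∈ Set.Icc (0 : ℝ) (Real.exp (y * Real.sqrt (La T))),
      ((y / 2 + ε) * Real.sqrt (La T) < XX ((i : ℝ) * (Yt T / m)) (t + h) ∨
        40 * La T < ‖PP ((i : ℝ) * (Yt T / m)) (t + h)‖)} with hSi
    have hsub : B ∩ Set.Icc T (3 * T) ⊆ ⋃ i ∈ Finset.range (m + 1), Si i := by
      rintro t ⟨htB, htI⟩
      obtain ⟨i, hi, h, hh, hor⟩ := (hBmem t).1 htB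
      rw [Set.mem_iUnion₂]
      exact ⟨i, Finset.mem_range.2 (by omega), htI, h, hh, hor⟩
    have hSf : ∀ i, volume (Si i) ≠ ⊤ := fun i =>
      ne_top_of_le_ne_top (by simp : volume (Set.Icc T (3 * T)) ≠ ⊤) (measure_mono fun t ht => ht.1)
    have h1 : volume (B ∩ Set.Icc T (3 * T)) ≤ ∑ i ∈ Finset.range (m + 1), volume (Si i) :=
      (measure_mono hsub).trans (measure_biUnion_finset_le _ _)
    have h2 := ENNReal.toReal_mono (ENNReal.sum_ne_top.2 fun i _ => hSf i) h1
    rw [ENNReal.toReal_sum fun i _ => hSf i] at h2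
    refine h2.trans ?_
    have h3 : ∑ i ∈ Finset.range (m + 1), (volume (Si i)).toReal ≤
        ∑ i ∈ Finset.range (m + 1), δ / ((m : ℝ) + 1) * T := by
      refine Finset.sum_le_sum fun i hi => ?_
      have him : (i : ℝ) ≤ m := by
        have := Finset.mem_range.1 hi
        exact_mod_cast (by omega : i ≤ m)
      apply e1 ((i : ℝ) * (Yt T / m)) (by positivity)
      calc (i : ℝ) * (Yt T / m) ≤ (m : ℝ) * (Yt T / m) := mul_le_mul_of_nonneg_right him (by positivity)
        _ = Yt T := by field_simp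
    refine h3.trans (le_of_eq ?_)
    rw [Finset.sum_const, Finset.card_range, nsmul_eq_mul]
    push_cast
    field_simp
  · -- the mean
    have hgood : ∀ t : ℝ, t ∉ B → ∀ h ∈ Set.Icc (0 : ℝ) U, t + h ∈ GS T m (y / 2 + 2 * ε) := by
      intro t ht h hh
      have hn : ∀ i : ℕ, i ≤ m → XX ((i : ℝ) * (Yt T / m)) (t + h) ≤ (y / 2 + ε) * Real.sqrt (La T) ∧
          ‖PP ((i : ℝ) * (Yt T / m)) (t + h)‖ ≤ 40 * La T := by
        intro i hi
        by_contra hcon
        apply ht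
        rw [hBmem]
        refine ⟨i, hi, h, hh, ?_⟩
        by_contra hcon2
        rw [not_or, not_lt, not_lt] at hcon2
        exact hcon hcon2
      refine ⟨fun i hi => (hn i hi).2, fun k => ?_⟩
      rw [tele]
      have h1 := (hn ((k : ℕ) + 1) k.2).1
      push_cast at h1
      have h2 := (abs_le.1 (XX0 (t + h))).1
      rw [div_le_iff₀ hsq]
      have : (y / 2 + 2 * ε) * Real.sqrt (La T) = (y / 2 + ε) * Real.sqrt (La T) + ε * Real.sqrt (La T) := by
        ring
      rw [this]; linarith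
    set f : ℝ → ℝ := Set.indicator (GS T m (y / 2 + 2 * ε)) (fun t => ‖Dp η T t‖ ^ 2) with hf
    have hDc : Continuous fun t => ‖Dp η T t‖ ^ 2 := (Dp_cont hE η T).norm.pow 2
    have hfi : ∀ a b : ℝ, IntervalIntegrable f volume a b := by
      intro a b
      rw [intervalIntegrable_iff]
      exact (intervalIntegrable_iff.1 (hDc.intervalIntegrable a b)).indicator (GS_closed T m _).measurableSet
    have hf0 : ∀ t, 0 ≤ f t := fun t => Set.indicator_nonneg (fun x _ => by positivity) t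
    have hfle : ∀ t, f t ≤ ‖Dp η T t‖ ^ 2 := fun t => Set.indicator_le_self' (fun x _ => by positivity) t
    have hwc : Continuous fun t => ∫ h in (0 : ℝ)..U, f (t + h) := by
      have : (fun t => ∫ h in (0 : ℝ)..U, f (t + h)) = fun t => ∫ u in t..(t + U), f u := by
        funext t; exact win_eq f U t
      rw [this]; exact win_cont f hfi U
    have hIcc : MeasurableSet (Set.Icc T (3 * T)) := measurableSet_Icc
    have h1 : ∫ t in Set.Icc T (3 * T) \ B, NN η y T t =
        ∫ t in Set.Icc T (3 * T) \ B, 2 / (U * Real.log T) * ∫ h in (0 : ℝ)..U, f (t + h) := by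
      apply setIntegral_congr_fun (hIcc.diff hBo.measurableSet)
      intro t ht
      show NN η y T t = 2 / (U * Real.log T) * ∫ h in (0 : ℝ)..U, f (t + h)
      unfold NN
      congr 1
      apply intervalIntegral.integral_congr
      intro h hh
      rw [Set.uIcc_of_le hU0.le] at hh
      show ‖Dp η T (t + h)‖ ^ 2 = f (t + h)
      rw [hf, Set.indicator_of_mem (hgood t ht.2 h hh)]
    have hw0 : ∀ t, 0 ≤ 2 / (U * Real.log T) * ∫ h in (0 : ℝ)..U, f (t + h) := fun t =>
      mul_nonneg (by positivity) (intervalIntegral.integral_nonneg hU0.le fun h _ => hf0 _)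
    have h2 : ∫ t in Set.Icc T (3 * T) \ B, 2 / (U * Real.log T) * ∫ h in (0 : ℝ)..U, f (t + h) ≤
        ∫ t in Set.Icc T (3 * T), 2 / (U * Real.log T) * ∫ h in (0 : ℝ)..U, f (t + h) := by
      apply setIntegral_mono_set
      · exact (continuous_const.mul hwc).continuousOn.integrableOn_compact isCompact_Icc
      · exact Eventually.of_forall hw0
      · exact (Set.sdiff_subset : Set.Icc T (3 * T) \ B ⊆ Set.Icc T (3 * T)).eventuallyLE
    have h3 : ∫ t in Set.Icc T (3 * T), 2 / (U * Real.log T) * ∫ h in (0 : ℝ)..U, f (t + h) =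
        2 / (U * Real.log T) * ∫ t in T..(3 * T), ∫ u in t..(t + U), f u := by
      rw [intervalIntegral.integral_of_le (by linarith), ← integral_Icc_eq_integral_Ioc, integral_const_mul]
      congr 1
      apply setIntegral_congr_fun hIcc
      intro t _
      exact win_eq f U t
    have h4 := slide' hfi hf0 (A := T) (B := 3 * T) hU0.le
    have h5 : ∫ x in T..(3 * T + U), f x ≤
        (∫ x in T..(3 * T), f x) + ∫ x in (3 * T)..(3 * T + U), ‖Dp η T x‖ ^ 2 := by
      rw [← intervalIntegral.integral_add_adjacent_intervals (hfi T (3 * T)) (hfi (3 * T) (3 * T + U))]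
      have : ∫ x in (3 * T)..(3 * T + U), f x ≤ ∫ x in (3 * T)..(3 * T + U), ‖Dp η T x‖ ^ 2 :=
        intervalIntegral.integral_mono_on (by linarith) (hfi _ _) (hDc.intervalIntegrable _ _) fun x _ => hfle x
      linarith
    set N := nm (dd η T) with hN
    have hN0 : 0 < N := by
      have := mul_pos e3' hL
      rwa [div_mul_cancel₀ _ hL.ne'] at this
    have h6 : ∫ x in T..(3 * T), f x ≤ 2 * T * N * (gam m (y / 2 + 2 * ε) + d) := by
      rw [div_lt_iff₀ (by positivity)] at e2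
      have : ∫ x in T..(3 * T), f x < (gam m (y / 2 + 2 * ε) + d) * (2 * T * N) := e2
      linarith
    have h7 : ∫ x in (3 * T)..(3 * T + U), ‖Dp η T x‖ ^ 2 ≤ T ^ (1 / 2 : ℝ) * (1 + CV) * N := by
      have h8 := hMV _ (dd η T) hFT.1 (3 * T) (3 * T + U) (by linarith)
      have h9 := (abs_le.1 h8).2
      have h10 : (⌊T ^ (1 / 2 - η)⌋₊ : ℝ) ≤ T ^ (1 / 2 : ℝ) := by
        refine (Nat.floor_le (by positivity)).trans ?_
        exact Real.rpow_le_rpow_of_exponent_le (by linarith) (by linarith)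
      have h11 : U ≤ T ^ (1 / 2 : ℝ) := hUT.trans
        (Real.rpow_le_rpow_of_exponent_le (by linarith) (by norm_num))
      have h12 : CV * (⌊T ^ (1 / 2 - η)⌋₊ : ℝ) * N ≤ CV * T ^ (1 / 2 : ℝ) * N := by gcongr
      have h13 : U * N ≤ T ^ (1 / 2 : ℝ) * N := mul_le_mul_of_nonneg_right h11 hN0.le
      have h14 : ∫ x in (3 * T)..(3 * T + U), ‖Dp η T x‖ ^ 2 =
          ∫ t in (3 * T)..(3 * T + U), ‖dp (dd η T) t‖ ^ 2 := rfl
      rw [h14]
      have h15 : (3 * T + U - 3 * T) * N = U * N := by ring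
      rw [h15] at h9
      nlinarith
    have h16 : T ^ (1 / 2 : ℝ) * (1 + CV) * N ≤ 2 * d * T * N := mul_le_mul_of_nonneg_right e4 hN0.le
    have h17 : ∫ x in T..(3 * T + U), f x ≤ 2 * T * N * (gam m (y / 2 + 2 * ε) + 2 * d) := by
      nlinarith
    rw [h1]
    refine (h2.trans (le_of_eq h3)).trans ?_
    have h18 : 2 / (U * Real.log T) * ∫ t in T..(3 * T), ∫ u in t..(t + U), f u ≤
        2 / (U * Real.log T) * (U * (2 * T * N * (gam m (y / 2 + 2 * ε) + 2 * d))) := by
      apply mul_le_mul_of_nonneg_left _ (by positivity)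
      exact h4.trans (mul_le_mul_of_nonneg_left h17 hU0.le)
    refine h18.trans ?_
    have h19 : 2 / (U * Real.log T) * (U * (2 * T * N * (gam m (y / 2 + 2 * ε) + 2 * d))) =
        2 * T * (2 * (N / Real.log T) * (gam m (y / 2 + 2 * ε) + 2 * d)) := by
      field_simp
    rw [h19]
    apply mul_le_mul_of_nonneg_left _ (by positivity)
    have h20 : 2 * (N / Real.log T) ≤ (1 - 4 * η) + 2 * d := by linarith
    have h21 : 2 * (N / Real.log T) * (gam m (y / 2 + 2 * ε) + 2 * d) ≤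
        ((1 - 4 * η) + 2 * d) * (gam m (y / 2 + 2 * ε) + 2 * d) :=
      mul_le_mul_of_nonneg_right h20 (by positivity)
    refine h21.trans ?_
    nlinarith [mul_nonneg hη.le hd0.le, mul_nonneg hd0.le hgam0, mul_le_mul_of_nonneg_left hgam1 hd0.le,
      mul_le_mul_of_nonneg_left hd1 hd0.le]

end Pool.Agent.Q251.EW
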