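import Pool.Agent.Q80.EW.Stm3

set_option autoImplicit false

namespace Pool.Agent.Q251.EW

open Pool.Agent.Q80.EW Filter Topology MeasureTheory

/-- continuity of window integrals -/
theorem win_cont (f : ℝ → ℝ) (hf : ∀ a b : ℝ, IntervalIntegrable f volume a b) (U : ℝ) :
    Continuous fun t => ∫ u in t..(t + U), f u := by
  have h1 : (fun t => ∫ u in t..(t + U), f u) =
      fun t => (∫ u in (0 : ℝ)..(t + U), f u) - ∫ u in (0 : ℝ)..t, f u := by
    funext t
    rw [intervalIntegral.integral_interval_sub_left (hf _ _) (hf _ _)]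
  rw [h1]
  have h2 := intervalIntegral.continuous_primitive hf 0
  exact (h2.comp (continuous_id.add continuous_const)).sub h2

theorem win_eq (f : ℝ → ℝ) (U t : ℝ) :
    ∫ h in (0 : ℝ)..U, f (t + h) = ∫ u in t..(t + U), f u := by
  rw [intervalIntegral.integral_comp_add_left (fun u => f u) t, add_zero]

theorem ze_cont : Continuous ze := by
  unfold ze
  rw [continuous_iff_continuousAt]
  intro t
  have h1 : ((1 / 2 : ℂ) + (t : ℂ) * Complex.I) ≠ 1 := by
    intro h
    have := congrArg Complex.re h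
    simp at this
  have h2 := (differentiableAt_riemannZeta h1).continuousAt
  have h3 : ContinuousAt (fun t : ℝ => (1 / 2 : ℂ) + (t : ℂ) * Complex.I) t := by fun_prop
  exact ContinuousAt.comp (f := fun t : ℝ => (1 / 2 : ℂ) + (t : ℂ) * Complex.I) h2 h3

theorem PP_cont (y : ℝ) : Continuous (PP y) := by
  unfold PP
  refine continuous_finsetSum _ fun p hp => ?_
  have hp0 : p ≠ 0 := (Nat.prime_of_mem_primesBelow hp).ne_zero
  exact Continuous.const_cpow (by fun_prop) (Or.inl (by exact_mod_cast hp0))

theorem XX_cont (y : ℝ) : Continuous (XX y) := by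
  unfold XX
  exact (Complex.continuous_re.comp (PP_cont y)).sub continuous_const

theorem zc_pos (y : ℝ) : 1 ≤ zc y := by
  unfold zc
  exact Nat.one_le_iff_ne_zero.2 (Nat.ceil_pos.2 (Real.exp_pos _)).ne'

theorem wt_zero' (Z : ℕ) : Wt Z (fun _ => 0) := fun p => ⟨by simp, fun _ => rfl⟩

theorem FS_dd (hE : J_EXP) (η T : ℝ) :
    FS (zc (Yt T) ^ el T * Nt η T) (dd η T) := by
  unfold dd
  exact FS_mul (hE (zc (Yt T)) (el T) (fun _ => 0) (zc_pos _) (wt_zero' _)).2.2.1 (FS_ro _ _)

theorem Dp_cont (hE : J_EXP) (η T : ℝ) : Continuous (Dp η T) := dp_cont (FS_dd hE η T)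

theorem GD_closed (y ε T : ℝ) (m : ℕ) : IsClosed (GD y ε T m) := by
  have : GD y ε T m = ⋂ j : ℕ, ⋂ _ : j ≤ m * qq ε T m,
      ({t | XX ((j : ℝ) * (Yt T / ((m : ℝ) * qq ε T m))) t ≤ (y / 2 - ε) * Real.sqrt (La T)} ∩
        {t | ‖PP ((j : ℝ) * (Yt T / ((m : ℝ) * qq ε T m))) t‖ ≤ 40 * La T}) := by
    ext t
    simp [GD]
  rw [this]
  refine isClosed_iInter fun j => isClosed_iInter fun _ => IsClosed.inter ?_ ?_
  · exact isClosed_le (XX_cont _) continuous_const
  · exact isClosed_le (PP_cont _).norm continuous_const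

theorem ff_int (hE : J_EXP) (η y ε T : ℝ) (m : ℕ) (a b : ℝ) :
    IntervalIntegrable (ff η y ε T m) volume a b := by
  have hc : Continuous fun t => 2 / Real.log T * ‖Dp η T t‖ ^ 2 :=
    continuous_const.mul ((Dp_cont hE η T).norm.pow 2)
  unfold ff
  rw [intervalIntegrable_iff]
  exact ((intervalIntegrable_iff.1 (hc.intervalIntegrable a b)).indicator (GD_closed y ε T m).measurableSet)

theorem ff_nonneg (η y ε T : ℝ) (m : ℕ) (hT : 1 < T) (t : ℝ) : 0 ≤ ff η y ε T m t := by
  unfold ff
  apply Set.indicator_nonneg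
  intro x _
  have := Real.log_pos hT
  positivity

theorem ff_le (η y ε T : ℝ) (m : ℕ) (hT : 1 < T) (t : ℝ) :
    ff η y ε T m t ≤ 2 / Real.log T * ‖Dp η T t‖ ^ 2 := by
  unfold ff
  apply Set.indicator_le_self'
  intro x _
  have := Real.log_pos hT
  positivity

theorem t_CON (hE : J_EXP) : J_CON := by
  intro η y ε m T hT
  have hU : 0 < UU y T := Real.exp_pos _
  have hT1 : 1 < T := by linarith
  have hL := Real.log_pos hT1
  have hD : Continuous fun t => ‖Dp η T t‖ ^ 2 := (Dp_cont hE η T).norm.pow 2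
  refine ⟨?_, ?_, ?_, ?_⟩
  · unfold MM
    exact continuous_const.mul (win_cont _ (fun a b => (ze_cont.norm.pow 2).intervalIntegrable a b) _)
  · unfold NN
    refine continuous_const.mul ?_
    have : (fun t => ∫ h in (0 : ℝ)..(UU y T), ‖Dp η T (t + h)‖ ^ 2) =
        fun t => ∫ u in t..(t + UU y T), ‖Dp η T u‖ ^ 2 := by
      funext t; exact win_eq (fun u => ‖Dp η T u‖ ^ 2) _ _
    rw [this]
    exact win_cont _ (fun a b => hD.intervalIntegrable a b) _
  · unfold WW
    refine continuous_const.mul ?_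
    have : (fun t => ∫ h in (0 : ℝ)..(UU y T), ff η y ε T m (t + h)) =
        fun t => ∫ u in t..(t + UU y T), ff η y ε T m u := by
      funext t; exact win_eq _ _ _
    rw [this]
    exact win_cont _ (fun a b => ff_int hE η y ε T m a b) _
  · intro t
    constructor
    · unfold WW
      refine mul_nonneg (by positivity) ?_
      exact intervalIntegral.integral_nonneg hU.le fun h _ => ff_nonneg η y ε T m hT1 _
    · unfold WW NN
      have h1 : ∫ h in (0 : ℝ)..(UU y T), ff η y ε T m (t + h) ≤
          ∫ h in (0 : ℝ)..(UU y T), 2 / Real.log T * ‖Dp η T (t + h)‖ ^ 2 := by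
        apply intervalIntegral.integral_mono_on hU.le
        · have := (ff_int hE η y ε T m (t + 0) (t + UU y T)).comp_add_left t
          simpa using this
        · exact (continuous_const.mul (hD.comp (continuous_const.add continuous_id))).intervalIntegrable _ _
        · intro h _; exact ff_le η y ε T m hT1 _
      rw [intervalIntegral.integral_const_mul] at h1
      calc 1 / UU y T * ∫ h in (0 : ℝ)..(UU y T), ff η y ε T m (t + h) ≤
          1 / UU y T * (2 / Real.log T * ∫ h in (0 : ℝ)..(UU y T), ‖Dp η T (t + h)‖ ^ 2) :=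
            mul_le_mul_of_nonneg_left h1 (by positivity)
        _ = _ := by
          rw [← mul_assoc]
          congr 1
          field_simp

end Pool.Agent.Q251.EW
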