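import Pool.Agent.Q80.EW.Stm5
import Pool.Agent.Q251.EW.Con1

set_option autoImplicit false

namespace Pool.Agent.Q251.EW

open Pool.Agent.Q80.EW Filter Topology MeasureTheory

theorem NE_closed (T : ℝ) (m : ℕ) : IsClosed {t | NE T m t} := by
  have : {t | NE T m t} = ⋂ i : ℕ, ⋂ _ : i ≤ m, {t | ‖PP ((i : ℝ) * (Yt T / m)) t‖ ≤ 40 * La T} := by
    ext t; simp [NE]
  rw [this]
  exact isClosed_iInter fun i => isClosed_iInter fun _ => isClosed_le (PP_cont _).norm continuous_const

theorem GE_closed (b T : ℝ) : IsClosed (GE b T) := by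
  have h : GE b T = {t | XX (Yt T) t ≤ b * Real.sqrt (La T)} ∩ {t | NE T 1 t} := rfl
  rw [h]
  exact (isClosed_le (XX_cont _) continuous_const).inter (NE_closed T 1)

theorem fe_meas (hE : J_EXP) (η b T : ℝ) : Measurable (fe η b T) := by
  unfold fe
  exact (continuous_const.mul ((Dp_cont hE η T).norm.pow 2)).measurable.indicator (GE_closed b T).measurableSet

theorem fe_nonneg (η b T : ℝ) (hT : 1 < T) (t : ℝ) : 0 ≤ fe η b T t := by
  unfold fe
  apply Set.indicator_nonneg
  intro x _
  have := Real.log_pos hT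
  positivity

theorem fe_le (η b T : ℝ) (hT : 1 < T) (t : ℝ) :
    fe η b T t ≤ 2 / Real.log T * ‖Dp η T t‖ ^ 2 := by
  unfold fe
  apply Set.indicator_le_self'
  intro x _
  have := Real.log_pos hT
  positivity

theorem DM_cont (α : ℝ) (N : ℕ) (T : ℝ) : Continuous (DM α N T) := by
  unfold DM
  exact continuous_const.mul (continuous_finsetSum _ fun n _ =>
    (ze_cont.comp (continuous_id.add continuous_const)).norm.pow 2)

theorem NX_cont (hE : J_EXP) (η α : ℝ) (N : ℕ) (T : ℝ) : Continuous (NX η α N T) := by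
  unfold NX
  exact continuous_const.mul (continuous_finsetSum _ fun n _ =>
    ((Dp_cont hE η T).comp (continuous_id.add continuous_const)).norm.pow 2)

theorem t_CONp (hE : J_EXP) : J_CONp := by
  intro α η b N T hT
  have hT1 : 1 < T := by linarith
  have hL := Real.log_pos hT1
  refine ⟨DM_cont α N T, NX_cont hE η α N T, ?_, ?_⟩
  · unfold WE
    refine Measurable.const_mul ?_ _
    exact Finset.measurable_fun_sum _ fun n _ => (fe_meas hE η b T).comp (measurable_id.add_const _)
  · intro t
    constructor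
    · unfold WE
      exact mul_nonneg (by positivity) (Finset.sum_nonneg fun n _ => fe_nonneg η b T hT1 _)
    · unfold WE NX
      have h1 : ∑ n ∈ Finset.range N, fe η b T (t + n * α) ≤
          ∑ n ∈ Finset.range N, 2 / Real.log T * ‖Dp η T (t + n * α)‖ ^ 2 :=
        Finset.sum_le_sum fun n _ => fe_le η b T hT1 _
      rw [← Finset.mul_sum] at h1
      calc 1 / (N : ℝ) * ∑ n ∈ Finset.range N, fe η b T (t + n * α) ≤
          1 / (N : ℝ) * (2 / Real.log T * ∑ n ∈ Finset.range N, ‖Dp η T (t + n * α)‖ ^ 2) :=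
            mul_le_mul_of_nonneg_left h1 (by positivity)
        _ = _ := by
          rw [← mul_assoc]
          congr 1
          rw [div_mul_div_comm, one_mul]

end Pool.Agent.Q251.EW
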