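import Pool.Agent.Q80.EW.Stm3
import Pool.Agent.Q251.EW.C2

set_option autoImplicit false

namespace Pool.Agent.Q251.EW

open Pool.Agent.Q80.EW Filter Topology MeasureTheory

theorem ev_exp (K κ : ℝ) (hκ : 0 < κ) : ∀ᶠ T : ℝ in atTop, Real.exp (K * La T) ≤ T ^ κ := by
  have h1 : ∀ᶠ x : ℝ in atTop, |K| * Real.log x ≤ κ * x := by
    have h2 := (Real.isLittleO_log_id_atTop.def (c := κ / (|K| + 1)) (by positivity))
    filter_upwards [h2, eventually_ge_atTop 1] with x hx hx1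
    rw [Real.norm_eq_abs, Real.norm_eq_abs, abs_of_nonneg (Real.log_nonneg hx1), id,
      abs_of_nonneg (show (0 : ℝ) ≤ x by linarith)] at hx
    have h3 : |K| * Real.log x ≤ |K| * (κ / (|K| + 1) * x) :=
      mul_le_mul_of_nonneg_left hx (abs_nonneg K)
    refine h3.trans ?_
    have h4 : |K| * (κ / (|K| + 1) * x) = |K| / (|K| + 1) * (κ * x) := by ring
    rw [h4]
    have h5 : |K| / (|K| + 1) ≤ 1 := by
      rw [div_le_one (by positivity)]; linarith
    exact mul_le_of_le_one_left (by positivity) h5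
  filter_upwards [Real.tendsto_log_atTop.eventually h1, eventually_gt_atTop 1,
    tendsto_La'.eventually_ge_atTop 1] with T h1 hT hL
  rw [Real.rpow_def_of_pos (by linarith)]
  apply Real.exp_le_exp.2
  have h3 : K * La T ≤ |K| * La T := mul_le_mul_of_nonneg_right (le_abs_self K) (by linarith)
  unfold La at h3 ⊢
  linarith

/-- the good points of the coarse levels: upper bound on slightly longer intervals -/
theorem core_up (hP1 : J_P1) (hMV : J_MV) (hMASS : J_MASS) (hE : J_EXP) (hFF : J_FF)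
    (η b δ : ℝ) (m : ℕ) (hη : 0 < η) (hη1 : η ≤ 1 / 100) (hδ : 0 < δ) (hm : 1 ≤ m) :
    ∀ᶠ T : ℝ in atTop, ∀ V : ℝ, 0 ≤ V → V ≤ T ^ (1 / 10 : ℝ) →
      2 / Real.log T * ∫ x in T..(3 * T + V), Set.indicator (GS T m b) (fun t => ‖Dp η T t‖ ^ 2) x ≤
        2 * T * ((1 - 4 * η) * gam m b + δ) := by
  obtain ⟨CV, hCV, hMV⟩ := hMV
  obtain ⟨d, hd0, hdδ, hd1⟩ : ∃ d : ℝ, 0 < d ∧ d ≤ δ / 8 ∧ d ≤ 1 :=
    ⟨min (δ / 8) 1, by positivity, min_le_left _ _, min_le_right _ _⟩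
  have hgam0 : 0 ≤ gam m b := measureReal_nonneg
  have hgam1 : gam m b ≤ 1 := by unfold gam gm; exact measureReal_le_one
  have ev2 : ∀ᶠ T : ℝ in atTop, (∫ t in T..(3 * T), Set.indicator {t | NE T m t ∧ WK T m b t}
      (fun t => ‖Dp η T t‖ ^ 2) t) / (2 * T * nm (dd η T)) < gam m b + d :=
    (hP1 η m b hη hη1 hm).eventually (gt_mem_nhds (by linarith))
  have ev3 : ∀ᶠ T : ℝ in atTop, nm (dd η T) / Real.log T < 1 / 2 - 2 * η + d :=
    (hMASS η hη hη1).eventually (gt_mem_nhds (by linarith))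
  have ev3' : ∀ᶠ T : ℝ in atTop, 0 < nm (dd η T) / Real.log T :=
    (hMASS η hη hη1).eventually (lt_mem_nhds (by linarith))
  have ev4 : ∀ᶠ T : ℝ in atTop, T ^ (1 / 2 : ℝ) * (1 + CV) ≤ 2 * d * T := by
    have h1 : Tendsto (fun T : ℝ => T ^ (1 / 2 : ℝ)) atTop atTop := tendsto_rpow_atTop (by norm_num)
    filter_upwards [h1.eventually_ge_atTop ((1 + CV) / (2 * d)), eventually_gt_atTop (0 : ℝ)] with T h hT
    have e1 : T = T ^ (1 / 2 : ℝ) * T ^ (1 / 2 : ℝ) := by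
      rw [← Real.rpow_add hT]; norm_num
    have h2 : 1 + CV ≤ 2 * d * T ^ (1 / 2 : ℝ) := by
      rw [div_le_iff₀ (by positivity)] at h; linarith
    have h3 : 0 < T ^ (1 / 2 : ℝ) := Real.rpow_pos_of_pos hT _
    calc T ^ (1 / 2 : ℝ) * (1 + CV) ≤ T ^ (1 / 2 : ℝ) * (2 * d * T ^ (1 / 2 : ℝ)) :=
          mul_le_mul_of_nonneg_left h2 h3.le
      _ = 2 * d * (T ^ (1 / 2 : ℝ) * T ^ (1 / 2 : ℝ)) := by ring
      _ = 2 * d * T := by rw [← e1]
  filter_upwards [ev2, ev3, ev3', ev4, eventually_gt_atTop (3 : ℝ), hFF η hη hη1]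
    with T e2 e3 e3' e4 hT hFT
  intro V hV0 hVT
  have hT0 : 0 < T := by linarith
  have hL : 0 < Real.log T := Real.log_pos (by linarith)
  set f : ℝ → ℝ := Set.indicator (GS T m b) (fun t => ‖Dp η T t‖ ^ 2) with hf
  have hDc : Continuous fun t => ‖Dp η T t‖ ^ 2 := (Dp_cont hE η T).norm.pow 2
  have hfi : ∀ a b : ℝ, IntervalIntegrable f volume a b := by
    intro a b
    rw [intervalIntegrable_iff]
    exact (intervalIntegrable_iff.1 (hDc.intervalIntegrable a b)).indicator (GS_closed T m _).measurableSet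
  have hfle : ∀ t, f t ≤ ‖Dp η T t‖ ^ 2 := fun t => Set.indicator_le_self' (fun x _ => by positivity) t
  have h5 : ∫ x in T..(3 * T + V), f x ≤
      (∫ x in T..(3 * T), f x) + ∫ x in (3 * T)..(3 * T + V), ‖Dp η T x‖ ^ 2 := by
    rw [← intervalIntegral.integral_add_adjacent_intervals (hfi T (3 * T)) (hfi (3 * T) (3 * T + V))]
    have : ∫ x in (3 * T)..(3 * T + V), f x ≤ ∫ x in (3 * T)..(3 * T + V), ‖Dp η T x‖ ^ 2 :=
      intervalIntegral.integral_mono_on (by linarith) (hfi _ _) (hDc.intervalIntegrable _ _) fun x _ => hfle x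
    linarith
  set N := nm (dd η T) with hN
  have hN0 : 0 < N := by
    have := mul_pos e3' hL
    rwa [div_mul_cancel₀ _ hL.ne'] at this
  have h6 : ∫ x in T..(3 * T), f x ≤ 2 * T * N * (gam m b + d) := by
    rw [div_lt_iff₀ (by positivity)] at e2
    have : ∫ x in T..(3 * T), f x < (gam m b + d) * (2 * T * N) := e2
    linarith
  have h7 : ∫ x in (3 * T)..(3 * T + V), ‖Dp η T x‖ ^ 2 ≤ T ^ (1 / 2 : ℝ) * (1 + CV) * N := by
    have h8 := hMV _ (dd η T) hFT.1 (3 * T) (3 * T + V) (by linarith)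
    have h9 := (abs_le.1 h8).2
    have h10 : (⌊T ^ (1 / 2 - η)⌋₊ : ℝ) ≤ T ^ (1 / 2 : ℝ) := by
      refine (Nat.floor_le (by positivity)).trans ?_
      exact Real.rpow_le_rpow_of_exponent_le (by linarith) (by linarith)
    have h11 : V ≤ T ^ (1 / 2 : ℝ) := hVT.trans
      (Real.rpow_le_rpow_of_exponent_le (by linarith) (by norm_num))
    have h12 : CV * (⌊T ^ (1 / 2 - η)⌋₊ : ℝ) * N ≤ CV * T ^ (1 / 2 : ℝ) * N := by gcongr
    have h13 : V * N ≤ T ^ (1 / 2 : ℝ) * N := mul_le_mul_of_nonneg_right h11 hN0.le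
    have h14 : ∫ x in (3 * T)..(3 * T + V), ‖Dp η T x‖ ^ 2 =
        ∫ t in (3 * T)..(3 * T + V), ‖dp (dd η T) t‖ ^ 2 := rfl
    rw [h14]
    have h15 : (3 * T + V - 3 * T) * N = V * N := by ring
    rw [h15] at h9
    nlinarith
  have h16 : T ^ (1 / 2 : ℝ) * (1 + CV) * N ≤ 2 * d * T * N := mul_le_mul_of_nonneg_right e4 hN0.le
  have h17 : ∫ x in T..(3 * T + V), f x ≤ 2 * T * N * (gam m b + 2 * d) := by
    nlinarith
  have h18 : 2 / Real.log T * ∫ x in T..(3 * T + V), f x ≤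
      2 / Real.log T * (2 * T * N * (gam m b + 2 * d)) :=
    mul_le_mul_of_nonneg_left h17 (by positivity)
  refine h18.trans ?_
  have h19 : 2 / Real.log T * (2 * T * N * (gam m b + 2 * d)) =
      2 * T * (2 * (N / Real.log T) * (gam m b + 2 * d)) := by
    field_simp
  rw [h19]
  apply mul_le_mul_of_nonneg_left _ (by positivity)
  have h20 : 2 * (N / Real.log T) ≤ (1 - 4 * η) + 2 * d := by linarith
  have h21 : 2 * (N / Real.log T) * (gam m b + 2 * d) ≤
      ((1 - 4 * η) + 2 * d) * (gam m b + 2 * d) :=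
    mul_le_mul_of_nonneg_right h20 (by positivity)
  refine h21.trans ?_
  nlinarith [mul_nonneg hη.le hd0.le, mul_nonneg hd0.le hgam0, mul_le_mul_of_nonneg_left hgam1 hd0.le,
    mul_le_mul_of_nonneg_left hd1 hd0.le]

end Pool.Agent.Q251.EW
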