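import Pool.Agent.Q80.EW.Stm5
import Pool.Agent.Q251.EW.Upp
import Pool.Agent.Q251.EW.ConP

set_option autoImplicit false

namespace Pool.Agent.Q251.EW

open Pool.Agent.Q80.EW Filter Topology MeasureTheory

theorem Ny_le (y T : ℝ) : (Ny y T : ℝ) ≤ Real.exp (La T + y * Real.sqrt (La T)) :=
  Nat.floor_le (Real.exp_pos _).le

/-- `√Λ ≥ A` eventually -/
theorem ev_sq (A : ℝ) : ∀ᶠ T : ℝ in atTop, A ≤ Real.sqrt (La T) :=
  (Real.tendsto_sqrt_atTop.comp tendsto_La').eventually_ge_atTop A

theorem ev_NyV (α y κ : ℝ) (hα : 0 < α) (hκ : 0 < κ) :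
    ∀ᶠ T : ℝ in atTop, 1 ≤ Ny y T ∧ (Ny y T : ℝ) * α ≤ T ^ κ := by
  filter_upwards [ev_exp 3 κ hκ, ev_sq (|y| + 1), tendsto_La'.eventually_ge_atTop 1,
    (Real.tendsto_exp_atTop.comp tendsto_La').eventually_ge_atTop α] with T h1 h2 h3 h4
  have hs0 : 0 ≤ Real.sqrt (La T) := Real.sqrt_nonneg _
  have hsq : Real.sqrt (La T) ^ 2 = La T := Real.sq_sqrt (by linarith)
  have hy1 : |y| * Real.sqrt (La T) ≤ La T := by nlinarith [abs_nonneg y]
  have hy2 : y * Real.sqrt (La T) ≤ |y| * Real.sqrt (La T) := mul_le_mul_of_nonneg_right (le_abs_self y) hs0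
  have hy3 : -(|y| * Real.sqrt (La T)) ≤ y * Real.sqrt (La T) := by
    have := mul_le_mul_of_nonneg_right (neg_abs_le y) hs0
    linarith
  constructor
  · unfold Ny
    rw [Nat.one_le_floor_iff]
    exact Real.one_le_exp (by linarith)
  · have h5 : (Ny y T : ℝ) ≤ Real.exp (2 * La T) :=
      (Ny_le y T).trans (Real.exp_le_exp.2 (by linarith))
    calc (Ny y T : ℝ) * α ≤ Real.exp (2 * La T) * Real.exp (La T) := by
          apply mul_le_mul h5 h4 hα.le (Real.exp_pos _).le
      _ = Real.exp (3 * La T) := by rw [← Real.exp_add]; ring_nf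
      _ ≤ T ^ κ := h1

theorem GE_sub (b ε T : ℝ) (hsq : 0 < Real.sqrt (La T)) (h2 : 2 ≤ ε * Real.sqrt (La T)) :
    GE b T ⊆ GS T 1 (b + ε) := by
  rintro t ⟨h3, h4⟩
  refine ⟨h4, fun k => ?_⟩
  have hk : ((k : ℕ) : ℝ) = 0 := by
    have : k = 0 := Subsingleton.elim _ _
    rw [this]; simp
  rw [tele, hk]
  have e1 : ((0 : ℝ) + 1) * (Yt T / ((1 : ℕ) : ℝ)) = Yt T := by simp
  rw [e1, div_le_iff₀ hsq]
  have h5 := (abs_le.1 (XX0 t)).1
  nlinarith

theorem t_C2D (hLD : J_LD) (hP1 : J_P1) (hMV : J_MV) (hMASS : J_MASS) (hE : J_EXP) (hFF : J_FF) : J_C2D := by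
  obtain ⟨C, hC, hLD⟩ := hLD
  intro α η y ε δ hα hη hη1 hε hδ
  -- smallness
  have sm1 : ∀ᶠ T : ℝ in atTop, C * (La T ^ 2 * Real.exp (-(2 * ε * Real.sqrt (La T)))) ≤ δ / 2 := by
    have h1 : Tendsto (fun u : ℝ => u ^ 4 * Real.exp (-u)) atTop (𝓝 0) :=
      Real.tendsto_pow_mul_exp_neg_atTop_nhds_zero 4
    have h2 : Tendsto (fun T : ℝ => 2 * ε * Real.sqrt (La T)) atTop atTop :=
      (Real.tendsto_sqrt_atTop.comp tendsto_La').const_mul_atTop (by positivity)
    have h3 := (h1.comp h2).eventually (gt_mem_nhds (by positivity : (0 : ℝ) < δ / 2 * (2 * ε) ^ 4 / C))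
    filter_upwards [h3, tendsto_La'.eventually_ge_atTop 1] with T h3 h4
    simp only [Function.comp_apply] at h3
    have h5 : Real.sqrt (La T) ^ 2 = La T := Real.sq_sqrt (by linarith)
    have h6 : (2 * ε * Real.sqrt (La T)) ^ 4 = (2 * ε) ^ 4 * La T ^ 2 := by
      rw [mul_pow]; congr 1
      calc Real.sqrt (La T) ^ 4 = (Real.sqrt (La T) ^ 2) ^ 2 := by ring
        _ = _ := by rw [h5]
    rw [h6] at h3
    have h7 : 0 < (2 * ε) ^ 4 := by positivity
    have h8 : La T ^ 2 * Real.exp (-(2 * ε * Real.sqrt (La T))) < δ / 2 / C := by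
      have : (2 * ε) ^ 4 * (La T ^ 2 * Real.exp (-(2 * ε * Real.sqrt (La T)))) < (2 * ε) ^ 4 * (δ / 2 / C) := by
        calc _ = (2 * ε) ^ 4 * La T ^ 2 * Real.exp (-(2 * ε * Real.sqrt (La T))) := by ring
          _ < δ / 2 * (2 * ε) ^ 4 / C := h3
          _ = _ := by ring
      exact lt_of_mul_lt_mul_left this h7.le
    have := mul_lt_mul_of_pos_left h8 hC
    have e : C * (δ / 2 / C) = δ / 2 := by field_simp
    linarith
  have sm2 : ∀ᶠ T : ℝ in atTop, 2 * Real.exp (-(18 * La T)) ≤ δ / 2 := by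
    have h1 : Tendsto (fun T : ℝ => Real.exp (-(18 * La T))) atTop (𝓝 0) :=
      Real.tendsto_exp_neg_atTop_nhds_zero.comp (tendsto_La'.const_mul_atTop (by norm_num))
    filter_upwards [h1.eventually (gt_mem_nhds (by positivity : (0 : ℝ) < δ / 4))] with T h
    linarith
  filter_upwards [core_up hP1 hMV hMASS hE hFF η (y / 2 + 2 * ε) δ 1 hη hη1 hδ le_rfl, hLD,
    ev_NyV α y (1 / 10) hα (by norm_num), ev_sq (|y| + 1), ev_sq (2 / ε), Pool.Agent.Q237.EW.ev_Yt, sm1, sm2,
    eventually_gt_atTop (3 : ℝ)] with T hcore hLD hNy hsy hsε hYT sm1 sm2 hT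
  obtain ⟨hY0, hYL, hLa⟩ := hYT
  obtain ⟨hN1, hNα⟩ := hNy
  have hT0 : 0 < T := by linarith
  have hL : 0 < Real.log T := Real.log_pos (by linarith)
  have hs0 : 0 < Real.sqrt (La T) := Real.sqrt_pos.2 (by linarith)
  have hs2 : 2 ≤ ε * Real.sqrt (La T) := by
    rw [div_le_iff₀ hε] at hsε; linarith
  have hsq : Real.sqrt (La T) ^ 2 = La T := Real.sq_sqrt (by linarith)
  set N : ℕ := Ny y T with hN
  have hN0 : (0 : ℝ) < N := by exact_mod_cast hN1
  have hTt : T ^ (1 / 10 : ℝ) ≤ T := by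
    calc T ^ (1 / 10 : ℝ) ≤ T ^ (1 : ℝ) := Real.rpow_le_rpow_of_exponent_le (by linarith) (by norm_num)
      _ = T := Real.rpow_one T
  set β : ℝ := (y / 2 + ε) * Real.sqrt (La T) with hβ
  -- the bad set
  set P1 : Set ℝ := {s | β < XX (Yt T) s ∧ ‖PP (Yt T) s‖ ≤ 40 * La T} with hP1s
  set P2 : Set ℝ := {s | 40 * La T < ‖PP 0 s‖} with hP2s
  set P3 : Set ℝ := {s | 40 * La T < ‖PP (Yt T) s‖} with hP3s
  have mP1 : MeasurableSet P1 :=
    (measurableSet_lt measurable_const (XX_cont _).measurable).inter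
      (measurableSet_le (PP_cont _).norm.measurable measurable_const)
  have mP2 : MeasurableSet P2 := measurableSet_lt measurable_const (PP_cont _).norm.measurable
  have mP3 : MeasurableSet P3 := measurableSet_lt measurable_const (PP_cont _).norm.measurable
  set P : Set ℝ := P1 ∪ P2 ∪ P3 with hP
  have mP : MeasurableSet P := (mP1.union mP2).union mP3
  set B : Set ℝ := ⋃ n ∈ Finset.range N, (fun t : ℝ => t + n * α) ⁻¹' P with hB
  have hBm : MeasurableSet B :=
    Finset.measurableSet_biUnion _ fun n _ => (measurable_id.add_const _) mP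
  have hBmem : ∀ t, t ∈ B ↔ ∃ n < N, t + n * α ∈ P := by
    intro t
    simp only [hB, Set.mem_iUnion, Finset.mem_range, Set.mem_preimage, exists_prop]
  have hgood : ∀ t : ℝ, t ∉ B → ∀ n < N, t + n * α ∈ GE (y / 2 + ε) T := by
    intro t ht n hn
    have hnP : t + n * α ∉ P := fun h => ht ((hBmem t).2 ⟨n, hn, h⟩)
    simp only [hP, Set.mem_union, not_or] at hnP
    obtain ⟨⟨h1, h2⟩, h3⟩ := hnP
    have h2' : ‖PP 0 (t + n * α)‖ ≤ 40 * La T := not_lt.1 h2
    have h3' : ‖PP (Yt T) (t + n * α)‖ ≤ 40 * La T := not_lt.1 h3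
    refine ⟨?_, ?_⟩
    · by_contra hcon
      exact h1 ⟨not_le.1 hcon, h3'⟩
    · intro i hi
      have hi' : i = 0 ∨ i = 1 := by omega
      rcases hi' with rfl | rfl
      · have e : (((0 : ℕ) : ℝ)) * (Yt T / ((1 : ℕ) : ℝ)) = 0 := by simp
        rw [e]; exact h2'
      · have e : (((1 : ℕ) : ℝ)) * (Yt T / ((1 : ℕ) : ℝ)) = Yt T := by simp
        rw [e]; exact h3'
  refine ⟨B, hBm, ?_, fun t ht n hn => hgood t ht.2 n hn, ?_⟩
  · -- measure
    have hIf : volume (Set.Icc T (4 * T)) ≠ ⊤ := by simp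
    have v1 : (volume (P1 ∩ Set.Icc T (4 * T))).toReal ≤ C * T * Real.exp (-(Yt T) - 2 * β) := by
      have h1 := (hLD (Yt T) β hY0 le_rfl).1
      refine le_trans (le_of_eq ?_) h1
      congr 2
      ext s
      simp only [hP1s, Set.mem_inter_iff, Set.mem_setOf_eq]
      tauto
    have v2 : (volume (P2 ∩ Set.Icc T (4 * T))).toReal ≤ T * Real.exp (-(20 * La T)) := by
      have h1 := (hLD 0 β le_rfl hY0).2
      refine le_trans (le_of_eq ?_) h1
      congr 2
      ext s
      simp only [hP2s, Set.mem_inter_iff, Set.mem_setOf_eq]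
      tauto
    have v3 : (volume (P3 ∩ Set.Icc T (4 * T))).toReal ≤ T * Real.exp (-(20 * La T)) := by
      have h1 := (hLD (Yt T) β hY0 le_rfl).2
      refine le_trans (le_of_eq ?_) h1
      congr 2
      ext s
      simp only [hP3s, Set.mem_inter_iff, Set.mem_setOf_eq]
      tauto
    have f1 : ∀ S : Set ℝ, volume (S ∩ Set.Icc T (4 * T)) ≠ ⊤ := fun S =>
      ne_top_of_le_ne_top hIf (measure_mono Set.inter_subset_right)
    have vP : (volume (P ∩ Set.Icc T (4 * T))).toReal ≤
        C * T * Real.exp (-(Yt T) - 2 * β) + 2 * (T * Real.exp (-(20 * La T))) := by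
      have h1 : volume (P ∩ Set.Icc T (4 * T)) ≤ volume (P1 ∩ Set.Icc T (4 * T)) +
          volume (P2 ∩ Set.Icc T (4 * T)) + volume (P3 ∩ Set.Icc T (4 * T)) := by
        rw [hP, Set.union_inter_distrib_right, Set.union_inter_distrib_right]
        exact (measure_union_le _ _).trans (add_le_add (measure_union_le _ _) le_rfl)
      have h2 := ENNReal.toReal_mono (ENNReal.add_ne_top.2 ⟨ENNReal.add_ne_top.2 ⟨f1 _, f1 _⟩, f1 _⟩) h1
      rw [ENNReal.toReal_add (ENNReal.add_ne_top.2 ⟨f1 _, f1 _⟩) (f1 _), ENNReal.toReal_add (f1 _) (f1 _)] at h2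
      linarith
    have vB : volume (B ∩ Set.Icc T (3 * T)) ≤ ∑ n ∈ Finset.range N, volume (P ∩ Set.Icc T (4 * T)) := by
      have h1 : B ∩ Set.Icc T (3 * T) ⊆ ⋃ n ∈ Finset.range N,
          (fun t : ℝ => t + n * α) ⁻¹' (P ∩ Set.Icc T (4 * T)) := by
        rintro t ⟨htB, htI⟩
        obtain ⟨n, hn, hnP⟩ := (hBmem t).1 htB
        rw [Set.mem_iUnion₂]
        refine ⟨n, Finset.mem_range.2 hn, hnP, ?_⟩
        have h2 : (n : ℝ) * α ≤ N * α := mul_le_mul_of_nonneg_right (by exact_mod_cast hn.le) hα.le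
        have h3 : 0 ≤ (n : ℝ) * α := by positivity
        have h4 := htI.1
        have h5 := htI.2
        constructor
        · show T ≤ t + n * α; linarith
        · show t + n * α ≤ 4 * T; linarith
      refine (measure_mono h1).trans ((measure_biUnion_finset_le _ _).trans (le_of_eq ?_))
      refine Finset.sum_congr rfl fun n _ => ?_
      exact measure_preimage_add_right volume _ _
    have vB2 : (volume (B ∩ Set.Icc T (3 * T))).toReal ≤ N * (volume (P ∩ Set.Icc T (4 * T))).toReal := by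
      have h2 := ENNReal.toReal_mono (ENNReal.sum_ne_top.2 fun i _ => f1 P) vB
      rw [ENNReal.toReal_sum fun i _ => f1 P] at h2
      simpa using h2
    refine vB2.trans ?_
    have hb1 : (N : ℝ) * (C * T * Real.exp (-(Yt T) - 2 * β)) ≤ δ / 2 * T := by
      have e1 : Real.exp (La T + y * Real.sqrt (La T)) * Real.exp (-(Yt T) - 2 * β) =
          La T ^ 2 * Real.exp (-(2 * ε * Real.sqrt (La T))) := by
        have e2 : La T ^ 2 = Real.exp (2 * Real.log (La T)) := by
          rw [mul_comm, Real.exp_mul, Real.exp_log (by linarith)]; norm_num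
        rw [e2, ← Real.exp_add, ← Real.exp_add, hβ]
        congr 1
        unfold Yt
        ring
      have e3 : (N : ℝ) * Real.exp (-(Yt T) - 2 * β) ≤ La T ^ 2 * Real.exp (-(2 * ε * Real.sqrt (La T))) := by
        rw [← e1]
        exact mul_le_mul_of_nonneg_right (Ny_le y T) (Real.exp_pos _).le
      calc (N : ℝ) * (C * T * Real.exp (-(Yt T) - 2 * β)) = C * (N * Real.exp (-(Yt T) - 2 * β)) * T := by ring
        _ ≤ C * (La T ^ 2 * Real.exp (-(2 * ε * Real.sqrt (La T)))) * T := by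
            apply mul_le_mul_of_nonneg_right _ hT0.le
            exact mul_le_mul_of_nonneg_left e3 hC.le
        _ ≤ δ / 2 * T := mul_le_mul_of_nonneg_right sm1 hT0.le
    have hb2 : (N : ℝ) * (2 * (T * Real.exp (-(20 * La T)))) ≤ δ / 2 * T := by
      have hy2 : y * Real.sqrt (La T) ≤ La T := by
        have := mul_le_mul_of_nonneg_right (le_abs_self y) hs0.le
        nlinarith [abs_nonneg y]
      have e1 : (N : ℝ) * Real.exp (-(20 * La T)) ≤ Real.exp (-(18 * La T)) := by
        calc (N : ℝ) * Real.exp (-(20 * La T)) ≤ Real.exp (La T + y * Real.sqrt (La T)) * Real.exp (-(20 * La T)) :=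
              mul_le_mul_of_nonneg_right (Ny_le y T) (Real.exp_pos _).le
          _ = Real.exp (La T + y * Real.sqrt (La T) + -(20 * La T)) := by rw [← Real.exp_add]
          _ ≤ Real.exp (-(18 * La T)) := Real.exp_le_exp.2 (by linarith)
      calc (N : ℝ) * (2 * (T * Real.exp (-(20 * La T)))) = 2 * (N * Real.exp (-(20 * La T))) * T := by ring
        _ ≤ 2 * Real.exp (-(18 * La T)) * T := by
            apply mul_le_mul_of_nonneg_right _ hT0.le
            exact mul_le_mul_of_nonneg_left e1 (by norm_num)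
        _ ≤ δ / 2 * T := mul_le_mul_of_nonneg_right sm2 hT0.le
    have := mul_le_mul_of_nonneg_left vP hN0.le
    rw [mul_add] at this
    linarith
  · -- the mean
    set f : ℝ → ℝ := Set.indicator (GS T 1 (y / 2 + 2 * ε)) (fun t => ‖Dp η T t‖ ^ 2) with hf
    have hDc : Continuous fun t => ‖Dp η T t‖ ^ 2 := (Dp_cont hE η T).norm.pow 2
    have hfi : ∀ a b : ℝ, IntervalIntegrable f volume a b := by
      intro a b
      rw [intervalIntegrable_iff]
      exact (intervalIntegrable_iff.1 (hDc.intervalIntegrable a b)).indicator (GS_closed T 1 _).measurableSet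
    have hf0 : ∀ t, 0 ≤ f t := fun t => Set.indicator_nonneg (fun x _ => by positivity) t
    have hIcc : MeasurableSet (Set.Icc T (3 * T)) := measurableSet_Icc
    have hfs : ∀ n : ℕ, IntervalIntegrable (fun t => f (t + n * α)) volume T (3 * T) := by
      intro n
      have := (hfi (T + n * α) (3 * T + n * α)).comp_add_right (n * α)
      simpa using this
    have hfI : ∀ n : ℕ, IntegrableOn (fun t => f (t + n * α)) (Set.Icc T (3 * T)) := by
      intro n
      exact (intervalIntegrable_iff_integrableOn_Icc_of_le (by linarith)).1 (hfs n)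
    have h1 : ∫ t in Set.Icc T (3 * T) \ B, NX η α N T t =
        ∫ t in Set.Icc T (3 * T) \ B, 2 / (N * Real.log T) * ∑ n ∈ Finset.range N, f (t + n * α) := by
      apply setIntegral_congr_fun (hIcc.diff hBm)
      intro t ht
      show NX η α N T t = 2 / (N * Real.log T) * ∑ n ∈ Finset.range N, f (t + n * α)
      unfold NX
      congr 1
      refine Finset.sum_congr rfl fun n hn => ?_
      rw [hf, Set.indicator_of_mem]
      have h2 := GE_sub (y / 2 + ε) ε T hs0 hs2 (hgood t ht.2 n (Finset.mem_range.1 hn))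
      have e : y / 2 + ε + ε = y / 2 + 2 * ε := by ring
      rwa [e] at h2
    have hsumI : IntegrableOn (fun t => 2 / (N * Real.log T) * ∑ n ∈ Finset.range N, f (t + n * α))
        (Set.Icc T (3 * T)) :=
      (integrable_finset_sum _ fun n _ => hfI n).const_mul _
    have h2 : ∫ t in Set.Icc T (3 * T) \ B, 2 / (N * Real.log T) * ∑ n ∈ Finset.range N, f (t + n * α) ≤
        ∫ t in Set.Icc T (3 * T), 2 / (N * Real.log T) * ∑ n ∈ Finset.range N, f (t + n * α) := by
      apply setIntegral_mono_set hsumI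
      · exact Eventually.of_forall fun t => mul_nonneg (by positivity) (Finset.sum_nonneg fun n _ => hf0 _)
      · exact (Set.sdiff_subset : Set.Icc T (3 * T) \ B ⊆ Set.Icc T (3 * T)).eventuallyLE
    have h3 : ∫ t in Set.Icc T (3 * T), 2 / (N * Real.log T) * ∑ n ∈ Finset.range N, f (t + n * α) =
        2 / (N * Real.log T) * ∑ n ∈ Finset.range N, ∫ t in T..(3 * T), f (t + n * α) := by
      rw [integral_const_mul, integral_finset_sum _ fun n _ => hfI n]
      congr 1
      refine Finset.sum_congr rfl fun n _ => ?_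
      rw [intervalIntegral.integral_of_le (by linarith), ← integral_Icc_eq_integral_Ioc]
    have h4 : ∀ n ∈ Finset.range N, ∫ t in T..(3 * T), f (t + n * α) ≤ ∫ x in T..(3 * T + N * α), f x := by
      intro n hn
      have hnN : (n : ℝ) * α ≤ N * α :=
        mul_le_mul_of_nonneg_right (by exact_mod_cast (Finset.mem_range.1 hn).le) hα.le
      have hn0 : 0 ≤ (n : ℝ) * α := by positivity
      rw [intervalIntegral.integral_comp_add_right (fun u => f u) (n * α)]
      have e1 := intervalIntegral.integral_add_adjacent_intervals (hfi T (T + n * α)) (hfi (T + n * α) (3 * T + N * α))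
      have e2 := intervalIntegral.integral_add_adjacent_intervals (hfi (T + n * α) (3 * T + n * α))
        (hfi (3 * T + n * α) (3 * T + N * α))
      have e3 : 0 ≤ ∫ x in T..(T + n * α), f x :=
        intervalIntegral.integral_nonneg (by linarith) fun x _ => hf0 x
      have e4 : 0 ≤ ∫ x in (3 * T + n * α)..(3 * T + N * α), f x :=
        intervalIntegral.integral_nonneg (by linarith) fun x _ => hf0 x
      linarith
    have h5 := hcore (N * α) (by positivity) hNα
    rw [h1]
    refine (h2.trans (le_of_eq h3)).trans ?_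
    refine le_trans ?_ h5
    have h6 : ∑ n ∈ Finset.range N, ∫ t in T..(3 * T), f (t + n * α) ≤ N * ∫ x in T..(3 * T + N * α), f x := by
      refine (Finset.sum_le_sum h4).trans (le_of_eq ?_)
      rw [Finset.sum_const, Finset.card_range, nsmul_eq_mul]
    calc 2 / (N * Real.log T) * ∑ n ∈ Finset.range N, ∫ t in T..(3 * T), f (t + n * α) ≤
        2 / (N * Real.log T) * (N * ∫ x in T..(3 * T + N * α), f x) :=
          mul_le_mul_of_nonneg_left h6 (by positivity)
      _ = _ := by field_simp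

end Pool.Agent.Q251.EW
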