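import Pool.Agent.Q80.EW.Stm4

set_option autoImplicit false

namespace Pool.Agent.Q251.EW

open Pool.Agent.Q80.EW Filter Topology MeasureTheory

theorem t_EF : J_EF := by
  have hc : Continuous fun x : ℝ => Real.exp (-x ^ 2) := by fun_prop
  have hpi : 0 < 2 / Real.sqrt Real.pi := div_pos two_pos (Real.sqrt_pos.2 Real.pi_pos)
  have hcont : Continuous erf := by
    unfold erf
    exact continuous_const.mul
      (intervalIntegral.continuous_primitive (fun a b => hc.intervalIntegrable a b) 0)
  have hmono : StrictMono erf := by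
    intro a b hab
    unfold erf
    apply mul_lt_mul_of_pos_left _ hpi
    have h1 : (∫ x in (0 : ℝ)..b, Real.exp (-x ^ 2)) - ∫ x in (0 : ℝ)..a, Real.exp (-x ^ 2) =
        ∫ x in a..b, Real.exp (-x ^ 2) :=
      intervalIntegral.integral_interval_sub_left (hc.intervalIntegrable _ _) (hc.intervalIntegrable _ _)
    have h2 : 0 < ∫ x in a..b, Real.exp (-x ^ 2) :=
      intervalIntegral.intervalIntegral_pos_of_pos (hc.intervalIntegrable _ _)
        (fun x => Real.exp_pos _) hab
    linarith
  have h0 : erf 0 = 0 := by simp [erf]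
  have hlim : Tendsto erf atTop (𝓝 1) := by
    have hint : IntegrableOn (fun x : ℝ => Real.exp (-x ^ 2)) (Set.Ioi 0) := by
      have := (integrable_exp_neg_mul_sq (b := 1) one_pos).integrableOn (s := Set.Ioi (0 : ℝ))
      simpa using this
    have h1 := intervalIntegral_tendsto_integral_Ioi (0 : ℝ) hint tendsto_id
    have h2 : ∫ x in Set.Ioi (0 : ℝ), Real.exp (-x ^ 2) = Real.sqrt Real.pi / 2 := by
      have := integral_gaussian_Ioi 1
      simpa using this
    have h3 := h1.const_mul (2 / Real.sqrt Real.pi)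
    have h4 : 2 / Real.sqrt Real.pi * ∫ x in Set.Ioi (0 : ℝ), Real.exp (-x ^ 2) = 1 := by
      rw [h2]
      have : Real.sqrt Real.pi ≠ 0 := (Real.sqrt_pos.2 Real.pi_pos).ne'
      field_simp
    rw [h4] at h3
    exact h3
  refine ⟨h0, hcont, hmono, ?_, hlim⟩
  intro b hb
  refine ⟨by rw [← h0]; exact hmono hb, ?_⟩
  have h1 : erf (b + 1) ≤ 1 :=
    hmono.monotone.ge_of_tendsto hlim (b + 1)
  exact lt_of_lt_of_le (hmono (by linarith)) h1

end Pool.Agent.Q251.EW
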