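import Pool.Agent.Q80.EW.Stm4
import Pool.Agent.Q251.EW.Con1
import Pool.Agent.Q251.EW.EF

set_option autoImplicit false

namespace Pool.Agent.Q251.EW

open Pool.Agent.Q80.EW Filter Topology MeasureTheory

theorem La_tendsto : Tendsto La atTop atTop := Real.tendsto_log_atTop.comp Real.tendsto_log_atTop

theorem MM_cont (U T : ℝ) : Continuous (MM U T) := by
  unfold MM
  exact continuous_const.mul (win_cont _ (fun a b => (ze_cont.norm.pow 2).intervalIntegrable a b) _)

theorem MM_nonneg (U T t : ℝ) (hU : 0 ≤ U) (hT : 1 ≤ T) : 0 ≤ MM U T t := by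
  unfold MM
  have := Real.log_nonneg hT
  exact mul_nonneg (by positivity) (intervalIntegral.integral_nonneg (by linarith) fun u _ => by positivity)

/-- the mean of the window means -/
theorem mean_MM (hH : J_HLW) : ∃ C : ℝ, 0 ≤ C ∧ ∀ T U : ℝ, 3 ≤ T → 1 ≤ U → U ≤ T →
    |(∫ t in T..(2 * T), MM U T t) - T| ≤ C * T / Real.log T := by
  obtain ⟨C, hC⟩ := hH
  refine ⟨|C|, abs_nonneg C, ?_⟩
  intro T U hT hU hUT
  have hL : 0 < Real.log T := Real.log_pos (by linarith)
  have hU0 : 0 < U := by linarith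
  set f : ℝ → ℝ := fun u => ‖ze u‖ ^ 2 with hf
  have hfc : Continuous f := ze_cont.norm.pow 2
  have e1 : ∀ t, MM U T t = 1 / (U * Real.log T) * ∫ h in (0 : ℝ)..U, f (t + h) := by
    intro t; unfold MM; rw [win_eq f U t]
  have e2 : ∫ t in T..(2 * T), MM U T t =
      1 / (U * Real.log T) * ∫ h in (0 : ℝ)..U, ∫ t in T..(2 * T), f (t + h) := by
    simp_rw [e1]
    rw [intervalIntegral.integral_const_mul]
    congr 1
    apply intervalIntegral_intervalIntegral_swap
    have hc2 : Continuous (Function.uncurry fun t h : ℝ => f (t + h)) :=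
      hfc.comp (continuous_fst.add continuous_snd)
    exact (hc2.continuousOn.integrableOn_compact (isCompact_uIcc.prod isCompact_uIcc)).mono_set
      (Set.prod_mono Set.uIoc_subset_uIcc Set.uIoc_subset_uIcc)
  have hinner : ∀ h : ℝ, 0 ≤ h → h ≤ U → |(∫ t in T..(2 * T), f (t + h)) - T * Real.log T| ≤ |C| * T := by
    intro h h0 h1
    refine (hC T h (by linarith) h0 (by linarith)).trans ?_
    exact mul_le_mul_of_nonneg_right (le_abs_self C) (by linarith)
  have hGc : Continuous fun h : ℝ => ∫ t in T..(2 * T), f (t + h) := by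
    have : (fun h : ℝ => ∫ t in T..(2 * T), f (t + h)) = fun h => ∫ t in (T + h)..(2 * T + h), f t := by
      funext h
      rw [intervalIntegral.integral_comp_add_right (fun u => f u) h]
    rw [this]
    have h2 : (fun h => ∫ t in (T + h)..(2 * T + h), f t) =
        fun h => (∫ t in (0 : ℝ)..(2 * T + h), f t) - ∫ t in (0 : ℝ)..(T + h), f t := by
      funext h
      rw [intervalIntegral.integral_interval_sub_left (hfc.intervalIntegrable _ _) (hfc.intervalIntegrable _ _)]
    rw [h2]
    have h3 := intervalIntegral.continuous_primitive (μ := volume) (fun a b => hfc.intervalIntegrable a b) 0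
    exact (h3.comp (continuous_const.add continuous_id)).sub (h3.comp (continuous_const.add continuous_id))
  have e3 : (∫ h in (0 : ℝ)..U, ∫ t in T..(2 * T), f (t + h)) - U * (T * Real.log T) =
      ∫ h in (0 : ℝ)..U, ((∫ t in T..(2 * T), f (t + h)) - T * Real.log T) := by
    rw [intervalIntegral.integral_sub (hGc.intervalIntegrable _ _) (by simp),
      intervalIntegral.integral_const]
    simp
  have e4 : |(∫ h in (0 : ℝ)..U, ∫ t in T..(2 * T), f (t + h)) - U * (T * Real.log T)| ≤ |C| * T * U := by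
    rw [e3, ← Real.norm_eq_abs]
    have := intervalIntegral.norm_integral_le_of_norm_le_const (a := 0) (b := U)
      (f := fun h => (∫ t in T..(2 * T), f (t + h)) - T * Real.log T) (C := |C| * T) (by
        intro h hh
        rw [Set.uIoc_of_le hU0.le] at hh
        exact hinner h hh.1.le hh.2)
    rwa [sub_zero, abs_of_pos hU0] at this
  have e5 : (∫ t in T..(2 * T), MM U T t) - T =
      1 / (U * Real.log T) * ((∫ h in (0 : ℝ)..U, ∫ t in T..(2 * T), f (t + h)) - U * (T * Real.log T)) := by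
    rw [e2]; field_simp
  rw [e5, abs_mul, abs_of_pos (by positivity)]
  calc 1 / (U * Real.log T) * |(∫ h in (0 : ℝ)..U, ∫ t in T..(2 * T), f (t + h)) - U * (T * Real.log T)| ≤
      1 / (U * Real.log T) * (|C| * T * U) := mul_le_mul_of_nonneg_left e4 (by positivity)
    _ = |C| * T / Real.log T := by field_simp

theorem ev_log (C ε : ℝ) (hε : 0 < ε) : ∀ᶠ T : ℝ in atTop, C / Real.log T ≤ ε := by
  have h1 : Tendsto (fun T : ℝ => C / Real.log T) atTop (𝓝 0) :=
    tendsto_const_nhds.div_atTop Real.tendsto_log_atTop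
  exact (h1.eventually (gt_mem_nhds hε)).mono fun T h => h.le

/-- sublinear powers -/
theorem sub_lin (q lam : ℝ) (hq1 : q < 1) (hl : 0 < lam) :
    ∃ K : ℝ, 0 ≤ K ∧ ∀ x : ℝ, 0 ≤ x → 0 ≤ q → x ^ q ≤ lam * x + K := by
  refine ⟨(lam ^ (-(1 / (1 - q)))) ^ q, by positivity, ?_⟩
  intro x hx hq0
  set a : ℝ := lam ^ (-(1 / (1 - q))) with ha
  have ha0 : 0 < a := Real.rpow_pos_of_pos hl _
  rcases le_total x a with h | h
  · have := Real.rpow_le_rpow hx h hq0
    have h2 : 0 ≤ lam * x := by positivity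
    linarith
  · have hx0 : 0 < x := ha0.trans_le h
    have h1 : x ^ q = x * x ^ (q - 1) := by
      rw [Real.rpow_sub_one hx0.ne']; field_simp
    have h2 : x ^ (q - 1) ≤ a ^ (q - 1) := Real.rpow_le_rpow_of_nonpos ha0 h (by linarith)
    have h3 : a ^ (q - 1) = lam := by
      rw [ha, ← Real.rpow_mul hl.le]
      have : -(1 / (1 - q)) * (q - 1) = 1 := by
        have : 1 - q ≠ 0 := by linarith
        field_simp; ring
      rw [this, Real.rpow_one]
    rw [h3] at h2
    have h4 : x * x ^ (q - 1) ≤ x * lam := mul_le_mul_of_nonneg_left h2 hx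
    have h5 : 0 ≤ a ^ q := by positivity
    rw [h1]; linarith

theorem rpow_diff (q a b : ℝ) (ha : 0 ≤ a) (hb : 0 ≤ b) (hq : 0 ≤ q) (hq1 : q ≤ 1) :
    |a ^ q - b ^ q| ≤ |a - b| ^ q := by
  rcases le_total a b with h | h
  · have h1 := Real.rpow_add_le_add_rpow ha (sub_nonneg.2 h) hq hq1
    rw [add_sub_cancel] at h1
    rw [abs_sub_comm, abs_of_nonneg (sub_nonneg.2 (Real.rpow_le_rpow ha h hq)), abs_sub_comm a b,
      abs_of_nonneg (sub_nonneg.2 h)]
    linarith
  · have h1 := Real.rpow_add_le_add_rpow hb (sub_nonneg.2 h) hq hq1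
    rw [add_sub_cancel] at h1
    rw [abs_of_nonneg (sub_nonneg.2 (Real.rpow_le_rpow hb h hq)), abs_of_nonneg (sub_nonneg.2 h)]
    linarith

/-- the integral of a function dominated by `a + b M` plus a constant on a bad set -/
theorem split_int (T : ℝ) (hT : 0 < T) (F M : ℝ → ℝ) (hF : Continuous F) (hM : Continuous M)
    (hM0 : ∀ t ∈ Set.Icc T (2 * T), 0 ≤ M t) (E : Set ℝ) (hE : MeasurableSet E) (hEs : E ⊆ Set.Icc T (2 * T))
    (a b K : ℝ) (hK : 0 ≤ K)
    (hb : ∀ t ∈ Set.Icc T (2 * T), t ∉ E → F t ≤ a + b * M t)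
    (hb2 : ∀ t ∈ E, F t ≤ a + b * M t + K) :
    ∫ t in T..(2 * T), F t ≤ a * T + b * (∫ t in T..(2 * T), M t) + K * (volume E).toReal := by
  have hle : T ≤ 2 * T := by linarith
  have h1 : ∫ t in T..(2 * T), F t ≤ ∫ t in T..(2 * T), (a + b * M t + E.indicator (fun _ => K) t) := by
    rw [intervalIntegral.integral_of_le hle, intervalIntegral.integral_of_le hle,
      ← integral_Icc_eq_integral_Ioc, ← integral_Icc_eq_integral_Ioc]
    apply setIntegral_mono_on (hF.continuousOn.integrableOn_compact isCompact_Icc)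
    · apply Integrable.add
      · exact (continuous_const.add (continuous_const.mul hM)).continuousOn.integrableOn_compact isCompact_Icc
      · apply Integrable.indicator _ hE
        exact integrableOn_const (by simp)
    · exact measurableSet_Icc
    · intro t ht
      by_cases h : t ∈ E
      · rw [Set.indicator_of_mem h]; exact hb2 t h
      · rw [Set.indicator_of_notMem h, add_zero]; exact hb t ht h
  refine h1.trans (le_of_eq ?_)
  have i2 : IntervalIntegrable (E.indicator (fun _ => K)) volume T (2 * T) := by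
    rw [intervalIntegrable_iff]
    apply Integrable.indicator _ hE
    exact integrableOn_const (by simp)
  have k1 : Continuous fun t => b * M t := continuous_const.mul hM
  have k2 : Continuous fun t => a + b * M t := continuous_const.add k1
  rw [intervalIntegral.integral_add (k2.intervalIntegrable _ _) i2,
    intervalIntegral.integral_add (by simp) (k1.intervalIntegrable _ _),
    intervalIntegral.integral_const, intervalIntegral.integral_const_mul]
  have e1 : ∫ t in T..(2 * T), E.indicator (fun _ => K) t = K * (volume E).toReal := by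
    rw [intervalIntegral.integral_of_le hle, ← integral_Icc_eq_integral_Ioc, setIntegral_indicator hE,
      Set.inter_eq_self_of_subset_right hEs, setIntegral_const, smul_eq_mul, measureReal_def]
    ring
  rw [e1, smul_eq_mul]
  ring

theorem t_COR1 (hM : J_MAIN) (hH : J_HLW) (hEF : J_EF) : J_COR1 := by
  obtain ⟨he0, hec, hem, hep, hel⟩ := hEF
  obtain ⟨C, hC0, hC⟩ := mean_MM hH
  intro q ε hq hq1 hε
  obtain ⟨K, hK0, hK⟩ := sub_lin q (ε / 8) hq1 (by positivity)
  obtain ⟨δ, hδ0, hδ1, hδ2⟩ : ∃ δ : ℝ, 0 < δ ∧ δ ^ q ≤ ε / 4 ∧ (K + 1) * δ ≤ ε / 4 := by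
    refine ⟨min ((ε / 4) ^ (1 / q)) (ε / 4 / (K + 1)), by positivity, ?_, ?_⟩
    · calc (min ((ε / 4) ^ (1 / q)) (ε / 4 / (K + 1))) ^ q ≤ ((ε / 4) ^ (1 / q)) ^ q :=
            Real.rpow_le_rpow (by positivity) (min_le_left _ _) hq.le
        _ = ε / 4 := by
          rw [← Real.rpow_mul (by positivity), one_div, inv_mul_cancel₀ hq.ne', Real.rpow_one]
    · calc (K + 1) * min ((ε / 4) ^ (1 / q)) (ε / 4 / (K + 1)) ≤ (K + 1) * (ε / 4 / (K + 1)) :=
            mul_le_mul_of_nonneg_left (min_le_right _ _) (by positivity)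
        _ = ε / 4 := by field_simp
  filter_upwards [hM δ hδ0, eventually_ge_atTop (3 : ℝ), ev_log C 1 one_pos,
    La_tendsto.eventually_ge_atTop 1] with T hM hT hCT hLa
  intro U hU1 hUT
  have hT0 : 0 < T := by linarith
  set e := erf (Real.log U / (2 * Real.sqrt (La T))) with he
  have harg : 0 ≤ Real.log U / (2 * Real.sqrt (La T)) :=
    div_nonneg (Real.log_nonneg hU1) (by positivity)
  have he00 : 0 ≤ e := by rw [← he0]; exact hem.monotone harg
  have he1 : e ≤ 1 := by
    rcases harg.lt_or_eq with h | h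
    · exact (hep _ h).2.le
    · rw [he, ← h, he0]; norm_num
  have hMc := MM_cont U T
  have hM0 : ∀ t, 0 ≤ MM U T t := fun t => MM_nonneg U T t (by linarith) (by linarith)
  set E : Set ℝ := {t : ℝ | t ∈ Set.Icc T (2 * T) ∧ δ < |MM U T t - e|} with hE
  have hEm : MeasurableSet E :=
    measurableSet_Icc.inter (measurableSet_lt measurable_const (hMc.sub continuous_const).abs.measurable)
  have hv : (volume E).toReal ≤ δ * T := hM U hU1 hUT
  have hmean := hC T U hT hU1 hUT
  have hmean2 : ∫ t in T..(2 * T), MM U T t ≤ 2 * T := by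
    have h1 := (abs_le.1 hmean).2
    have h2 : C * T / Real.log T = C / Real.log T * T := by ring
    rw [h2] at h1
    nlinarith
  have hpc : Continuous fun t => MM U T t ^ q := hMc.rpow_const fun t => Or.inr hq.le
  have hFc : Continuous fun t => |MM U T t ^ q - e ^ q| := (hpc.sub continuous_const).abs
  have hmain := split_int T hT0 (fun t => |MM U T t ^ q - e ^ q|) (MM U T) hFc hMc (fun t _ => hM0 t) E hEm
    (fun t ht => ht.1) (δ ^ q) (ε / 8) (K + 1) (by positivity) (by
      intro t ht htE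
      have h1 : |MM U T t - e| ≤ δ := not_lt.1 fun h => htE ⟨ht, h⟩
      have h2 := rpow_diff q (MM U T t) e (hM0 t) he00 hq.le hq1.le
      have h3 := Real.rpow_le_rpow (abs_nonneg _) h1 hq.le
      have h4 : 0 ≤ ε / 8 * MM U T t := mul_nonneg (by positivity) (hM0 t)
      show |MM U T t ^ q - e ^ q| ≤ _
      linarith) (by
      intro t ht
      have h1 := hK (MM U T t) (hM0 t) hq.le
      have h2 : |MM U T t ^ q - e ^ q| ≤ MM U T t ^ q + e ^ q := by
        have a1 : 0 ≤ MM U T t ^ q := Real.rpow_nonneg (hM0 t) q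
        have a2 : 0 ≤ e ^ q := Real.rpow_nonneg he00 q
        rw [abs_le]; constructor <;> linarith
      have h3 : e ^ q ≤ 1 := Real.rpow_le_one he00 he1 hq.le
      have h4 : 0 < δ ^ q := Real.rpow_pos_of_pos hδ0 q
      show |MM U T t ^ q - e ^ q| ≤ _
      linarith)
  have e1 : 1 / T * (∫ t in T..(2 * T), MM U T t ^ q) - e ^ q =
      1 / T * ∫ t in T..(2 * T), (MM U T t ^ q - e ^ q) := by
    rw [intervalIntegral.integral_sub (hpc.intervalIntegrable _ _) (by simp), intervalIntegral.integral_const,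
      smul_eq_mul]
    field_simp
    ring
  rw [e1, abs_mul, abs_of_pos (by positivity)]
  have e2 : |∫ t in T..(2 * T), (MM U T t ^ q - e ^ q)| ≤ ∫ t in T..(2 * T), |MM U T t ^ q - e ^ q| :=
    intervalIntegral.abs_integral_le_integral_abs (by linarith)
  have e3 : |∫ t in T..(2 * T), (MM U T t ^ q - e ^ q)| ≤ ε * T := by
    refine e2.trans (hmain.trans ?_)
    have f1 : δ ^ q * T ≤ ε / 4 * T := mul_le_mul_of_nonneg_right hδ1 hT0.le
    have f2 : ε / 8 * (∫ t in T..(2 * T), MM U T t) ≤ ε / 8 * (2 * T) :=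
      mul_le_mul_of_nonneg_left hmean2 (by positivity)
    have f3 : (K + 1) * (volume E).toReal ≤ (K + 1) * (δ * T) :=
      mul_le_mul_of_nonneg_left hv (by positivity)
    have f4 : (K + 1) * δ * T ≤ ε / 4 * T := mul_le_mul_of_nonneg_right hδ2 hT0.le
    nlinarith
  calc 1 / T * |∫ t in T..(2 * T), (MM U T t ^ q - e ^ q)| ≤ 1 / T * (ε * T) :=
        mul_le_mul_of_nonneg_left e3 (by positivity)
    _ = ε := by field_simp

/-- (a) -/
def CA (U : ℝ → ℝ) : Prop := ∀ ε : ℝ, 0 < ε → Tendsto (fun T : ℝ => (volume {t : ℝ | t ∈ Set.Icc T (2 * T) ∧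
      ε < |MM (U T) T t - 1|}).toReal / T) atTop (𝓝 0)

/-- (b) -/
def CB (U : ℝ → ℝ) : Prop :=
  Tendsto (fun T : ℝ => 1 / T * ∫ t in T..(2 * T), |MM (U T) T t - 1|) atTop (𝓝 0)

/-- (c) -/
def CC (U : ℝ → ℝ) : Prop := Tendsto (fun T : ℝ => Real.log (U T) / Real.sqrt (La T)) atTop atTop

theorem ac (hM : J_MAIN) (hEF : J_EF) (U : ℝ → ℝ) (hU : ∀ T : ℝ, 1 ≤ T → 1 ≤ U T ∧ U T ≤ T)
    (h : CA U) : CC U := by
  obtain ⟨he0, hec, hem, hep, hel⟩ := hEF
  unfold CC
  rw [tendsto_atTop]
  by_contra hcon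
  push_neg at hcon
  obtain ⟨K, hK⟩ := hcon
  obtain ⟨K1, hK1, hK10⟩ : ∃ K1 : ℝ, K ≤ K1 ∧ 0 < K1 := ⟨max K 1, le_max_left _ _, by positivity⟩
  have hlt : erf (K1 / 2) < 1 := (hep _ (by positivity)).2
  obtain ⟨d, hd, hd0, hd4⟩ : ∃ d : ℝ, d ≤ (1 - erf (K1 / 2)) / 4 ∧ 0 < d ∧ d ≤ 1 / 4 :=
    ⟨min ((1 - erf (K1 / 2)) / 4) (1 / 4), min_le_left _ _, lt_min (by linarith) (by norm_num), min_le_right _ _⟩
  have h1 := h d hd0
  have h2 : ∀ᶠ T : ℝ in atTop, (volume {t : ℝ | t ∈ Set.Icc T (2 * T) ∧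
      d < |MM (U T) T t - 1|}).toReal / T < 1 / 2 := h1.eventually (gt_mem_nhds (by norm_num))
  obtain ⟨T, hKT, h2T, hMT, hT3, hLa⟩ := (hK.and_eventually (h2.and ((hM d hd0).and
    ((eventually_ge_atTop (3 : ℝ)).and (La_tendsto.eventually_ge_atTop 1))))).exists
  obtain ⟨hU1, hUT⟩ := hU T (by linarith)
  have hT0 : 0 < T := by linarith
  have h3 := hMT (U T) hU1 hUT
  set e := erf (Real.log (U T) / (2 * Real.sqrt (La T))) with he
  have hsq : 0 < Real.sqrt (La T) := Real.sqrt_pos.2 (by linarith)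
  have hle : e ≤ erf (K1 / 2) := by
    apply hem.monotone
    have : Real.log (U T) / Real.sqrt (La T) ≤ K1 := hKT.le.trans hK1
    have e2 : Real.log (U T) / (2 * Real.sqrt (La T)) = (Real.log (U T) / Real.sqrt (La T)) / 2 := by
      field_simp
    rw [e2]; linarith
  set A : Set ℝ := {t : ℝ | t ∈ Set.Icc T (2 * T) ∧ d < |MM (U T) T t - 1|} with hA
  set E : Set ℝ := {t : ℝ | t ∈ Set.Icc T (2 * T) ∧ d < |MM (U T) T t - e|} with hE
  have hsub : Set.Icc T (2 * T) ⊆ A ∪ E := by
    intro t ht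
    by_cases htE : t ∈ E
    · exact Or.inr htE
    · left
      refine ⟨ht, ?_⟩
      have q1 : |MM (U T) T t - e| ≤ d := not_lt.1 fun h => htE ⟨ht, h⟩
      have q2 := (abs_le.1 q1).2
      rw [abs_sub_comm]
      refine lt_of_lt_of_le ?_ (le_abs_self _)
      linarith
  have hv : T ≤ (volume A).toReal + (volume E).toReal := by
    have fI : volume (Set.Icc T (2 * T)) ≠ ⊤ := by simp
    have f1 : volume A ≠ ⊤ := ne_top_of_le_ne_top fI (measure_mono fun t ht => ht.1)
    have f2 : volume E ≠ ⊤ := ne_top_of_le_ne_top fI (measure_mono fun t ht => ht.1)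
    have g1 : volume (Set.Icc T (2 * T)) ≤ volume A + volume E :=
      (measure_mono hsub).trans (measure_union_le _ _)
    have g2 := ENNReal.toReal_mono (ENNReal.add_ne_top.2 ⟨f1, f2⟩) g1
    rw [ENNReal.toReal_add f1 f2, Real.volume_Icc, ENNReal.toReal_ofReal (by linarith)] at g2
    linarith
  rw [div_lt_iff₀ hT0] at h2T
  nlinarith

theorem ca (hM : J_MAIN) (hEF : J_EF) (U : ℝ → ℝ) (hU : ∀ T : ℝ, 1 ≤ T → 1 ≤ U T ∧ U T ≤ T)
    (h : CC U) : CA U := by
  obtain ⟨he0, hec, hem, hep, hel⟩ := hEF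
  intro ε hε
  rw [Metric.tendsto_nhds]
  intro δ hδ
  obtain ⟨d, hd, hd0, hd4⟩ : ∃ d : ℝ, d ≤ ε / 2 ∧ 0 < d ∧ d ≤ δ / 2 :=
    ⟨min (ε / 2) (δ / 2), min_le_left _ _, lt_min (by linarith) (by linarith), min_le_right _ _⟩
  have h1 : Tendsto (fun T : ℝ => erf (Real.log (U T) / (2 * Real.sqrt (La T)))) atTop (𝓝 1) := by
    have h2 : Tendsto (fun T : ℝ => Real.log (U T) / (2 * Real.sqrt (La T))) atTop atTop := by
      have : (fun T : ℝ => Real.log (U T) / (2 * Real.sqrt (La T))) =
          fun T => (1 / 2) * (Real.log (U T) / Real.sqrt (La T)) := by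
        funext T
        rw [one_div, mul_comm 2 (Real.sqrt (La T)), ← div_div]; ring
      rw [this]
      exact h.const_mul_atTop (by norm_num)
    exact hel.comp h2
  have h3 : ∀ᶠ T : ℝ in atTop, |erf (Real.log (U T) / (2 * Real.sqrt (La T))) - 1| < ε / 2 := by
    have := Metric.tendsto_nhds.1 h1 (ε / 2) (by positivity)
    simpa [Real.dist_eq] using this
  filter_upwards [h3, hM d hd0, eventually_ge_atTop (3 : ℝ)] with T h3 hMT hT
  obtain ⟨hU1, hUT⟩ := hU T (by linarith)
  have hT0 : 0 < T := by linarith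
  have h4 := hMT (U T) hU1 hUT
  have h5 : (volume {t : ℝ | t ∈ Set.Icc T (2 * T) ∧ ε < |MM (U T) T t - 1|}).toReal ≤ d * T := by
    refine le_trans (ENNReal.toReal_mono ?_ (measure_mono ?_)) h4
    · exact ne_top_of_le_ne_top (by simp : volume (Set.Icc T (2 * T)) ≠ ⊤) (measure_mono fun t ht => ht.1)
    · rintro t ⟨ht, htε⟩
      refine ⟨ht, ?_⟩
      have := abs_sub_le (MM (U T) T t) (erf (Real.log (U T) / (2 * Real.sqrt (La T)))) 1
      linarith
  rw [Real.dist_eq, sub_zero, abs_of_nonneg (by positivity), div_lt_iff₀ hT0]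
  have : d * T ≤ δ / 2 * T := mul_le_mul_of_nonneg_right hd4 hT0.le
  have : 0 < δ * T := by positivity
  linarith

theorem ba (U : ℝ → ℝ) (h : CB U) : CA U := by
  intro ε hε
  have h1 : Tendsto (fun T : ℝ => 1 / ε * (1 / T * ∫ t in T..(2 * T), |MM (U T) T t - 1|)) atTop (𝓝 0) := by
    have := h.const_mul (1 / ε)
    rwa [mul_zero] at this
  refine squeeze_zero' ?_ ?_ h1
  · filter_upwards [eventually_ge_atTop (0 : ℝ)] with T hT
    positivity
  · filter_upwards [eventually_gt_atTop (0 : ℝ)] with T hT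
    have hc : Continuous fun t => |MM (U T) T t - 1| := ((MM_cont (U T) T).sub continuous_const).abs
    have hm := mul_meas_ge_le_integral_of_nonneg (μ := volume.restrict (Set.Icc T (2 * T)))
      (f := fun t => |MM (U T) T t - 1|) (Eventually.of_forall fun t => abs_nonneg _)
      (hc.continuousOn.integrableOn_compact isCompact_Icc) ε
    rw [measureReal_restrict_apply (measurableSet_le measurable_const hc.measurable)] at hm
    rw [intervalIntegral.integral_of_le (by linarith), ← integral_Icc_eq_integral_Ioc]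
    have h2 : (volume {t : ℝ | t ∈ Set.Icc T (2 * T) ∧ ε < |MM (U T) T t - 1|}).toReal ≤
        volume.real ({x | ε ≤ |MM (U T) T x - 1|} ∩ Set.Icc T (2 * T)) := by
      apply ENNReal.toReal_mono
      · exact ne_top_of_le_ne_top (by simp : volume (Set.Icc T (2 * T)) ≠ ⊤) (measure_mono Set.inter_subset_right)
      · apply measure_mono
        rintro t ⟨ht, ht2⟩
        exact ⟨ht2.le, ht⟩
    have h3 : (volume {t : ℝ | t ∈ Set.Icc T (2 * T) ∧ ε < |MM (U T) T t - 1|}).toReal ≤
        1 / ε * ∫ t in Set.Icc T (2 * T), |MM (U T) T t - 1| := by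
      calc _ ≤ volume.real ({x | ε ≤ |MM (U T) T x - 1|} ∩ Set.Icc T (2 * T)) := h2
        _ = 1 / ε * (ε * volume.real ({x | ε ≤ |MM (U T) T x - 1|} ∩ Set.Icc T (2 * T))) := by field_simp
        _ ≤ _ := mul_le_mul_of_nonneg_left hm (by positivity)
    calc (volume {t : ℝ | t ∈ Set.Icc T (2 * T) ∧ ε < |MM (U T) T t - 1|}).toReal / T ≤
        (1 / ε * ∫ t in Set.Icc T (2 * T), |MM (U T) T t - 1|) / T := div_le_div_of_nonneg_right h3 hT.le
      _ = _ := by ring

theorem ab' (hH : J_HLW) (U : ℝ → ℝ) (hU : ∀ T : ℝ, 1 ≤ T → 1 ≤ U T ∧ U T ≤ T)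
    (h : CA U) : CB U := by
  obtain ⟨C, hC0, hC⟩ := mean_MM hH
  unfold CB
  rw [Metric.tendsto_nhds]
  intro ε hε
  have h1 := (h (ε / 8) (by positivity)).eventually (gt_mem_nhds (by positivity : (0 : ℝ) < ε / 8))
  filter_upwards [h1, ev_log C (ε / 8) (by positivity), eventually_ge_atTop (3 : ℝ)] with T h1 h2 hT
  obtain ⟨hU1, hUT⟩ := hU T (by linarith)
  have hT0 : 0 < T := by linarith
  have h3 := hC T (U T) hT hU1 hUT
  have hMc := MM_cont (U T) T
  have hM0 : ∀ t, 0 ≤ MM (U T) T t := fun t => MM_nonneg (U T) T t (by linarith) (by linarith)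
  set E : Set ℝ := {t : ℝ | t ∈ Set.Icc T (2 * T) ∧ ε / 8 < |MM (U T) T t - 1|} with hE
  have hEm : MeasurableSet E :=
    measurableSet_Icc.inter (measurableSet_lt measurable_const (hMc.sub continuous_const).abs.measurable)
  rw [div_lt_iff₀ hT0] at h1
  have hpc : Continuous fun t => max (1 - MM (U T) T t) 0 := (continuous_const.sub hMc).max continuous_const
  have hmain := split_int T hT0 (fun t => max (1 - MM (U T) T t) 0) (MM (U T) T) hpc hMc
    (fun t _ => hM0 t) E hEm (fun t ht => ht.1) (ε / 8) 0 1 zero_le_one (by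
      intro t ht htE
      have q1 : |MM (U T) T t - 1| ≤ ε / 8 := not_lt.1 fun h => htE ⟨ht, h⟩
      have q2 := (abs_le.1 q1).1
      rw [zero_mul, add_zero]
      exact max_le (by linarith) (by positivity)) (by
      intro t ht
      have := hM0 t
      rw [zero_mul, add_zero]
      exact max_le (by linarith) (by positivity))
  have e1 : ∀ t, |MM (U T) T t - 1| = (MM (U T) T t - 1) + 2 * max (1 - MM (U T) T t) 0 := by
    intro t
    rcases le_total (MM (U T) T t) 1 with h | h
    · rw [max_eq_left (by linarith), abs_of_nonpos (by linarith)]; ring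
    · rw [max_eq_right (by linarith), abs_of_nonneg (by linarith)]; ring
  have e2 : ∫ t in T..(2 * T), |MM (U T) T t - 1| =
      ((∫ t in T..(2 * T), MM (U T) T t) - T) + 2 * ∫ t in T..(2 * T), max (1 - MM (U T) T t) 0 := by
    simp_rw [e1]
    have k1 : Continuous fun t => MM (U T) T t - 1 := hMc.sub continuous_const
    have k2 : Continuous fun t => 2 * max (1 - MM (U T) T t) 0 := continuous_const.mul hpc
    rw [intervalIntegral.integral_add (k1.intervalIntegrable _ _) (k2.intervalIntegrable _ _),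
      intervalIntegral.integral_sub (hMc.intervalIntegrable _ _) (by simp), intervalIntegral.integral_const,
      intervalIntegral.integral_const_mul, smul_eq_mul]
    ring
  have h4 := (abs_le.1 h3).2
  have h5 : C * T / Real.log T = C / Real.log T * T := by ring
  rw [h5] at h4
  have h6 : C / Real.log T * T ≤ ε / 8 * T := mul_le_mul_of_nonneg_right h2 hT0.le
  have h7 : ∫ t in T..(2 * T), |MM (U T) T t - 1| ≤ 5 / 8 * ε * T := by
    rw [e2]
    rw [zero_mul, add_zero, one_mul] at hmain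
    nlinarith
  have h8 : 0 ≤ ∫ t in T..(2 * T), |MM (U T) T t - 1| :=
    intervalIntegral.integral_nonneg (by linarith) fun t _ => abs_nonneg _
  rw [Real.dist_eq, sub_zero, abs_of_nonneg (by positivity)]
  have h9 : 1 / T * ∫ t in T..(2 * T), |MM (U T) T t - 1| ≤ 1 / T * (5 / 8 * ε * T) :=
    mul_le_mul_of_nonneg_left h7 (by positivity)
  have h10 : 1 / T * (5 / 8 * ε * T) = 5 / 8 * ε := by field_simp
  linarith

theorem t_COR2 (hM : J_MAIN) (hH : J_HLW) (hEF : J_EF) : J_COR2 := by
  intro U hU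
  exact ⟨⟨fun h => ac hM hEF U hU h, fun h => ca hM hEF U hU h⟩,
    ⟨fun h => ac hM hEF U hU (ba U h), fun h => ab' hH U hU (ca hM hEF U hU h)⟩⟩

end Pool.Agent.Q251.EW
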