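import Pool.Agent.Q80.EW.Stm3

set_option autoImplicit false

namespace Pool.Agent.Q251.EW

open Pool.Agent.Q80.EW Filter Topology MeasureTheory

/-- Markov on a measurable set of finite measure -/
theorem mk_aux (S : Set ℝ) (hS : MeasurableSet S) (f : ℝ → ℝ) (hi : IntegrableOn f S)
    (hf0 : ∀ t ∈ S, 0 ≤ f t) (hfm : Measurable f) (c : ℝ) (hfin : volume S ≠ ⊤) :
    c * (volume {t : ℝ | t ∈ S ∧ c < f t}).toReal ≤ ∫ t in S, f t := by
  have h1 := mul_meas_ge_le_integral_of_nonneg (μ := volume.restrict S) (f := f)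
    ((ae_restrict_iff' hS).2 (Eventually.of_forall hf0)) hi c
  have hint0 : 0 ≤ ∫ t in S, f t := setIntegral_nonneg hS hf0
  rcases le_or_gt c 0 with hc | hc
  · exact le_trans (mul_nonpos_of_nonpos_of_nonneg hc ENNReal.toReal_nonneg) hint0
  refine le_trans ?_ h1
  apply mul_le_mul_of_nonneg_left _ hc.le
  rw [measureReal_restrict_apply (measurableSet_le measurable_const hfm)]
  apply ENNReal.toReal_mono
  · exact ne_top_of_le_ne_top hfin (measure_mono Set.inter_subset_right)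
  · apply measure_mono
    rintro t ⟨ht1, ht2⟩
    exact ⟨ht2.le, ht1⟩

theorem t_FIN : J_FIN := by
  intro ε0 ε1 h0 h1
  obtain ⟨δ, hδ0, hδ1, hδ2⟩ : ∃ δ : ℝ, 0 < δ ∧ δ ≤ ε0 / 8 ∧ δ ≤ ε0 * ε1 / 32 :=
    ⟨min (ε0 / 8) (ε0 * ε1 / 32), lt_min (by positivity) (by positivity), min_le_left _ _,
      min_le_right _ _⟩
  set K : ℝ := 2 / ε0 + (2 / δ ^ 2 + 1) + 4 / ε0 * (2 + 2 * (2 / δ ^ 2 + 1)) with hK
  have hK0 : 0 < K := by positivity
  obtain ⟨α, hα0, hα1, hα2, hα3⟩ : ∃ α : ℝ, 0 < α ∧ α ≤ 1 ∧ α ≤ ε0 / 8 ∧ K * α ≤ ε1 / 2 := by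
    refine ⟨min (min 1 (ε0 / 8)) (ε1 / 2 / K), by positivity, ?_, ?_, ?_⟩
    · exact (min_le_left _ _).trans (min_le_left _ _)
    · exact (min_le_left _ _).trans (min_le_right _ _)
    · have : min (min 1 (ε0 / 8)) (ε1 / 2 / K) ≤ ε1 / 2 / K := min_le_right _ _
      calc K * min (min 1 (ε0 / 8)) (ε1 / 2 / K) ≤ K * (ε1 / 2 / K) :=
            mul_le_mul_of_nonneg_left this hK0.le
        _ = ε1 / 2 := by field_simp
  refine ⟨α, hα0, ?_⟩
  intro T e w1 w2 w3 M N W B hT he0 he1 hB hM hN hW hWN hMN hw1 hw2 hw21 hBv hNB hw3 hwe hw10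
  have hT3 : T ≤ 3 * T := by linarith
  set I : Set ℝ := Set.Icc T (3 * T) with hI
  have hIm : MeasurableSet I := measurableSet_Icc
  have hIf : volume I ≠ ⊤ := by simp [hI]
  have hIv : (volume I).toReal = 2 * T := by
    rw [hI, Real.volume_Icc, ENNReal.toReal_ofReal (by linarith)]; ring
  have hintI : ∀ f : ℝ → ℝ, Continuous f → IntegrableOn f I := fun f hf =>
    hf.continuousOn.integrableOn_compact isCompact_Icc
  have hii : ∀ f : ℝ → ℝ, ∫ t in T..(3 * T), f t = ∫ t in I, f t := by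
    intro f
    rw [intervalIntegral.integral_of_le hT3, integral_Icc_eq_integral_Ioc]
  have hsubf : ∀ S : Set ℝ, S ⊆ I → volume S ≠ ⊤ := fun S hS =>
    ne_top_of_le_ne_top hIf (measure_mono hS)
  -- S1
  set S1 : Set ℝ := {t : ℝ | t ∈ I ∧ ε0 / 2 < |M t - N t|} with hS1
  have hcMN : Continuous fun t => |M t - N t| := (hM.sub hN).abs
  have hvS1 : (volume S1).toReal ≤ 2 / ε0 * (α * T) := by
    have := mk_aux I hIm (fun t => |M t - N t|) (hintI _ hcMN) (fun t _ => abs_nonneg _)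
      hcMN.measurable (ε0 / 2) hIf
    rw [← hii] at this
    have h2 := this.trans hMN
    rw [← hS1] at h2
    calc (volume S1).toReal = 2 / ε0 * (ε0 / 2 * (volume S1).toReal) := by field_simp
      _ ≤ 2 / ε0 * (α * T) := mul_le_mul_of_nonneg_left h2 (by positivity)
  -- S2
  set S2 : Set ℝ := {t : ℝ | t ∈ I ∧ δ ^ 2 < (W t - w1) ^ 2} with hS2
  have hcW : Continuous fun t => (W t - w1) ^ 2 := (hW.sub continuous_const).pow 2
  have hvS2 : (volume S2).toReal ≤ 2 / δ ^ 2 * (α * T) := by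
    have h3 := mk_aux I hIm (fun t => (W t - w1) ^ 2) (hintI _ hcW) (fun t _ => sq_nonneg _)
      hcW.measurable (δ ^ 2) hIf
    rw [← hii] at h3
    have h4 : ∫ t in T..(3 * T), (W t - w1) ^ 2 =
        (∫ t in T..(3 * T), W t ^ 2) - 2 * w1 * (∫ t in T..(3 * T), W t) + 2 * T * w1 ^ 2 := by
      have e1 : (fun t => (W t - w1) ^ 2) = fun t => (W t ^ 2 - 2 * w1 * W t) + w1 ^ 2 := by
        funext t; ring
      rw [e1, intervalIntegral.integral_add, intervalIntegral.integral_sub,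
        intervalIntegral.integral_const_mul, intervalIntegral.integral_const, smul_eq_mul]
      · ring
      · exact (hW.pow 2).intervalIntegrable _ _
      · exact (hW.const_mul (2 * w1)).intervalIntegrable _ _
      · exact ((hW.pow 2).sub (hW.const_mul (2 * w1))).intervalIntegrable _ _
      · exact continuous_const.intervalIntegrable _ _
    have h5 : ∫ t in T..(3 * T), (W t - w1) ^ 2 ≤ 2 * (α * T) := by
      rw [h4]
      have h6 : 2 * w1 * (2 * T * w1) ≤ 2 * w1 * (∫ t in T..(3 * T), W t) :=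
        mul_le_mul_of_nonneg_left hw1 (by linarith)
      have h7 : 2 * T * w2 ≤ 2 * T * (w1 ^ 2 + α) :=
        mul_le_mul_of_nonneg_left hw21 (by linarith)
      nlinarith
    have h8 := h3.trans h5
    rw [← hS2] at h8
    calc (volume S2).toReal = 1 / δ ^ 2 * (δ ^ 2 * (volume S2).toReal) := by field_simp
      _ ≤ 1 / δ ^ 2 * (2 * (α * T)) := mul_le_mul_of_nonneg_left h8 (by positivity)
      _ = 2 / δ ^ 2 * (α * T) := by ring
  have hS2m : MeasurableSet S2 := by
    have : S2 = I ∩ {t : ℝ | δ ^ 2 < (W t - w1) ^ 2} := rfl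
    rw [this]
    exact hIm.inter (measurableSet_lt measurable_const hcW.measurable)
  -- the good set
  set G : Set ℝ := (I \ B) \ S2 with hG
  have hGm : MeasurableSet G := (hIm.diff hB).diff hS2m
  have hGI : G ⊆ I := fun t ht => ht.1.1
  have hGW : ∀ t ∈ G, w1 - δ ≤ N t := by
    intro t ht
    have h2 : ¬ δ ^ 2 < (W t - w1) ^ 2 := fun h => ht.2 ⟨ht.1.1, h⟩
    have h3 := abs_le_of_sq_le_sq' (not_lt.1 h2) hδ0.le
    have := (hWN t).2
    linarith [h3.1]
  set S4 : Set ℝ := {t : ℝ | t ∈ G ∧ ε0 / 4 < N t - (w1 - δ)} with hS4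
  have hNint : IntegrableOn N G := (hintI N hN).mono_set hGI
  have hconstG : IntegrableOn (fun _ : ℝ => w1 - δ) G := by
    apply integrableOn_const (hsubf G hGI)
  have hGN : ∫ t in G, (N t - (w1 - δ)) ≤
      2 * T * w3 - (w1 - δ) * (volume G).toReal := by
    rw [integral_sub hNint hconstG, setIntegral_const, smul_eq_mul, measureReal_def]
    have h2 : ∫ t in G, N t ≤ ∫ t in I \ B, N t := by
      apply setIntegral_mono_set ((hintI N hN).mono_set Set.sdiff_subset)
      · exact Eventually.of_forall fun t => (hWN t).1.trans (hWN t).2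
      · exact (Set.sdiff_subset : G ⊆ I \ B).eventuallyLE
    have h3 := h2.trans hNB
    nlinarith
  have hvG : 2 * T ≤ (volume G).toReal + ((volume S2).toReal + (volume (B ∩ I)).toReal) := by
    have hsub : I ⊆ G ∪ (S2 ∪ (B ∩ I)) := by
      intro t ht
      by_cases h2 : t ∈ B
      · exact Or.inr (Or.inr ⟨h2, ht⟩)
      · by_cases h3 : t ∈ S2
        · exact Or.inr (Or.inl h3)
        · exact Or.inl ⟨⟨ht, h2⟩, h3⟩
    have e1 : volume I ≤ volume G + (volume S2 + volume (B ∩ I)) :=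
      (measure_mono hsub).trans ((measure_union_le _ _).trans
        (add_le_add le_rfl (measure_union_le _ _)))
    have f1 : volume G ≠ ⊤ := hsubf G hGI
    have f2 : volume S2 ≠ ⊤ := hsubf S2 fun t ht => ht.1
    have f3 : volume (B ∩ I) ≠ ⊤ := hsubf _ Set.inter_subset_right
    have e2 := ENNReal.toReal_mono (ENNReal.add_ne_top.2 ⟨f1, ENNReal.add_ne_top.2 ⟨f2, f3⟩⟩) e1
    rw [ENNReal.toReal_add f1 (ENNReal.add_ne_top.2 ⟨f2, f3⟩), ENNReal.toReal_add f2 f3, hIv] at e2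
    exact e2
  have hvG2 : (volume G).toReal ≤ 2 * T := by
    rw [← hIv]; exact ENNReal.toReal_mono hIf (measure_mono hGI)
  set v : ℝ := (volume S2).toReal + (volume (B ∩ I)).toReal with hv
  have hv0 : 0 ≤ v := by positivity
  have hvle : v ≤ (2 / δ ^ 2 + 1) * (α * T) := by
    rw [hv, add_mul, one_mul]; exact add_le_add hvS2 hBv
  have hw12 : w1 ≤ 2 := by
    have := (abs_le.1 hwe).2; linarith
  have hGN2 : ∫ t in G, (N t - (w1 - δ)) ≤ 2 * T * (α + δ) + 2 * v := by
    refine hGN.trans ?_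
    have h3' : 2 * T * w3 ≤ 2 * T * (w1 + α) := mul_le_mul_of_nonneg_left hw3 (by linarith)
    rcases le_or_gt 0 (w1 - δ) with h5 | h5
    · have : (w1 - δ) * (2 * T) ≤ (w1 - δ) * ((volume G).toReal + v) :=
        mul_le_mul_of_nonneg_left hvG h5
      have h6 : (w1 - δ) * v ≤ 2 * v := mul_le_mul_of_nonneg_right (by linarith) hv0
      nlinarith
    · have : (w1 - δ) * (2 * T) ≤ (w1 - δ) * (volume G).toReal :=
        mul_le_mul_of_nonpos_left hvG2 h5.le
      nlinarith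
  have hvS4 : (volume S4).toReal ≤ 4 / ε0 * (2 * T * (α + δ) + 2 * v) := by
    have h3 := mk_aux G hGm (fun t => N t - (w1 - δ)) (hNint.sub hconstG)
      (fun t ht => by have := hGW t ht; linarith) (hN.sub continuous_const).measurable (ε0 / 4)
      (hsubf G hGI)
    have h8 := h3.trans hGN2
    rw [← hS4] at h8
    calc (volume S4).toReal = 4 / ε0 * (ε0 / 4 * (volume S4).toReal) := by field_simp
      _ ≤ _ := mul_le_mul_of_nonneg_left h8 (by positivity)
  -- final inclusion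
  have hsub : {t : ℝ | t ∈ I ∧ ε0 < |M t - e|} ⊆ S1 ∪ (S2 ∪ (B ∩ I) ∪ S4) := by
    rintro t ⟨htI, hte⟩
    by_contra hcon
    simp only [Set.mem_union, not_or] at hcon
    obtain ⟨n1, ⟨n2, n3⟩, n4⟩ := hcon
    have hnB : t ∉ B := fun h => n3 ⟨h, htI⟩
    have htG : t ∈ G := ⟨⟨htI, hnB⟩, n2⟩
    have a1 : |M t - N t| ≤ ε0 / 2 := not_lt.1 fun h => n1 ⟨htI, h⟩
    have a2 : N t - (w1 - δ) ≤ ε0 / 4 := not_lt.1 fun h => n4 ⟨htG, h⟩
    have a3 := hGW t htG
    have b1 := abs_le.1 a1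
    have b2 := abs_le.1 hwe
    have : |M t - e| ≤ ε0 := by
      rw [abs_le]; constructor <;> linarith [b1.1, b1.2, b2.1, b2.2]
    linarith
  have hfin : (volume {t : ℝ | t ∈ I ∧ ε0 < |M t - e|}).toReal ≤
      (volume S1).toReal + (v + (volume S4).toReal) := by
    have e1 : volume {t : ℝ | t ∈ I ∧ ε0 < |M t - e|} ≤
        volume S1 + ((volume S2 + volume (B ∩ I)) + volume S4) :=
      (measure_mono hsub).trans ((measure_union_le _ _).trans
        (add_le_add le_rfl ((measure_union_le _ _).trans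
          (add_le_add (measure_union_le _ _) le_rfl))))
    have f1 : volume S1 ≠ ⊤ := hsubf S1 fun t ht => ht.1
    have f2 : volume S2 ≠ ⊤ := hsubf S2 fun t ht => ht.1
    have f3 : volume (B ∩ I) ≠ ⊤ := hsubf _ Set.inter_subset_right
    have f4 : volume S4 ≠ ⊤ := hsubf S4 fun t ht => hGI ht.1
    have g1 := ENNReal.add_ne_top.2 ⟨f2, f3⟩
    have g2 := ENNReal.add_ne_top.2 ⟨g1, f4⟩
    have e2 := ENNReal.toReal_mono (ENNReal.add_ne_top.2 ⟨f1, g2⟩) e1
    rwa [ENNReal.toReal_add f1 g2, ENNReal.toReal_add g1 f4, ENNReal.toReal_add f2 f3] at e2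
  refine hfin.trans ?_
  have c1 : 4 / ε0 * (2 * T * (α + δ) + 2 * v) ≤
      4 / ε0 * (2 * T * (α + δ) + 2 * ((2 / δ ^ 2 + 1) * (α * T))) := by
    apply mul_le_mul_of_nonneg_left _ (by positivity)
    linarith
  have c2 : 4 / ε0 * (2 * T * δ) ≤ ε1 / 4 * T := by
    have : 4 / ε0 * (2 * T * δ) ≤ 4 / ε0 * (2 * T * (ε0 * ε1 / 32)) := by
      apply mul_le_mul_of_nonneg_left _ (by positivity)
      exact mul_le_mul_of_nonneg_left hδ2 (by linarith)
    refine this.trans (le_of_eq ?_)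
    field_simp; ring
  have c3 : K * α * T ≤ ε1 / 2 * T := mul_le_mul_of_nonneg_right hα3 hT.le
  have c4 : 2 / ε0 * (α * T) + ((2 / δ ^ 2 + 1) * (α * T) +
      4 / ε0 * (2 * T * (α + δ) + 2 * ((2 / δ ^ 2 + 1) * (α * T)))) =
      K * α * T + 4 / ε0 * (2 * T * δ) := by
    rw [hK]; ring
  have c5 : 0 < ε1 * T := by positivity
  nlinarith [hvS1, hvle, hvS4]

end Pool.Agent.Q251.EW
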