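import Pool.Agent.Q80.EW.Stm5
import Pool.Agent.Q251.EW.C2D
import Pool.Agent.Q251.EW.FIN

set_option autoImplicit false

namespace Pool.Agent.Q251.EW

open Pool.Agent.Q80.EW Filter Topology MeasureTheory

/-- the main polynomial with its reflection -/
noncomputable def BB (η T u : ℝ) : ℂ := Dp η T u + chi u * (starRingEnd ℂ) (Dp η T u)

theorem BB_cont (hE : J_EXP) (η T : ℝ) : Continuous (BB η T) :=
  (Dp_cont hE η T).add (chi_cont.mul (Complex.continuous_conj.comp (Dp_cont hE η T)))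

/-- the comparison in mean -/
theorem g_int (hA1 : J_AP1) (hH : J_HLW) (hD : J_DD) (hE : J_EXP) : ∃ C : ℝ, 0 < C ∧ ∀ η : ℝ, 0 < η → η ≤ 1 / 100 →
    ∀ᶠ T : ℝ in atTop, ∫ u in T..(4 * T), |‖ze u‖ ^ 2 - ‖BB η T u‖ ^ 2| ≤ C * Real.sqrt η * T * Real.log T := by
  obtain ⟨C1, hC1, hA1⟩ := hA1
  obtain ⟨C3, hH⟩ := hH
  refine ⟨C1 + 16, by positivity, ?_⟩
  intro η hη hη1
  have hs0 : 0 < Real.sqrt η := Real.sqrt_pos.2 hη
  filter_upwards [hA1 η hη hη1, hD η hη hη1, eventually_ge_atTop (3 : ℝ),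
    Real.tendsto_log_atTop.eventually_ge_atTop (3 * |C3| + 1)] with T hA1 hD hT hL3
  set s : ℝ := Real.sqrt η with hs
  have hs2 : s ^ 2 = η := Real.sq_sqrt hη.le
  have hs1 : s ≤ 1 / 2 := by
    rw [hs, Real.sqrt_le_left (by norm_num)]; nlinarith
  have hL0 : 0 < Real.log T := by linarith [abs_nonneg C3]
  obtain ⟨d1, d2, d3⟩ := hD
  have a1 := hA1 (dd η T) d1 d2 d3
  have hBc : Continuous (BB η T) := BB_cont hE η T
  have a1' : ∫ t in T..(4 * T), ‖ze t - BB η T t‖ ^ 2 ≤ C1 * η * T * Real.log T := by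
    refine le_trans (le_of_eq ?_) a1
    congr 1
    funext t
    unfold BB Dp
    rw [sub_sub]
  have hgc : Continuous fun u => |‖ze u‖ ^ 2 - ‖BB η T u‖ ^ 2| := ((ze_cont.norm.pow 2).sub (hBc.norm.pow 2)).abs
  have hzc : Continuous fun u => ‖ze u‖ ^ 2 := ze_cont.norm.pow 2
  have hz4 : ∫ u in T..(4 * T), ‖ze u‖ ^ 2 ≤ 4 * T * Real.log T := by
    have q0 := hH T 0 (by linarith) le_rfl (by linarith)
    have q1 := hH T T (by linarith) (by linarith) (by linarith)
    have q2 := hH T (2 * T) (by linarith) (by linarith) (by linarith)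
    have r0 : ∫ t in T..(2 * T), ‖ze (t + 0)‖ ^ 2 = ∫ u in T..(2 * T), ‖ze u‖ ^ 2 := by simp
    have r1 : ∫ t in T..(2 * T), ‖ze (t + T)‖ ^ 2 = ∫ u in (2 * T)..(3 * T), ‖ze u‖ ^ 2 := by
      rw [intervalIntegral.integral_comp_add_right (fun u => ‖ze u‖ ^ 2) T]
      congr 1 <;> ring
    have r2 : ∫ t in T..(2 * T), ‖ze (t + 2 * T)‖ ^ 2 = ∫ u in (3 * T)..(4 * T), ‖ze u‖ ^ 2 := by
      rw [intervalIntegral.integral_comp_add_right (fun u => ‖ze u‖ ^ 2) (2 * T)]
      congr 1 <;> ring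
    have r3 : ∫ u in T..(4 * T), ‖ze u‖ ^ 2 = (∫ u in T..(2 * T), ‖ze u‖ ^ 2) +
        (∫ u in (2 * T)..(3 * T), ‖ze u‖ ^ 2) + ∫ u in (3 * T)..(4 * T), ‖ze u‖ ^ 2 := by
      rw [intervalIntegral.integral_add_adjacent_intervals (hzc.intervalIntegrable _ _) (hzc.intervalIntegrable _ _),
        intervalIntegral.integral_add_adjacent_intervals (hzc.intervalIntegrable _ _) (hzc.intervalIntegrable _ _)]
    rw [r0] at q0
    rw [r1] at q1
    rw [r2] at q2
    rw [r3]
    have t0 := (abs_le.1 q0).2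
    have t1 := (abs_le.1 q1).2
    have t2 := (abs_le.1 q2).2
    have t3 : C3 * T ≤ |C3| * T := mul_le_mul_of_nonneg_right (le_abs_self _) (by linarith)
    have t4 : (3 * |C3| + 1) * T ≤ Real.log T * T := mul_le_mul_of_nonneg_right hL3 (by linarith)
    nlinarith
  have hk1 : Continuous fun u => 1 / s * ‖ze u - BB η T u‖ ^ 2 :=
    continuous_const.mul ((ze_cont.sub hBc).norm.pow 2)
  have hk2 : Continuous fun u => 4 * s * ‖ze u‖ ^ 2 := continuous_const.mul hzc
  have h1 : ∫ u in T..(4 * T), |‖ze u‖ ^ 2 - ‖BB η T u‖ ^ 2| ≤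
      ∫ u in T..(4 * T), (1 / s * ‖ze u - BB η T u‖ ^ 2 + 4 * s * ‖ze u‖ ^ 2) := by
    apply intervalIntegral.integral_mono_on (by linarith) (hgc.intervalIntegrable _ _)
    · exact (hk1.add hk2).intervalIntegrable _ _
    · intro u _; exact g_le (ze u) (BB η T u) s hs0 hs1
  rw [intervalIntegral.integral_add (hk1.intervalIntegrable _ _) (hk2.intervalIntegrable _ _),
    intervalIntegral.integral_const_mul, intervalIntegral.integral_const_mul] at h1
  have h2 : 1 / s * ∫ u in T..(4 * T), ‖ze u - BB η T u‖ ^ 2 ≤ 1 / s * (C1 * η * T * Real.log T) :=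
    mul_le_mul_of_nonneg_left a1' (by positivity)
  have h3 : 1 / s * (C1 * η * T * Real.log T) = C1 * s * T * Real.log T := by
    rw [← hs2]; field_simp
  have h4 : 4 * s * ∫ u in T..(4 * T), ‖ze u‖ ^ 2 ≤ 4 * s * (4 * T * Real.log T) :=
    mul_le_mul_of_nonneg_left hz4 (by positivity)
  nlinarith

theorem t_DIFD (hA1 : J_AP1) (hH : J_HLW) (hD : J_DD) (hE : J_EXP) (hX : J_XD) : J_DIFD := by
  obtain ⟨C, hC, hg⟩ := g_int hA1 hH hD hE
  refine ⟨C, hC, ?_⟩
  intro α η y δ hα hη hη1 hδ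
  filter_upwards [hg η hη hη1, hX α η y δ hα hη hη1 hδ, ev_NyV α y (1 / 10) hα.1 (by norm_num),
    eventually_gt_atTop (3 : ℝ)] with T hg hX hNy hT
  obtain ⟨hN1, hNα⟩ := hNy
  have hα0 := hα.1
  have hT0 : 0 < T := by linarith
  have hL : 0 < Real.log T := Real.log_pos (by linarith)
  have hTt : T ^ (1 / 10 : ℝ) ≤ T := by
    calc T ^ (1 / 10 : ℝ) ≤ T ^ (1 : ℝ) := Real.rpow_le_rpow_of_exponent_le (by linarith) (by norm_num)
      _ = T := Real.rpow_one T
  set N : ℕ := Ny y T with hN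
  have hN0 : (0 : ℝ) < N := by exact_mod_cast hN1
  have hBc : Continuous (BB η T) := BB_cont hE η T
  set g : ℝ → ℝ := fun u => |‖ze u‖ ^ 2 - ‖BB η T u‖ ^ 2| with hgd
  have hgc : Continuous g := ((ze_cont.norm.pow 2).sub (hBc.norm.pow 2)).abs
  set G : ℝ → ℝ := fun t => 1 / (N * Real.log T) * ∑ n ∈ Finset.range N, g (t + n * α) with hG
  have hGc : Continuous G := continuous_const.mul (continuous_finsetSum _ fun n _ =>
    hgc.comp (continuous_id.add continuous_const))
  have hG0 : ∀ t, 0 ≤ G t := fun t => mul_nonneg (by positivity) (Finset.sum_nonneg fun n _ => abs_nonneg _)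
  -- pointwise
  have hpt : ∀ t, |DM α N T t - NX η α N T t| ≤ G t + |2 / (N * Real.log T) *
      ∑ n ∈ Finset.range N, ((starRingEnd ℂ) (chi (t + n * α)) * Dp η T (t + n * α) ^ 2).re| := by
    intro t
    have e1 : DM α N T t - NX η α N T t =
        1 / (N * Real.log T) * ∑ n ∈ Finset.range N, (‖ze (t + n * α)‖ ^ 2 - ‖BB η T (t + n * α)‖ ^ 2) +
        2 / (N * Real.log T) *
          ∑ n ∈ Finset.range N, ((starRingEnd ℂ) (chi (t + n * α)) * Dp η T (t + n * α) ^ 2).re := by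
      unfold DM NX
      have e2 : ∀ n ∈ Finset.range N, ‖ze (t + n * α)‖ ^ 2 - ‖BB η T (t + n * α)‖ ^ 2 =
          ‖ze (t + n * α)‖ ^ 2 - (2 * ‖Dp η T (t + n * α)‖ ^ 2 +
            2 * ((starRingEnd ℂ) (chi (t + n * α)) * Dp η T (t + n * α) ^ 2).re) := by
        intro n _
        unfold BB
        rw [sq_id _ _ (chi_norm _)]
      rw [Finset.sum_congr rfl e2, Finset.sum_sub_distrib, Finset.sum_add_distrib, ← Finset.mul_sum,
        ← Finset.mul_sum]
      ring
    rw [e1]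
    refine (abs_add_le _ _).trans (add_le_add ?_ le_rfl)
    rw [abs_mul, abs_of_nonneg (by positivity : 0 ≤ 1 / (N * Real.log T))]
    exact mul_le_mul_of_nonneg_left (Finset.abs_sum_le_sum_abs _ _) (by positivity)
  -- Markov
  have hIcc : MeasurableSet (Set.Icc T (3 * T)) := measurableSet_Icc
  have hGi : ∫ t in T..(3 * T), G t ≤ C * Real.sqrt η * T := by
    have h1 : ∫ t in T..(3 * T), G t = 1 / (N * Real.log T) * ∑ n ∈ Finset.range N,
        ∫ t in (T + n * α)..(3 * T + n * α), g t := by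
      rw [hG, intervalIntegral.integral_const_mul, intervalIntegral.integral_finsetSum]
      · congr 1
        refine Finset.sum_congr rfl fun n _ => ?_
        rw [intervalIntegral.integral_comp_add_right (fun u => g u) (n * α)]
      · intro n _
        exact (hgc.comp (continuous_id.add continuous_const)).intervalIntegrable _ _
    have h2 : ∀ n ∈ Finset.range N, ∫ t in (T + n * α)..(3 * T + n * α), g t ≤ ∫ t in T..(4 * T), g t := by
      intro n hn
      have hnN : (n : ℝ) * α ≤ N * α :=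
        mul_le_mul_of_nonneg_right (by exact_mod_cast (Finset.mem_range.1 hn).le) hα0.le
      have hn0 : 0 ≤ (n : ℝ) * α := by positivity
      have i : ∀ a b, IntervalIntegrable g volume a b := fun a b => hgc.intervalIntegrable a b
      have e1 := intervalIntegral.integral_add_adjacent_intervals (i T (T + n * α)) (i (T + n * α) (4 * T))
      have e2 := intervalIntegral.integral_add_adjacent_intervals (i (T + n * α) (3 * T + n * α))
        (i (3 * T + n * α) (4 * T))
      have e3 : 0 ≤ ∫ x in T..(T + n * α), g x :=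
        intervalIntegral.integral_nonneg (by linarith) fun x _ => abs_nonneg _
      have e4 : 0 ≤ ∫ x in (3 * T + n * α)..(4 * T), g x :=
        intervalIntegral.integral_nonneg (by linarith) fun x _ => abs_nonneg _
      linarith
    have h3 := Finset.sum_le_sum h2
    rw [Finset.sum_const, Finset.card_range, nsmul_eq_mul] at h3
    rw [h1]
    calc 1 / (N * Real.log T) * ∑ n ∈ Finset.range N, ∫ t in (T + n * α)..(3 * T + n * α), g t ≤
        1 / (N * Real.log T) * (N * (C * Real.sqrt η * T * Real.log T)) := by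
          apply mul_le_mul_of_nonneg_left _ (by positivity)
          exact h3.trans (mul_le_mul_of_nonneg_left hg hN0.le)
      _ = C * Real.sqrt η * T := by field_simp
  have hmk := mk_aux (Set.Icc T (3 * T)) hIcc G (hGc.continuousOn.integrableOn_compact isCompact_Icc)
    (fun t _ => hG0 t) hGc.measurable δ (by simp)
  rw [intervalIntegral.integral_of_le (by linarith), ← integral_Icc_eq_integral_Ioc] at hGi
  have hv1 : (volume {t : ℝ | t ∈ Set.Icc T (3 * T) ∧ δ < G t}).toReal ≤ C * Real.sqrt η / δ * T := by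
    have h1 := hmk.trans hGi
    calc (volume {t : ℝ | t ∈ Set.Icc T (3 * T) ∧ δ < G t}).toReal =
        1 / δ * (δ * (volume {t : ℝ | t ∈ Set.Icc T (3 * T) ∧ δ < G t}).toReal) := by field_simp
      _ ≤ 1 / δ * (C * Real.sqrt η * T) := mul_le_mul_of_nonneg_left h1 (by positivity)
      _ = _ := by ring
  set S2 : Set ℝ := {t : ℝ | t ∈ Set.Icc T (3 * T) ∧ δ < |2 / (N * Real.log T) *
    ∑ n ∈ Finset.range N, ((starRingEnd ℂ) (chi (t + n * α)) * Dp η T (t + n * α) ^ 2).re|} with hS2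
  have hsub : {t : ℝ | t ∈ Set.Icc T (3 * T) ∧ 2 * δ < |DM α N T t - NX η α N T t|} ⊆
      {t : ℝ | t ∈ Set.Icc T (3 * T) ∧ δ < G t} ∪ S2 := by
    rintro t ⟨ht, ht2⟩
    have h1 := hpt t
    by_contra hcon
    rw [Set.mem_union, not_or] at hcon
    have a1 : G t ≤ δ := not_lt.1 fun h => hcon.1 ⟨ht, h⟩
    have a2 := not_lt.1 fun h => hcon.2 ⟨ht, h⟩
    linarith
  have fI : volume (Set.Icc T (3 * T)) ≠ ⊤ := by simp
  have f1 : volume {t : ℝ | t ∈ Set.Icc T (3 * T) ∧ δ < G t} ≠ ⊤ :=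
    ne_top_of_le_ne_top fI (measure_mono fun t ht => ht.1)
  have f2 : volume S2 ≠ ⊤ := ne_top_of_le_ne_top fI (measure_mono fun t ht => ht.1)
  have h1 := ENNReal.toReal_mono (ENNReal.add_ne_top.2 ⟨f1, f2⟩) ((measure_mono hsub).trans (measure_union_le _ _))
  rw [ENNReal.toReal_add f1 f2] at h1
  rw [add_mul]
  exact h1.trans (add_le_add hv1 hX)

end Pool.Agent.Q251.EW
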