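import Pool.Agent.Q80.EW.Stm5
import Pool.Agent.Q16.EW.P

set_option autoImplicit false

/-!
# Project EWD, jobs G2w and P2w (adapted from Pool.Agent.Q16.EW.G and P)
-/

namespace Pool.Agent.Q251.EW

open Filter Topology MeasureTheory Finset
open Pool.Agent.Q80.EW Pool.Agent.Q16.EW

theorem lW_ev {κ K : ℝ} {p : ℝ × ℝ → Prop} : (∀ᶠ x in lW κ K, p x) ↔
    ∀ᶠ T : ℝ in atTop, ∀ h : ℝ, κ ≤ h → h ≤ Real.exp (K * La T) → p (T, h) := by
  unfold lW
  rw [Filter.eventually_inf_principal, Filter.eventually_comap]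
  constructor
  · intro h
    filter_upwards [h] with T hT h h1 h2
    exact hT (T, h) rfl ⟨h1, h2⟩
  · intro h
    filter_upwards [h] with T hT x hx hx2
    obtain ⟨a, b⟩ := x
    simp only at hx
    subst hx
    exact hT b hx2.1 hx2.2

theorem lW_of {κ K : ℝ} {p : ℝ → Prop} (h : ∀ᶠ T : ℝ in atTop, p T) : ∀ᶠ x in lW κ K, p x.1 := by
  rw [lW_ev]
  filter_upwards [h] with T hT h _ _
  exact hT

instance (κ K : ℝ) : (lW κ K).IsCountablyGenerated := by
  unfold lW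
  infer_instance

/-- P2w -/
theorem p2w (hFF : J_FF) (hG2 : J_G2w) (hCL : J_CL) (hLV2 : J_LV2) (hM2 : J_M2w) : J_P2w := by
  intro η m b κ K ε hη hη1 hm hκ hε
  obtain ⟨-, -, l3, l4, l5⟩ := hLV2 m b hm
  have hff := hFF η hη hη1
  have hN := ev_Nt hη1
  let N : ℝ × ℝ → ℝ := fun x => 2 * x.1 * nm (dd η x.1 * sh x.2 (dd η x.1))
  have hev0 : ∀ᶠ T : ℝ in atTop, ∀ h : ℝ, 0 < T ∧ FS ⌊T ^ (1 / 2 - η)⌋₊ (dd η T) ∧ 0 < N (T, h) := by
    filter_upwards [hff, hN, eventually_gt_atTop (0 : ℝ)] with T h1 h2 h3 h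
    refine ⟨h3, h1.1, ?_⟩
    have h4 : (dd η T * sh h (dd η T)) 1 = 1 := by rw [mul_one', sh_one', dd_one h2, one_mul]
    have := nm_ge_one (FS_mul h1.1 (FS_sh h h1.1)) h4
    show 0 < 2 * T * nm (dd η T * sh h (dd η T))
    positivity
  have hev : ∀ᶠ x in lW κ K, 0 < x.1 ∧ FS ⌊x.1 ^ (1 / 2 - η)⌋₊ (dd η x.1) ∧ 0 < N x := by
    rw [lW_ev]
    filter_upwards [hev0] with T hT h _ _
    exact hT h
  have hNE : ∀ T h, MeasurableSet {t : ℝ | NE T m t ∧ NE T m (t + h)} := fun T h => (Gs_closed T m h).measurableSet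
  have hco : ∀ (T h : ℝ), FS ⌊T ^ (1 / 2 - η)⌋₊ (dd η T) →
      Continuous fun t => ‖Dp η T t‖ ^ 2 * ‖Dp η T (t + h)‖ ^ 2 := fun T h hh =>
    ((dp_cont hh).norm.pow 2).mul (((dp_cont hh).comp (continuous_id.add continuous_const)).norm.pow 2)
  have key := hCL (ℝ × ℝ) ℝ (Fin m ⊕ Fin m) (lW κ K) (fun x => Ms x.1 (3 * x.1) (N x)
      {t | NE x.1 m t ∧ NE x.1 m (t + x.2)} (fun t => ‖Dp η x.1 t‖ ^ 2 * ‖Dp η x.1 (t + x.2)‖ ^ 2))
    (fun x j t => Sum.elim (fun i => De x.1 m i t) (fun i => De x.1 m i (t + x.2)) j) m hm ?_ ?_ ?_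
    {x : Fin m ⊕ Fin m → ℝ |
    (∀ k : Fin m, ∑ i ∈ Finset.Iic k, x (Sum.inl i) ≤ b) ∧
    ∀ k : Fin m, ∑ i ∈ Finset.Iic k, x (Sum.inr i) ≤ b} l3 l4
  · rw [l5] at key
    set G := gam m b ^ 2 with hG
    have hG0 : 0 ≤ G := by positivity
    have h1 : ∀ᶠ x in lW κ K, _ := key.eventually (ge_mem_nhds (show G < G + ε / 2 by linarith))
    have h2 := h1.and hev
    rw [lW_ev] at h2
    set ε' : ℝ := (ε / 2) / (G + ε / 2) with hε'
    have hε'0 : 0 < ε' := by positivity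
    have h3 := hM2 η κ K ε' hη hη1 hκ hε'0
    filter_upwards [h2, h3] with T hT hT' h hh1 hh2
    obtain ⟨h4, h5, h6, h7⟩ := hT h hh1 hh2
    have h8 := hT' h hh1 hh2
    have hA : MeasurableSet {t : ℝ | WK T m b t ∧ WK T m b (t + h)} := by
      have a1 := WK_set T m b 0
      simp only [add_zero] at a1
      exact a1.inter (WK_set T m b h)
    have h4' : (Ms T (3 * T) (N (T, h)) {t | NE T m t ∧ NE T m (t + h)}
        (fun t => ‖Dp η T t‖ ^ 2 * ‖Dp η T (t + h)‖ ^ 2)).real {t : ℝ | WK T m b t ∧ WK T m b (t + h)} ≤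
        G + ε / 2 := h4
    rw [Ms_real (by linarith) h7 (hNE T h) (hco T h h6) (fun t => by positivity) hA, div_le_iff₀ h7] at h4'
    have e2 : {t : ℝ | NE T m t ∧ NE T m (t + h)} ∩ {t : ℝ | WK T m b t ∧ WK T m b (t + h)} =
        {t | (NE T m t ∧ WK T m b t) ∧ (NE T m (t + h) ∧ WK T m b (t + h))} := by
      ext t
      simp only [Set.mem_inter_iff, Set.mem_ofPred_eq]
      tauto
    rw [e2] at h4'
    refine h4'.trans ?_
    show (G + ε / 2) * (2 * T * nm (dd η T * sh h (dd η T))) ≤ _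
    have h9 : (G + ε / 2) * (2 * T * nm (dd η T * sh h (dd η T))) ≤
        (G + ε / 2) * (2 * T * ((1 + ε') * ((1 / 2 - 2 * η) * Real.log T) ^ 2 * Corr (Yt T) h)) := by gcongr
    refine h9.trans (le_of_eq ?_)
    have h10 : (G + ε / 2) * (1 + ε') = G + ε := by
      rw [hε']
      field_simp
      ring
    linear_combination (2 * T * ((1 / 2 - 2 * η) * Real.log T) ^ 2 * Corr (Yt T) h) * h10
  · filter_upwards [hev] with x hx
    exact Ms_fin (hNE x.1 x.2) (hco _ _ hx.2.1)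
  · refine Eventually.of_forall fun x j => ?_
    rcases j with i | i
    · exact (De_cont x.1 m i).measurable
    · exact ((De_cont x.1 m i).comp (continuous_id.add continuous_const)).measurable
  · intro u
    have hs : ∀ (x : ℝ × ℝ) (t : ℝ), ∑ j, u j * Sum.elim (fun i => De x.1 m i t) (fun i => De x.1 m i (t + x.2)) j =
        ∑ i, u (Sum.inl i) * De x.1 m i t + ∑ i, u (Sum.inr i) * De x.1 m i (t + x.2) := by
      intro x t
      rw [Fintype.sum_sum_type]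
      rfl
    constructor
    · filter_upwards [hev] with x hx
      refine Ms_integrable (hNE x.1 x.2) (hco _ _ hx.2.1) ?_
      simp_rw [hs]
      refine Real.continuous_exp.comp (Continuous.add ?_ ?_)
      · exact continuous_finsetSum _ fun i _ => continuous_const.mul (De_cont x.1 m i)
      · exact continuous_finsetSum _ fun i _ => continuous_const.mul
          ((De_cont x.1 m i).comp (continuous_id.add continuous_const))
    · have h1 := hG2 η m (fun i => u (Sum.inl i)) (fun i => u (Sum.inr i)) κ K hη hη1 hm hκ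
      rw [Fintype.sum_sum_type]
      refine Tendsto.congr' ?_ h1
      filter_upwards [hev] with x hx
      rw [Ms_int (by linarith [hx.1]) hx.2.2 (hNE x.1 x.2) (hco _ _ hx.2.1) (fun t => by positivity)]
      simp_rw [hs]
      rfl


/-- G2 -/
theorem g2w (hFF : J_FF) (hEXC : J_EXC) (hTAIL : J_TAIL) (hEU : J_EU) (hET : J_ET) (hMERT : J_MERT) (hTWO : J_TWOw) :
    J_G2w := by
  intro η m u u' κ K hη hη1 hm hκ
  obtain ⟨CE, -, hEU'⟩ := hEU
  set c := Real.exp ((∑ i, u i ^ 2 + ∑ i, u' i ^ 2) / (4 * m)) with hc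
  have hc0 : 0 < c := Real.exp_pos _
  rw [Metric.tendsto_nhds]
  intro ε hε
  set δ : ℝ := min (1 / 8) (ε / (4 * (30 * (c + 1) + (m + 1)))) with hδ
  have hδ0 : 0 < δ := by positivity
  have hδ1 : δ ≤ 1 / 8 := min_le_left _ _
  have hδ2 : δ * (30 * (c + 1) + (m + 1)) ≤ ε / 4 := by
    have h1 : δ ≤ ε / (4 * (30 * (c + 1) + (m + 1))) := min_le_right _ _
    have h2 : 0 < 30 * (c + 1) + ((m : ℝ) + 1) := by positivity
    rw [le_div_iff₀ (by positivity)] at h1
    linarith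
  have h0 : 0 < min 1 (ε / 4) := by positivity
  have hev := (ev_fa hFF hEXC hTAIL hET hMERT hη hη1 hm u u' hδ0).and (hTWO m u u' κ K _ hm hκ h0)
  unfold lW
  rw [Filter.eventually_inf_principal]
  refine (hev.comap Prod.fst).mono ?_
  rintro ⟨T, h⟩ ⟨hT, htwo⟩ ⟨hh1, hh2⟩
  simp only at hT htwo hh1 hh2 ⊢
  have h1 := hT.fin (fun s0 s1 Z h v v' a b d e => (hEU' s0 s1 Z h v v' a b d e).2.1) hm hδ0.le hδ1 (s1 := 1)
    le_rfl h
  rw [FF_two] at h1
  have h2 := htwo h hh1 hh2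
  have e0 : (fun t => Set.indicator (Gs T m h) (Tg η T m u u' 1 h) t) =
      fun t => Set.indicator {t | NE T m t ∧ NE T m (t + h)}
      (fun t => ‖Dp η T t‖ ^ 2 * ‖Dp η T (t + h)‖ ^ 2 *
        Real.exp (∑ i, u i * De T m i t + ∑ i, u' i * De T m i (t + h))) t := by
    unfold Gs
    congr 1
    funext t
    unfold Tg
    simp
  rw [e0] at h1
  rw [Real.dist_eq]
  set R := nm (GG 1 1 (zc (Yt T)) h (wu T m u) (wu T m u')) / nm (GG 1 1 (zc (Yt T)) h 0 0) *
    Real.exp (-(vu T m u) - vu T m u')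
  set J := (∫ t in T..(3 * T), Set.indicator {t | NE T m t ∧ NE T m (t + h)}
      (fun t => ‖Dp η T t‖ ^ 2 * ‖Dp η T (t + h)‖ ^ 2 *
        Real.exp (∑ i, u i * De T m i t + ∑ i, u' i * De T m i (t + h))) t) / (2 * T * nm (dd η T * sh h (dd η T)))
  have h3 : |R - c| ≤ 1 := h2.trans (min_le_left _ _)
  have h4 : |R - c| ≤ ε / 4 := h2.trans (min_le_right _ _)
  have h5 : R ≤ c + 1 := by have := (abs_le.1 h3).2; linarith
  have h6 : |J - c| ≤ |J - R| + |R - c| := abs_sub_le _ _ _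
  have h7 : 30 * δ * R + ((m : ℝ) + 1) * δ ≤ δ * (30 * (c + 1) + (m + 1)) := by
    have := mul_le_mul_of_nonneg_left h5 hδ0.le
    linarith
  linarith

end Pool.Agent.Q251.EW
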