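import Pool.Agent.Q80.EW.Stm5
import Pool.Agent.Q16.EW.M2

set_option autoImplicit false

/-!
# Project EWD, job M2w (adapted from Pool.Agent.Q16.EW.M2)
-/

namespace Pool.Agent.Q251.EW

open Filter Topology MeasureTheory Finset
open Pool.Agent.Q80.EW Pool.Agent.Q16.EW

/-- `exp (K √Λ) Λ^k exp (- c √(log T) / Λ) → 0` -/
theorem La_exp_small_w (k : ℕ) (K c A : ℝ) (hc : 0 < c) :
    Tendsto (fun T : ℝ => A * (1 + Real.exp (K * La T)) * La T ^ k *
      Real.exp (-(c * Real.sqrt (Real.log T / La T ^ 2)))) atTop (𝓝 0) := by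
  have hsq : Tendsto (fun T => Real.sqrt (La T)) atTop atTop := Real.tendsto_sqrt_atTop.comp La_top
  have h1 : Tendsto (fun T : ℝ => 2 * |A| * (La T ^ k * Real.exp (-(La T)))) atTop (𝓝 0) := by
    have := ((Real.tendsto_pow_mul_exp_neg_atTop_nhds_zero k).comp La_top).const_mul (2 * |A|)
    rwa [mul_zero] at this
  have h3 : Tendsto (fun T : ℝ => 1 * La T ^ 4 / Real.log T) atTop (𝓝 0) := La_pow_small 4 1
  have h4 : ∀ᶠ T : ℝ in atTop, 1 * La T ^ 4 / Real.log T < (c / (|K| + 1)) ^ 2 :=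
    h3.eventually (gt_mem_nhds (by positivity))
  refine squeeze_zero_norm' ?_ h1
  filter_upwards [hsq.eventually_ge_atTop 1, Real.tendsto_log_atTop.eventually_gt_atTop 0,
    La_top.eventually_ge_atTop 1, h4] with T h5 h6 h7 h8
  rw [Real.norm_eq_abs, abs_mul, abs_mul, abs_mul, abs_of_pos (Real.exp_pos _),
    abs_of_pos (a := 1 + Real.exp (K * La T)) (by positivity),
    abs_of_nonneg (a := La T ^ k) (by positivity)]
  have h9 : (|K| + 1) * La T ≤ c * Real.sqrt (Real.log T / La T ^ 2) := by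
    have e1 : (|K| + 1) * La T = c * ((|K| + 1) / c * La T) := by field_simp
    rw [e1]
    apply mul_le_mul_of_nonneg_left _ hc.le
    apply Real.le_sqrt_of_sq_le
    rw [le_div_iff₀ (by positivity)]
    rw [div_lt_iff₀ h6] at h8
    have h10 : ((|K| + 1) / c) ^ 2 * (c / (|K| + 1)) ^ 2 = 1 := by
      have : |K| + 1 ≠ 0 := by positivity
      field_simp
    calc ((|K| + 1) / c * La T) ^ 2 * La T ^ 2 = ((|K| + 1) / c) ^ 2 * (1 * La T ^ 4) := by ring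
      _ ≤ ((|K| + 1) / c) ^ 2 * ((c / (|K| + 1)) ^ 2 * Real.log T) := by gcongr
      _ = Real.log T := by rw [← mul_assoc, h10, one_mul]
  have h11 : K * La T ≤ |K| * La T := by gcongr; exact le_abs_self K
  have h12 : 1 + Real.exp (K * La T) ≤ 2 * Real.exp (|K| * La T) := by
    have a1 := Real.exp_le_exp.2 h11
    have a2 : 1 ≤ Real.exp (|K| * La T) := Real.one_le_exp (by positivity)
    linarith
  have h13 : Real.exp (-(c * Real.sqrt (Real.log T / La T ^ 2))) ≤ Real.exp (-((|K| + 1) * La T)) :=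
    Real.exp_le_exp.2 (by linarith)
  calc |A| * (1 + Real.exp (K * La T)) * La T ^ k * Real.exp (-(c * Real.sqrt (Real.log T / La T ^ 2)))
      ≤ |A| * (2 * Real.exp (|K| * La T)) * La T ^ k * Real.exp (-((|K| + 1) * La T)) := by gcongr
    _ = 2 * |A| * (La T ^ k * (Real.exp (|K| * La T) * Real.exp (-((|K| + 1) * La T)))) := by ring
    _ = 2 * |A| * (La T ^ k * Real.exp (-(La T))) := by
      rw [← Real.exp_add]
      congr 4
      ring

/-- M2 -/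
theorem m2w (hFF : J_FF) (hTAIL : J_TAIL) (hE3 : J_E3) (hEU : J_EU) (hFR : J_FR) (hPS : J_PS) (hRHO : J_RHO)
    (hMASS : J_MASS) (hMERT : J_MERT) : J_M2w := by
  intro η κ K ε hη hη1 hκ hε
  obtain ⟨CE, -, hEU'⟩ := hEU
  obtain ⟨C₁, c₁, hC₁, hc₁, hps⟩ := hPS
  obtain ⟨C₃, hrho⟩ := hRHO
  -- the small parameter
  obtain ⟨q, hq0, hq1, hq⟩ : ∃ q : ℝ, 0 < q ∧ q ≤ 1 / 2 ∧ (1 + q) * (1 + q) * ((1 + q) / (1 - q)) ^ 2 ≤ 1 + ε := by
    have h1 : ContinuousAt (fun q : ℝ => (1 + q) * (1 + q) * ((1 + q) / (1 - q)) ^ 2) 0 := by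
      refine ContinuousAt.mul (by fun_prop) (ContinuousAt.pow ?_ 2)
      exact ContinuousAt.div (by fun_prop) (by fun_prop) (by norm_num)
    have h2 : ∀ᶠ q : ℝ in 𝓝 0, (1 + q) * (1 + q) * ((1 + q) / (1 - q)) ^ 2 < 1 + ε := by
      apply h1.eventually (gt_mem_nhds _)
      norm_num
      exact hε
    have h3 : ∀ᶠ q : ℝ in 𝓝[>] 0, (1 + q) * (1 + q) * ((1 + q) / (1 - q)) ^ 2 < 1 + ε := h2.filter_mono nhdsWithin_le_nhds
    have h4 : ∀ᶠ q : ℝ in 𝓝[>] (0 : ℝ), q ∈ Set.Ioc (0 : ℝ) (1 / 2) := Ioc_mem_nhdsGT (by norm_num)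
    obtain ⟨q, h5, h6⟩ := (h3.and h4).exists
    exact ⟨q, h6.1, h6.2, h5.le⟩
  have hmass := hMASS η hη hη1
  have hc0 : 0 < 1 / 2 - 2 * η := by linarith
  have hm1 : ∀ᶠ T : ℝ in atTop, nm (dd η T) / Real.log T ≤ (1 / 2 - 2 * η) * (1 + q) :=
    hmass.eventually (ge_mem_nhds (by nlinarith))
  -- the error of the rough part
  have hq3 : 0 < q / 3 := by positivity
  have hr1 := (La_pow_small 6 (4 * C₁ * C₃ ^ 2 / κ)).eventually (ge_mem_nhds hq3)
  have hr2 := (La_exp_small_w 4 K c₁ (4 * C₁ * C₃ ^ 2) hc₁).eventually (ge_mem_nhds hq3)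
  have hr3 := (La_last (4 * C₃ ^ 2)).eventually (ge_mem_nhds hq3)
  filter_upwards [hFF η hη hη1, hm1, hr1, hr2, hr3, ev_tail hTAIL hMERT hq0 0, hrho η hη hη1,
    ev_Nt hη1, Real.tendsto_log_atTop.eventually_ge_atTop 1, La_top.eventually_ge_atTop 1,
    eventually_ge_atTop (1 : ℝ)] with T t1 t2 t3 t4 t5 t6 t7 t8 t9 t10 t11 h hh1 hh2
  have hlog : 0 < Real.log T := by linarith
  have hL : 0 < La T := by linarith
  have hY := Yt_nonneg hL
  have hW := Wt_zero (zc (Yt T))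
  -- the smooth part
  have htau : ∀ (s1 : ℕ), s1 ≤ 1 → |nm (GT (el T) 1 s1 (zc (Yt T)) h 0 0) - nm (GG 1 s1 (zc (Yt T)) h 0 0)| ≤ q := by
    intro s1 hs1
    refine (t6 1 s1 h 0 0 le_rfl hs1 hW hW).trans ?_
    apply mul_le_of_le_one_right hq0.le
    rw [Real.exp_le_one_iff]
    linarith
  have hg1 := hEU' 1 1 (zc (Yt T)) h 0 0 le_rfl le_rfl hW hW
  have hg0 := hEU' 1 0 (zc (Yt T)) h 0 0 le_rfl (by norm_num) hW hW
  have he3 := hE3 (zc (Yt T)) h
  set A := ∏ p ∈ Nat.primesBelow (zc (Yt T)), (1 - 1 / (p : ℝ))⁻¹ with hA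
  have hCorr : nm (GG 1 1 (zc (Yt T)) h 0 0) = A ^ 2 * Corr (Yt T) h := he3.2
  have hA1 : 1 ≤ A := by rw [← he3.1]; exact hg0.2.1
  have hco := Corr_nonneg (Yt T) h
  have s11 : nm (GT (el T) 1 1 (zc (Yt T)) h 0 0) ≤ (1 + q) * (A ^ 2 * Corr (Yt T) h) := by
    have a1 := (abs_le.1 (htau 1 le_rfl)).2
    have a2 := hg1.2.1
    rw [hCorr] at a1 a2
    nlinarith
  have s10 : (1 - q) * A ≤ nm (GT (el T) 1 0 (zc (Yt T)) h 0 0) := by
    have a1 := (abs_le.1 (htau 0 (by norm_num))).1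
    rw [he3.1] at a1
    nlinarith
  -- the rough part
  set ρ := nm (ro (zc (Yt T)) (Nt η T)) with hρ
  have hρ1 : 1 ≤ ρ := by
    have := RF_nm t8 1 0 h
    rwa [RF10] at this
  have hρ0 : 0 ≤ ρ := by linarith
  have hZr : Real.exp (Real.log T / La T ^ 2) ≤ (zc (Yt T) : ℝ) := by
    rw [← exp_Yt hL hlog]
    exact Nat.le_ceil _
  have hlz : Real.log T / La T ^ 2 ≤ Real.log (zc (Yt T)) := by
    rw [← exp_Yt hL hlog]
    exact log_zc
  have hlp : 0 < Real.log T / La T ^ 2 := by positivity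
  have hZ2 : 2 ≤ zc (Yt T) := by
    have a1 : (1 : ℝ) < zc (Yt T) := lt_of_lt_of_le (by rw [Real.one_lt_exp_iff]; exact hlp) hZr
    have : 1 < zc (Yt T) := by exact_mod_cast a1
    omega
  have hh0 : 0 < h := by linarith
  set δ' : ℝ := C₁ / (κ * (Real.log T / La T ^ 2)) + C₁ * (1 + Real.exp (K * La T)) *
    Real.exp (-(c₁ * Real.sqrt (Real.log T / La T ^ 2))) with hδ'
  have hδ0 : 0 ≤ δ' := by positivity
  have hps' : ∀ a b : ℕ, zc (Yt T) ≤ a → a ≤ b →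
      ‖∑ p ∈ (Finset.Ico a b).filter Nat.Prime, (p : ℂ) ^ (-((1 : ℂ) + (h : ℂ) * Complex.I))‖ ≤ δ' := by
    intro a b ha hab
    refine (hps h (by linarith) a b (hZ2.trans ha) hab).trans ?_
    have a1 : Real.log T / La T ^ 2 ≤ Real.log a := by
      refine hlz.trans (Real.log_le_log (by exact_mod_cast (by omega : 0 < zc (Yt T))) (by exact_mod_cast ha))
    rw [abs_of_pos (by linarith : 0 < h)]
    apply add_le_add
    · apply div_le_div_of_nonneg_left hC₁.le (mul_pos hκ hlp)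
      exact mul_le_mul hh1 a1 hlp.le hh0.le
    · have a2 : Real.exp (-(c₁ * Real.sqrt (Real.log a))) ≤ Real.exp (-(c₁ * Real.sqrt (Real.log T / La T ^ 2))) := by
        apply Real.exp_le_exp.2
        have := mul_le_mul_of_nonneg_left (Real.sqrt_le_sqrt a1) hc₁.le
        linarith
      gcongr
  have hfr := hFR (zc (Yt T)) (Nt η T) h δ' hZ2 t8 hδ0 hps'
  rw [← hρ] at hfr
  have hXT : Real.log (Nt η T) ≤ Real.log T := by
    apply Real.log_le_log (by exact_mod_cast (by omega : 0 < Nt η T))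
    refine (Nat.floor_le (by positivity)).trans ?_
    calc T ^ (1 / 2 - 2 * η) ≤ T ^ (1 : ℝ) := Real.rpow_le_rpow_of_exponent_le t11 (by linarith)
      _ = T := Real.rpow_one T
  have hX0 : 0 ≤ Real.log (Nt η T) := Real.log_nonneg (by exact_mod_cast t8)
  have r11 : nm (ro (zc (Yt T)) (Nt η T) * sh h (ro (zc (Yt T)) (Nt η T))) ≤ (1 + q) * ρ ^ 2 := by
    have a1 : (2 * Real.log (Nt η T) + 2) / (zc (Yt T) : ℝ) ≤ (2 * Real.log T + 2) / Real.exp (Real.log T / La T ^ 2) := by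
      apply div_le_div₀ (by linarith) (by linarith) (Real.exp_pos _) hZr
    have a2 : ρ ^ 2 ≤ C₃ ^ 2 * La T ^ 4 := by
      calc ρ ^ 2 ≤ (C₃ * La T ^ 2) ^ 2 := pow_le_pow_left₀ hρ0 t7 2
        _ = C₃ ^ 2 * La T ^ 4 := by ring
    have a3 : 4 * (δ' + (2 * Real.log (Nt η T) + 2) / (zc (Yt T) : ℝ)) * ρ ^ 2 ≤ q := by
      have a4 : 4 * (δ' + (2 * Real.log (Nt η T) + 2) / (zc (Yt T) : ℝ)) * ρ ^ 2 ≤
          4 * (δ' + (2 * Real.log T + 2) / Real.exp (Real.log T / La T ^ 2)) * (C₃ ^ 2 * La T ^ 4) := by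
        gcongr
      refine a4.trans ?_
      have a5 : 4 * (δ' + (2 * Real.log T + 2) / Real.exp (Real.log T / La T ^ 2)) * (C₃ ^ 2 * La T ^ 4) =
          4 * C₁ * C₃ ^ 2 / κ * La T ^ 6 / Real.log T +
          4 * C₁ * C₃ ^ 2 * (1 + Real.exp (K * La T)) * La T ^ 4 *
            Real.exp (-(c₁ * Real.sqrt (Real.log T / La T ^ 2))) +
          4 * C₃ ^ 2 * La T ^ 4 * ((2 * Real.log T + 2) / Real.exp (Real.log T / La T ^ 2)) := by
        rw [hδ']
        field_simp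
      rw [a5]
      linarith
    have a6 : 4 * (δ' + (2 * Real.log (Nt η T) + 2) / (zc (Yt T) : ℝ)) * ρ ^ 4 =
        (4 * (δ' + (2 * Real.log (Nt η T) + 2) / (zc (Yt T) : ℝ)) * ρ ^ 2) * ρ ^ 2 := by ring
    rw [a6] at hfr
    have a7 := mul_le_mul_of_nonneg_right a3 (sq_nonneg ρ)
    linarith
  -- the mass
  have hdd : nm (dd η T) = nm (GT (el T) 1 0 (zc (Yt T)) h 0 0) * ρ := by
    rw [← FF_one η T h, (t1.2 1 0 h 0 0 le_rfl (by norm_num) hW hW).2.2.1, RF10]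
  rw [div_le_iff₀ hlog] at t2
  have hAρ : A * ρ ≤ (1 + q) / (1 - q) * ((1 / 2 - 2 * η) * Real.log T) := by
    have hq' : 0 < 1 - q := by linarith
    rw [div_mul_eq_mul_div, le_div_iff₀ hq']
    have a1 := mul_le_mul_of_nonneg_right s10 hρ0
    rw [← hdd] at a1
    linarith
  rw [← FF_two, (t1.2 1 1 h 0 0 le_rfl le_rfl hW hW).2.2.1, RF11]
  have hAρ0 : 0 ≤ A * ρ := by positivity
  calc nm (GT (el T) 1 1 (zc (Yt T)) h 0 0) * nm (ro (zc (Yt T)) (Nt η T) * sh h (ro (zc (Yt T)) (Nt η T)))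
      ≤ ((1 + q) * (A ^ 2 * Corr (Yt T) h)) * ((1 + q) * ρ ^ 2) :=
        mul_le_mul s11 r11 (nm_nonneg _) (by positivity)
    _ = (1 + q) * (1 + q) * (A * ρ) ^ 2 * Corr (Yt T) h := by ring
    _ ≤ (1 + q) * (1 + q) * ((1 + q) / (1 - q) * ((1 / 2 - 2 * η) * Real.log T)) ^ 2 * Corr (Yt T) h := by
        gcongr
    _ = ((1 + q) * (1 + q) * ((1 + q) / (1 - q)) ^ 2) * ((1 / 2 - 2 * η) * Real.log T) ^ 2 * Corr (Yt T) h := by ring
    _ ≤ (1 + ε) * ((1 / 2 - 2 * η) * Real.log T) ^ 2 * Corr (Yt T) h := by gcongr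

end Pool.Agent.Q251.EW
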