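import Pool.Agent.Q80.EW.Stm5
import Pool.Agent.Q251.EW.GPW
import Pool.Agent.Q251.EW.M2W
import Pool.Agent.Q251.EW.C2D

set_option autoImplicit false

/-!
# Project EWD, job OSC: two point oscillation on the good set
-/

namespace Pool.Agent.Q251.EW

open Filter Topology MeasureTheory Finset
open Pool.Agent.Q80.EW
open Pool.Agent.Q16.EW (Ms Ms_int Ms_fin Ms_integrable Ms_real dd_one ev_Nt nm_ge_one mul_one' sh_one' Gs_closed Corr_nonneg)

theorem WK1 (T b t : ℝ) : WK T 1 b t ↔ De T 1 0 t ≤ b := by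
  unfold WK
  have h2 : ∀ k : Fin 1, ∑ i ∈ Finset.Iic k, De T 1 i t = De T 1 0 t := by
    intro k
    have hk : k = 0 := Subsingleton.elim _ _
    rw [hk]
    have : (Finset.Iic (0 : Fin 1)) = {0} := by decide
    rw [this, Finset.sum_singleton]
  constructor
  · intro h
    rw [← h2 0]; exact h 0
  · intro h k
    rw [h2]; exact h

/-- the two point law with the wide range -/
theorem law2 (hFF : J_FF) (hG2 : J_G2w) (hCL : J_CL) (η κ K : ℝ) (hη : 0 < η) (hη1 : η ≤ 1 / 100) (hκ : 0 < κ)
    (A : Set (Fin 1 ⊕ Fin 1 → ℝ)) (mA : MeasurableSet A) (fA : gm 1 (Fin 1 ⊕ Fin 1) (frontier A) = 0) :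
    Tendsto (fun x : ℝ × ℝ => (Ms x.1 (3 * x.1) (2 * x.1 * nm (dd η x.1 * sh x.2 (dd η x.1)))
      {t | NE x.1 1 t ∧ NE x.1 1 (t + x.2)} (fun t => ‖Dp η x.1 t‖ ^ 2 * ‖Dp η x.1 (t + x.2)‖ ^ 2)).real
      {t | (fun j => Sum.elim (fun i => De x.1 1 i t) (fun i => De x.1 1 i (t + x.2)) j) ∈ A})
      (lW κ K) (𝓝 ((gm 1 (Fin 1 ⊕ Fin 1)).real A)) := by
  have hff := hFF η hη hη1
  have hN := ev_Nt hη1
  let N : ℝ × ℝ → ℝ := fun x => 2 * x.1 * nm (dd η x.1 * sh x.2 (dd η x.1))
  have hev0 : ∀ᶠ T : ℝ in atTop, ∀ h : ℝ, 0 < T ∧ FS ⌊T ^ (1 / 2 - η)⌋₊ (dd η T) ∧ 0 < N (T, h) := by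
    filter_upwards [hff, hN, eventually_gt_atTop (0 : ℝ)] with T h1 h2 h3 h
    refine ⟨h3, h1.1, ?_⟩
    have h4 : (dd η T * sh h (dd η T)) 1 = 1 := by rw [mul_one', sh_one', dd_one h2, one_mul]
    have := nm_ge_one (FS_mul h1.1 (FS_sh h h1.1)) h4
    show 0 < 2 * T * nm (dd η T * sh h (dd η T))
    positivity
  have hev : ∀ᶠ x in lW κ K, 0 < x.1 ∧ FS ⌊x.1 ^ (1 / 2 - η)⌋₊ (dd η x.1) ∧ 0 < N x := by
    rw [lW_ev]
    filter_upwards [hev0] with T hT h _ _
    exact hT h
  have hNE : ∀ T h, MeasurableSet {t : ℝ | NE T 1 t ∧ NE T 1 (t + h)} := fun T h => (Gs_closed T 1 h).measurableSet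
  have hco : ∀ (T h : ℝ), FS ⌊T ^ (1 / 2 - η)⌋₊ (dd η T) →
      Continuous fun t => ‖Dp η T t‖ ^ 2 * ‖Dp η T (t + h)‖ ^ 2 := fun T h hh =>
    ((dp_cont hh).norm.pow 2).mul (((dp_cont hh).comp (continuous_id.add continuous_const)).norm.pow 2)
  refine hCL (ℝ × ℝ) ℝ (Fin 1 ⊕ Fin 1) (lW κ K) (fun x => Ms x.1 (3 * x.1) (N x)
      {t | NE x.1 1 t ∧ NE x.1 1 (t + x.2)} (fun t => ‖Dp η x.1 t‖ ^ 2 * ‖Dp η x.1 (t + x.2)‖ ^ 2))
    (fun x j t => Sum.elim (fun i => De x.1 1 i t) (fun i => De x.1 1 i (t + x.2)) j) 1 le_rfl ?_ ?_ ?_ A mA fA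
  · filter_upwards [hev] with x hx
    exact Ms_fin (hNE x.1 x.2) (hco _ _ hx.2.1)
  · refine Eventually.of_forall fun x j => ?_
    rcases j with i | i
    · exact (De_cont x.1 1 i).measurable
    · exact ((De_cont x.1 1 i).comp (continuous_id.add continuous_const)).measurable
  · intro u
    have hs : ∀ (x : ℝ × ℝ) (t : ℝ), ∑ j, u j * Sum.elim (fun i => De x.1 1 i t) (fun i => De x.1 1 i (t + x.2)) j =
        ∑ i, u (Sum.inl i) * De x.1 1 i t + ∑ i, u (Sum.inr i) * De x.1 1 i (t + x.2) := by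
      intro x t
      rw [Fintype.sum_sum_type]
      rfl
    constructor
    · filter_upwards [hev] with x hx
      refine Ms_integrable (hNE x.1 x.2) (hco _ _ hx.2.1) ?_
      simp_rw [hs]
      refine Real.continuous_exp.comp (Continuous.add ?_ ?_)
      · exact continuous_finsetSum _ fun i _ => continuous_const.mul (De_cont x.1 1 i)
      · exact continuous_finsetSum _ fun i _ => continuous_const.mul
          ((De_cont x.1 1 i).comp (continuous_id.add continuous_const))
    · have h1 := hG2 η 1 (fun i => u (Sum.inl i)) (fun i => u (Sum.inr i)) κ K hη hη1 le_rfl hκ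
      rw [Fintype.sum_sum_type]
      refine Tendsto.congr' ?_ h1
      filter_upwards [hev] with x hx
      rw [Ms_int (by linarith [hx.1]) hx.2.2 (hNE x.1 x.2) (hco _ _ hx.2.1) (fun t => by positivity)]
      simp_rw [hs]
      rfl

/-- one coordinate of the Gaussian vector -/
theorem gm_eval (J : Type) [Fintype J] (j : J) (B : Set ℝ) (hB : MeasurableSet B) :
    gm 1 J {x : J → ℝ | x j ∈ B} = ProbabilityTheory.gaussianReal 0 (Real.toNNReal (1 / (2 * ((1 : ℕ) : ℝ)))) B := by
  unfold gm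
  have h := measurePreserving_eval (fun _ : J => ProbabilityTheory.gaussianReal 0 (Real.toNNReal (1 / (2 * ((1 : ℕ) : ℝ))))) j
  exact h.measure_preimage hB.nullMeasurableSet

/-- the bad set of a coordinate -/
def BS (A r b : ℝ) : Set ℝ := {s | A < |s| ∨ |s - b| < r}

theorem BS_meas (A r b : ℝ) : MeasurableSet (BS A r b) :=
  (measurableSet_lt measurable_const measurable_id.abs).union
    (measurableSet_lt (measurable_id.sub_const b).abs measurable_const)

theorem BS_frontier (A r b : ℝ) : frontier (BS A r b) ⊆ {A, -A, b + r, b - r} := by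
  have h1 : BS A r b = {s | A < |s|} ∪ {s | |s - b| < r} := rfl
  rw [h1]
  refine (frontier_union_subset _ _).trans ?_
  rintro s (hs | hs)
  · have h2 := frontier_lt_subset_eq (continuous_const (y := A)) continuous_abs hs.1
    have h3 : A = |s| := h2
    rcases abs_choice s with h | h
    · left; rw [h3, h]
    · right; left; rw [h3, h, neg_neg]
  · have h2 := frontier_lt_subset_eq (continuous_id.sub continuous_const).abs (continuous_const (y := r)) hs.2
    have h3 : |s - b| = r := h2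
    rcases abs_choice (s - b) with h | h
    · right; right; left
      have : s - b = r := by rw [← h, h3]
      linarith
    · right; right; right
      have : -(s - b) = r := by rw [← h, h3]
      show s = b - r
      linarith

theorem bad_frontier (J : Type) [Fintype J] (j : J) (A r b : ℝ) :
    gm 1 J (frontier {x : J → ℝ | x j ∈ BS A r b}) = 0 := by
  have h1 : frontier {x : J → ℝ | x j ∈ BS A r b} ⊆ {x : J → ℝ | x j ∈ ({A, -A, b + r, b - r} : Set ℝ)} := by
    have h2 := (continuous_apply (A := fun _ : J => ℝ) j).frontier_preimage_subset (BS A r b)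
    exact h2.trans (Set.preimage_mono (BS_frontier A r b))
  refine measure_mono_null h1 ?_
  rw [gm_eval J j _ (Set.toFinite _).measurableSet]
  have hv : Real.toNNReal (1 / (2 * ((1 : ℕ) : ℝ))) ≠ 0 := by
    have : (0 : ℝ) < 1 / (2 * ((1 : ℕ) : ℝ)) := by norm_num
    exact (Real.toNNReal_pos.2 this).ne'
  have := ProbabilityTheory.noAtoms_gaussianReal (μ := 0) hv
  exact (Set.toFinite _).measure_zero _

theorem OSC_aux {A r b ε' : ℝ} {φ : ℝ → ℂ} (h2 : ∀ s, ‖φ s‖ ≤ 2)
    (hg : ∀ s, |s| ≤ A → r ≤ |s - b| → ‖(if s ≤ b then (1 : ℂ) else 0) - φ s‖ ≤ ε') (hε : 0 ≤ ε') (s : ℝ) :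
    ‖(if s ≤ b then (1 : ℂ) else 0) - φ s‖ ≤ ε' + 3 * (BS A r b).indicator (fun _ => (1 : ℝ)) s := by
  by_cases hs : s ∈ BS A r b
  · rw [Set.indicator_of_mem hs]
    have h1 : ‖(if s ≤ b then (1 : ℂ) else 0)‖ ≤ 1 := by split_ifs <;> simp
    have := norm_sub_le (if s ≤ b then (1 : ℂ) else 0) (φ s)
    have := h2 s
    linarith
  · rw [Set.indicator_of_notMem hs, mul_zero, add_zero]
    unfold BS at hs
    simp only [Set.mem_setOf_eq, not_or, not_lt] at hs
    exact hg s hs.1 hs.2

theorem t_OSC (hFF : J_FF) (hE : J_EXP) (hG2 : J_G2w) (hCL : J_CL) (hM2 : J_M2w) (hTRG : J_TRG) (hOSM : J_OSM) : J_OSC := by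
  intro η b κ K ε hη hη1 hκ hε
  set ε' : ℝ := ε / 48 with hε'
  have hε'0 : 0 < ε' := by positivity
  obtain ⟨A, r, F, c, hA, hr, hφ2, hφg, hbad⟩ := hTRG b ε' hε'0
  set φ : ℝ → ℂ := fun s => ∑ u ∈ F, c u * Complex.exp (((u * s : ℝ) : ℂ) * Complex.I) with hφ
  -- the laws
  set A1 : Set (Fin 1 ⊕ Fin 1 → ℝ) := {x | x (Sum.inl 0) ∈ BS A r b} with hA1
  set A2 : Set (Fin 1 ⊕ Fin 1 → ℝ) := {x | x (Sum.inr 0) ∈ BS A r b} with hA2
  have mA1 : MeasurableSet A1 := (measurable_pi_apply _) (BS_meas A r b)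
  have mA2 : MeasurableSet A2 := (measurable_pi_apply _) (BS_meas A r b)
  have gbad : ∀ j : Fin 1 ⊕ Fin 1, (gm 1 (Fin 1 ⊕ Fin 1)).real {x | x j ∈ BS A r b} ≤ ε' := by
    intro j
    rw [measureReal_def, gm_eval _ j _ (BS_meas A r b), ← gm_eval (Fin 1) 0 _ (BS_meas A r b), ← measureReal_def]
    exact hbad
  have l0 := law2 hFF hG2 hCL η κ K hη hη1 hκ Set.univ MeasurableSet.univ (by simp)
  have l1 := law2 hFF hG2 hCL η κ K hη hη1 hκ A1 mA1 (bad_frontier _ _ A r b)
  have l2 := law2 hFF hG2 hCL η κ K hη hη1 hκ A2 mA2 (bad_frontier _ _ A r b)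
  have hprob : (gm 1 (Fin 1 ⊕ Fin 1)).real Set.univ = 1 := by
    have : IsProbabilityMeasure (gm 1 (Fin 1 ⊕ Fin 1)) := by unfold gm; infer_instance
    exact probReal_univ
  rw [hprob] at l0
  have e0 := l0.eventually (gt_mem_nhds (show (1 : ℝ) < 2 by norm_num))
  have e1 := l1.eventually (gt_mem_nhds (show (gm 1 (Fin 1 ⊕ Fin 1)).real A1 < 2 * ε' by
    have := gbad (Sum.inl 0); linarith))
  have e2 := l2.eventually (gt_mem_nhds (show (gm 1 (Fin 1 ⊕ Fin 1)).real A2 < 2 * ε' by
    have := gbad (Sum.inr 0); linarith))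
  rw [lW_ev] at e0 e1 e2
  have e3 := hM2 η κ K 1 hη hη1 hκ one_pos
  have e4 : ∀ᶠ T : ℝ in atTop, ∀ u ∈ F, ∀ u' ∈ F, ∀ h : ℝ, κ ≤ h → h ≤ Real.exp (K * La T) →
      ‖∫ t in T..(3 * T), Set.indicator {t | NE T 1 t ∧ NE T 1 (t + h)}
        (fun t => (starRingEnd ℂ) (chi t) * Dp η T t ^ 2 * (chi (t + h) * (starRingEnd ℂ) (Dp η T (t + h)) ^ 2) *
        Complex.exp (((u * De T 1 0 t + (-u') * De T 1 0 (t + h) : ℝ) : ℂ) * Complex.I)) t‖ ≤ T * Real.log T := by
    rw [Filter.eventually_all_finset]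
    intro u _
    rw [Filter.eventually_all_finset]
    intro u' _
    exact hOSM η u (-u') κ K hη hη1 hκ
  set SC : ℝ := ∑ u ∈ F, ‖c u‖ with hSC
  have hSC0 : 0 ≤ SC := Finset.sum_nonneg fun _ _ => norm_nonneg _
  have hff := hFF η hη hη1
  filter_upwards [e0, e1, e2, e3, e4, hff, ev_Nt hη1, eventually_gt_atTop (3 : ℝ),
    Real.tendsto_log_atTop.eventually_ge_atTop (SC ^ 2 * (2 / ε))] with T e0 e1 e2 e3 e4 hff hNt hT hLS
  intro h hh1 hh2
  have e0 := e0 h hh1 hh2
  have e1 := e1 h hh1 hh2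
  have e2 := e2 h hh1 hh2
  have e3 := e3 h hh1 hh2
  have hT0 : 0 < T := by linarith
  have hL : 0 < Real.log T := Real.log_pos (by linarith)
  have hDc : Continuous (Dp η T) := Dp_cont hE η T
  set N : ℝ := 2 * T * nm (dd η T * sh h (dd η T)) with hN
  have hN0 : 0 < N := by
    have h4 : (dd η T * sh h (dd η T)) 1 = 1 := by rw [mul_one', sh_one', dd_one hNt, one_mul]
    have := nm_ge_one (FS_mul hff.1 (FS_sh h hff.1)) h4
    show 0 < 2 * T * nm (dd η T * sh h (dd η T))
    positivity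
  set S : Set ℝ := {t | NE T 1 t ∧ NE T 1 (t + h)} with hS
  have mS : MeasurableSet S := (Gs_closed T 1 h).measurableSet
  set q : ℝ → ℝ := fun t => ‖Dp η T t‖ ^ 2 * ‖Dp η T (t + h)‖ ^ 2 with hq
  have hqc : Continuous q := (hDc.norm.pow 2).mul ((hDc.comp (continuous_id.add continuous_const)).norm.pow 2)
  have hq0 : ∀ t, 0 ≤ q t := fun t => by positivity
  set Q : ℝ → ℂ := fun t => (starRingEnd ℂ) (chi t) * Dp η T t ^ 2 *
    (chi (t + h) * (starRingEnd ℂ) (Dp η T (t + h)) ^ 2) with hQ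
  have hQc : Continuous Q :=
    ((Complex.continuous_conj.comp chi_cont).mul (hDc.pow 2)).mul
      ((chi_cont.comp (continuous_id.add continuous_const)).mul
        ((Complex.continuous_conj.comp (hDc.comp (continuous_id.add continuous_const))).pow 2))
  have hQn : ∀ t, ‖Q t‖ = q t := by
    intro t
    rw [hQ, hq]
    simp only [norm_mul, norm_pow, RCLike.norm_conj, chi_norm, one_mul]
  -- the bad sets in t
  set X : ℝ → ℝ := De T 1 0 with hX
  have hXc : Continuous X := De_cont T 1 0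
  have hXh : Continuous fun t => X (t + h) := hXc.comp (continuous_id.add continuous_const)
  have m1 : MeasurableSet {t | X t ∈ BS A r b} := hXc.measurable (BS_meas A r b)
  have m2 : MeasurableSet {t | X (t + h) ∈ BS A r b} := hXh.measurable (BS_meas A r b)
  have r0 : ∫ t in T..(3 * T), Set.indicator S q t ≤ 2 * N := by
    have h1 := Ms_real (a := T) (b := 3 * T) (by linarith) hN0 mS hqc hq0 (A := Set.univ) MeasurableSet.univ
    rw [Set.inter_univ] at h1
    have h2 : (Ms T (3 * T) N S q).real Set.univ < 2 := e0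
    rw [h1, div_lt_iff₀ hN0] at h2
    exact h2.le
  have r1 : ∫ t in T..(3 * T), Set.indicator (S ∩ {t | X t ∈ BS A r b}) q t ≤ 2 * ε' * N := by
    have h1 := Ms_real (a := T) (b := 3 * T) (by linarith) hN0 mS hqc hq0 m1
    have h2 : (Ms T (3 * T) N S q).real {t | X t ∈ BS A r b} < 2 * ε' := e1
    rw [h1, div_lt_iff₀ hN0] at h2
    exact h2.le
  have r2 : ∫ t in T..(3 * T), Set.indicator (S ∩ {t | X (t + h) ∈ BS A r b}) q t ≤ 2 * ε' * N := by
    have h1 := Ms_real (a := T) (b := 3 * T) (by linarith) hN0 mS hqc hq0 m2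
    have h2 : (Ms T (3 * T) N S q).real {t | X (t + h) ∈ BS A r b} < 2 * ε' := e2
    rw [h1, div_lt_iff₀ hN0] at h2
    exact h2.le
  -- integrability of indicators
  have iR : ∀ (W : Set ℝ), MeasurableSet W → ∀ (f : ℝ → ℝ), Continuous f → IntervalIntegrable (W.indicator f) volume T (3 * T) := by
    intro W hW f hf
    rw [intervalIntegrable_iff]
    exact (intervalIntegrable_iff.1 (hf.intervalIntegrable T (3 * T))).indicator hW
  have iC : ∀ (W : Set ℝ), MeasurableSet W → ∀ (f : ℝ → ℂ), Continuous f → IntervalIntegrable (W.indicator f) volume T (3 * T) := by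
    intro W hW f hf
    rw [intervalIntegrable_iff]
    exact (intervalIntegrable_iff.1 (hf.intervalIntegrable T (3 * T))).indicator hW
  -- the approximation
  have hφc : Continuous φ := by
    rw [hφ]
    refine continuous_finsetSum _ fun u _ => continuous_const.mul (Complex.continuous_exp.comp ?_)
    fun_prop
  set P : ℝ → ℂ := fun t => φ (X t) * (starRingEnd ℂ) (φ (X (t + h))) * Q t with hP
  have hPc : Continuous P := ((hφc.comp hXc).mul (Complex.continuous_conj.comp (hφc.comp hXh))).mul hQc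
  set Z : ℝ → ℂ := fun t => FX η b T t * (starRingEnd ℂ) (FX η b T (t + h)) with hZ
  have hZeq : ∀ t, Z t = S.indicator (fun t => (if X t ≤ b then (1 : ℂ) else 0) * (if X (t + h) ≤ b then (1 : ℂ) else 0) * Q t) t := by
    intro t
    rw [hZ]
    simp only
    unfold FX
    by_cases h1 : NE T 1 t
    · by_cases h2 : NE T 1 (t + h)
      · have hS' : t ∈ S := ⟨h1, h2⟩
        rw [Set.indicator_of_mem hS']
        by_cases h3 : X t ≤ b
        · have m3 : t ∈ {t | NE T 1 t ∧ WK T 1 b t} := ⟨h1, (WK1 T b t).2 h3⟩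
          rw [Set.indicator_of_mem m3, if_pos h3]
          by_cases h4 : X (t + h) ≤ b
          · have m4 : t + h ∈ {t | NE T 1 t ∧ WK T 1 b t} := ⟨h2, (WK1 T b (t + h)).2 h4⟩
            rw [Set.indicator_of_mem m4, if_pos h4, hQ]
            simp only [map_mul, map_pow, Complex.conj_conj]
            ring
          · have m4 : t + h ∉ {t | NE T 1 t ∧ WK T 1 b t} := fun hh => h4 ((WK1 T b (t + h)).1 hh.2)
            rw [Set.indicator_of_notMem m4, if_neg h4]
            simp
        · have m3 : t ∉ {t | NE T 1 t ∧ WK T 1 b t} := fun hh => h3 ((WK1 T b t).1 hh.2)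
          rw [Set.indicator_of_notMem m3, if_neg h3]
          simp
      · have hS' : t ∉ S := fun hh => h2 hh.2
        have m4 : t + h ∉ {t | NE T 1 t ∧ WK T 1 b t} := fun hh => h2 hh.1
        rw [Set.indicator_of_notMem hS', Set.indicator_of_notMem m4]
        simp
    · have hS' : t ∉ S := fun hh => h1 hh.1
      have m3 : t ∉ {t | NE T 1 t ∧ WK T 1 b t} := fun hh => h1 hh.1
      rw [Set.indicator_of_notMem hS', Set.indicator_of_notMem m3]
      simp
  have hdiff : ∀ t, ‖Z t - S.indicator P t‖ ≤ 3 * ε' * S.indicator q t +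
      3 * (S ∩ {t | X t ∈ BS A r b}).indicator q t + 6 * (S ∩ {t | X (t + h) ∈ BS A r b}).indicator q t := by
    intro t
    rw [hZeq]
    by_cases hS' : t ∈ S
    · rw [Set.indicator_of_mem hS', Set.indicator_of_mem hS', Set.indicator_of_mem hS', hP]
      simp only
      set i1 : ℂ := if X t ≤ b then (1 : ℂ) else 0 with hi1
      set i2 : ℂ := if X (t + h) ≤ b then (1 : ℂ) else 0 with hi2
      have hi1n : ‖i1‖ ≤ 1 := by rw [hi1]; split_ifs <;> simp
      have hi2n : ‖i2‖ ≤ 1 := by rw [hi2]; split_ifs <;> simp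
      have hi2c : (starRingEnd ℂ) i2 = i2 := by rw [hi2]; split_ifs <;> simp
      have a1 := OSC_aux hφ2 hφg hε'0.le (X t)
      have a2 := OSC_aux hφ2 hφg hε'0.le (X (t + h))
      have d1 : i1 * i2 * Q t - φ (X t) * (starRingEnd ℂ) (φ (X (t + h))) * Q t =
          ((i1 - φ (X t)) * i2 + φ (X t) * (i2 - (starRingEnd ℂ) (φ (X (t + h))))) * Q t := by ring
      have d2 : ‖i2 - (starRingEnd ℂ) (φ (X (t + h)))‖ = ‖i2 - φ (X (t + h))‖ := by
        rw [← hi2c, ← map_sub, RCLike.norm_conj, hi2c]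
      rw [d1, norm_mul, hQn]
      have d3 : ‖(i1 - φ (X t)) * i2 + φ (X t) * (i2 - (starRingEnd ℂ) (φ (X (t + h))))‖ ≤
          ‖i1 - φ (X t)‖ * 1 + 2 * ‖i2 - φ (X (t + h))‖ := by
        refine (norm_add_le _ _).trans (add_le_add ?_ ?_)
        · rw [norm_mul]
          exact mul_le_mul_of_nonneg_left hi2n (norm_nonneg _)
        · rw [norm_mul, d2]
          exact mul_le_mul_of_nonneg_right (hφ2 _) (norm_nonneg _)
      have b1 : (S ∩ {t | X t ∈ BS A r b}).indicator q t = (BS A r b).indicator (fun _ => (1 : ℝ)) (X t) * q t := by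
        by_cases hb : X t ∈ BS A r b
        · rw [Set.indicator_of_mem (show t ∈ S ∩ {t | X t ∈ BS A r b} from ⟨hS', hb⟩), Set.indicator_of_mem hb, one_mul]
        · rw [Set.indicator_of_notMem (show t ∉ S ∩ {t | X t ∈ BS A r b} from fun hh => hb hh.2),
            Set.indicator_of_notMem hb, zero_mul]
      have b2 : (S ∩ {t | X (t + h) ∈ BS A r b}).indicator q t =
          (BS A r b).indicator (fun _ => (1 : ℝ)) (X (t + h)) * q t := by
        by_cases hb : X (t + h) ∈ BS A r b
        · rw [Set.indicator_of_mem (show t ∈ S ∩ {t | X (t + h) ∈ BS A r b} from ⟨hS', hb⟩), Set.indicator_of_mem hb,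
            one_mul]
        · rw [Set.indicator_of_notMem (show t ∉ S ∩ {t | X (t + h) ∈ BS A r b} from fun hh => hb hh.2),
            Set.indicator_of_notMem hb, zero_mul]
      rw [b1, b2]
      have d4 : ‖(i1 - φ (X t)) * i2 + φ (X t) * (i2 - (starRingEnd ℂ) (φ (X (t + h))))‖ ≤
          3 * ε' + 3 * (BS A r b).indicator (fun _ => (1 : ℝ)) (X t) +
            6 * (BS A r b).indicator (fun _ => (1 : ℝ)) (X (t + h)) := by
        linarith
      have := mul_le_mul_of_nonneg_right d4 (hq0 t)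
      linarith
    · rw [Set.indicator_of_notMem hS', Set.indicator_of_notMem hS', Set.indicator_of_notMem hS',
        Set.indicator_of_notMem (show t ∉ S ∩ {t | X t ∈ BS A r b} from fun hh => hS' hh.1),
        Set.indicator_of_notMem (show t ∉ S ∩ {t | X (t + h) ∈ BS A r b} from fun hh => hS' hh.1)]
      simp
  -- integrability of Z
  have iZ : IntervalIntegrable Z volume T (3 * T) := by
    have mW : MeasurableSet {t | X t ≤ b ∧ X (t + h) ≤ b} :=
      (measurableSet_le hXc.measurable measurable_const).inter (measurableSet_le hXh.measurable measurable_const)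
    have e : Z = (S ∩ {t | X t ≤ b ∧ X (t + h) ≤ b}).indicator Q := by
      funext t
      rw [hZeq]
      by_cases hS' : t ∈ S
      · rw [Set.indicator_of_mem hS']
        by_cases h3 : X t ≤ b
        · by_cases h4 : X (t + h) ≤ b
          · rw [if_pos h3, if_pos h4, Set.indicator_of_mem (show t ∈ S ∩ {t | X t ≤ b ∧ X (t + h) ≤ b} from ⟨hS', h3, h4⟩)]
            ring
          · rw [if_neg h4, Set.indicator_of_notMem (show t ∉ S ∩ {t | X t ≤ b ∧ X (t + h) ≤ b} from fun hh => h4 hh.2.2)]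
            ring
        · rw [if_neg h3, Set.indicator_of_notMem (show t ∉ S ∩ {t | X t ≤ b ∧ X (t + h) ≤ b} from fun hh => h3 hh.2.1)]
          ring
      · rw [Set.indicator_of_notMem hS',
          Set.indicator_of_notMem (show t ∉ S ∩ {t | X t ≤ b ∧ X (t + h) ≤ b} from fun hh => hS' hh.1)]
    rw [e]
    exact iC _ (mS.inter mW) Q hQc
  have iP : IntervalIntegrable (S.indicator P) volume T (3 * T) := iC S mS P hPc
  -- the error
  have herr : ‖(∫ t in T..(3 * T), Z t) - ∫ t in T..(3 * T), S.indicator P t‖ ≤ 24 * ε' * N := by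
    rw [← intervalIntegral.integral_sub iZ iP]
    refine (intervalIntegral.norm_integral_le_integral_norm (by linarith)).trans ?_
    have h1 : ∫ t in T..(3 * T), ‖Z t - S.indicator P t‖ ≤ ∫ t in T..(3 * T), (3 * ε' * S.indicator q t +
        3 * (S ∩ {t | X t ∈ BS A r b}).indicator q t + 6 * (S ∩ {t | X (t + h) ∈ BS A r b}).indicator q t) := by
      apply intervalIntegral.integral_mono_on (by linarith) (iZ.sub iP).norm
      · exact (((iR S mS q hqc).const_mul _).add ((iR _ (mS.inter m1) q hqc).const_mul _)).add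
          ((iR _ (mS.inter m2) q hqc).const_mul _)
      · intro t _; exact hdiff t
    refine h1.trans ?_
    rw [intervalIntegral.integral_add (((iR S mS q hqc).const_mul _).add ((iR _ (mS.inter m1) q hqc).const_mul _))
      ((iR _ (mS.inter m2) q hqc).const_mul _),
      intervalIntegral.integral_add ((iR S mS q hqc).const_mul _) ((iR _ (mS.inter m1) q hqc).const_mul _),
      intervalIntegral.integral_const_mul, intervalIntegral.integral_const_mul, intervalIntegral.integral_const_mul]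
    have s0 : 3 * ε' * ∫ t in T..(3 * T), S.indicator q t ≤ 3 * ε' * (2 * N) :=
      mul_le_mul_of_nonneg_left r0 (by positivity)
    nlinarith
  -- the main part
  have hmain : ‖∫ t in T..(3 * T), S.indicator P t‖ ≤ SC ^ 2 * (T * Real.log T) := by
    have hexp : ∀ t, S.indicator P t = ∑ u ∈ F, ∑ u' ∈ F, (c u * (starRingEnd ℂ) (c u')) *
        S.indicator (fun t => Q t * Complex.exp (((u * X t + (-u') * X (t + h) : ℝ) : ℂ) * Complex.I)) t := by
      intro t
      by_cases hS' : t ∈ S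
      · simp only [Set.indicator_of_mem hS']
        rw [hP]
        simp only
        rw [hφ]
        simp only [map_sum, map_mul, ← Complex.exp_conj, Complex.conj_ofReal, Complex.conj_I]
        rw [Finset.sum_mul_sum, Finset.sum_mul]
        refine Finset.sum_congr rfl fun u _ => ?_
        rw [Finset.sum_mul]
        refine Finset.sum_congr rfl fun u' _ => ?_
        have e5 : Complex.exp (((u * X t + (-u') * X (t + h) : ℝ) : ℂ) * Complex.I) =
            Complex.exp (((u * X t : ℝ) : ℂ) * Complex.I) * Complex.exp (((u' * X (t + h) : ℝ) : ℂ) * -Complex.I) := by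
          rw [← Complex.exp_add]
          congr 1
          push_cast
          ring
        rw [e5]
        ring
      · simp only [Set.indicator_of_notMem hS', mul_zero, Finset.sum_const_zero]
    have iu : ∀ u u' : ℝ, IntervalIntegrable (fun t => (c u * (starRingEnd ℂ) (c u')) *
        S.indicator (fun t => Q t * Complex.exp (((u * X t + (-u') * X (t + h) : ℝ) : ℂ) * Complex.I)) t) volume T (3 * T) := by
      intro u u'
      apply IntervalIntegrable.const_mul
      apply iC S mS
      refine hQc.mul (Complex.continuous_exp.comp ?_)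
      exact (Complex.continuous_ofReal.comp ((continuous_const.mul hXc).add (continuous_const.mul hXh))).mul continuous_const
    have e6 : ∫ t in T..(3 * T), S.indicator P t = ∑ u ∈ F, ∑ u' ∈ F, (c u * (starRingEnd ℂ) (c u')) *
        ∫ t in T..(3 * T), S.indicator (fun t => Q t * Complex.exp (((u * X t + (-u') * X (t + h) : ℝ) : ℂ) * Complex.I)) t := by
      simp_rw [hexp]
      rw [intervalIntegral.integral_finsetSum fun u _ => ?_]
      · refine Finset.sum_congr rfl fun u _ => ?_
        rw [intervalIntegral.integral_finsetSum fun u' _ => iu u u']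
        refine Finset.sum_congr rfl fun u' _ => ?_
        rw [intervalIntegral.integral_const_mul]
      · have : (fun t => ∑ u' ∈ F, (c u * (starRingEnd ℂ) (c u')) *
            S.indicator (fun t => Q t * Complex.exp (((u * X t + (-u') * X (t + h) : ℝ) : ℂ) * Complex.I)) t) =
            ∑ u' ∈ F, fun t => (c u * (starRingEnd ℂ) (c u')) *
            S.indicator (fun t => Q t * Complex.exp (((u * X t + (-u') * X (t + h) : ℝ) : ℂ) * Complex.I)) t := by
          funext t
          rw [Finset.sum_apply]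
        rw [this]
        exact IntervalIntegrable.sum _ fun u' _ => iu u u'
    rw [e6]
    refine (norm_sum_le _ _).trans ?_
    have e7 : ∀ u ∈ F, ‖∑ u' ∈ F, (c u * (starRingEnd ℂ) (c u')) *
        ∫ t in T..(3 * T), S.indicator (fun t => Q t * Complex.exp (((u * X t + (-u') * X (t + h) : ℝ) : ℂ) * Complex.I)) t‖ ≤
        ‖c u‖ * (SC * (T * Real.log T)) := by
      intro u hu
      refine (norm_sum_le _ _).trans ?_
      have e8 : ∀ u' ∈ F, ‖(c u * (starRingEnd ℂ) (c u')) *
          ∫ t in T..(3 * T), S.indicator (fun t => Q t * Complex.exp (((u * X t + (-u') * X (t + h) : ℝ) : ℂ) * Complex.I)) t‖ ≤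
          ‖c u‖ * ‖c u'‖ * (T * Real.log T) := by
        intro u' hu'
        rw [norm_mul, norm_mul, RCLike.norm_conj]
        exact mul_le_mul_of_nonneg_left (e4 u hu u' hu' h hh1 hh2) (by positivity)
      refine (Finset.sum_le_sum e8).trans (le_of_eq ?_)
      rw [hSC, Finset.sum_mul, Finset.mul_sum]
      refine Finset.sum_congr rfl fun u' _ => ?_
      ring
    refine (Finset.sum_le_sum e7).trans (le_of_eq ?_)
    rw [← Finset.sum_mul, ← hSC]
    ring
  -- conclusion
  have hCo := Corr_nonneg (Yt T) h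
  have hN1 : N ≤ T * Real.log T ^ 2 * Corr (Yt T) h := by
    have h1 : nm (dd η T * sh h (dd η T)) ≤ 2 * ((1 / 2) * Real.log T) ^ 2 * Corr (Yt T) h := by
      refine e3.trans ?_
      have h2 : (1 / 2 - 2 * η) * Real.log T ≤ (1 / 2) * Real.log T := mul_le_mul_of_nonneg_right (by linarith) hL.le
      have h3 : 0 ≤ (1 / 2 - 2 * η) * Real.log T := mul_nonneg (by linarith) hL.le
      have h4 := pow_le_pow_left₀ h3 h2 2
      have h5 : (1 + 1) * ((1 / 2 - 2 * η) * Real.log T) ^ 2 ≤ 2 * ((1 / 2) * Real.log T) ^ 2 := by linarith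
      exact mul_le_mul_of_nonneg_right h5 hCo
    calc N = 2 * T * nm (dd η T * sh h (dd η T)) := rfl
      _ ≤ 2 * T * (2 * ((1 / 2) * Real.log T) ^ 2 * Corr (Yt T) h) := mul_le_mul_of_nonneg_left h1 (by positivity)
      _ = T * Real.log T ^ 2 * Corr (Yt T) h := by ring
  have hS2 : SC ^ 2 * (T * Real.log T) ≤ ε / 2 * (T * Real.log T ^ 2) := by
    have h1 : SC ^ 2 ≤ ε / 2 * Real.log T := by
      have := mul_le_mul_of_nonneg_left hLS (by positivity : 0 ≤ ε / 2)
      have e : ε / 2 * (SC ^ 2 * (2 / ε)) = SC ^ 2 := by field_simp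
      rwa [e] at this
    calc SC ^ 2 * (T * Real.log T) ≤ (ε / 2 * Real.log T) * (T * Real.log T) :=
          mul_le_mul_of_nonneg_right h1 (by positivity)
      _ = _ := by ring
  have h24 : 24 * ε' * N ≤ ε / 2 * (T * Real.log T ^ 2 * Corr (Yt T) h) := by
    have e : 24 * ε' = ε / 2 := by rw [hε']; ring
    rw [e]
    exact mul_le_mul_of_nonneg_left hN1 (by positivity)
  have hfin : ‖∫ t in T..(3 * T), Z t‖ ≤ 24 * ε' * N + SC ^ 2 * (T * Real.log T) := by
    have e : ∫ t in T..(3 * T), Z t = ((∫ t in T..(3 * T), Z t) - ∫ t in T..(3 * T), S.indicator P t) +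
        ∫ t in T..(3 * T), S.indicator P t := by ring
    rw [e]
    exact (norm_add_le _ _).trans (add_le_add herr hmain)
  refine hfin.trans ?_
  have hpos : 0 ≤ T * Real.log T ^ 2 := by positivity
  have hpos2 : 0 ≤ T * Real.log T ^ 2 * Corr (Yt T) h := by positivity
  nlinarith

end Pool.Agent.Q251.EW
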