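import Pool.Agent.Q251.EW.OSMc
import Pool.Agent.Q251.EW.OSC

set_option autoImplicit false

/-!
# Project EWD, job OSM: two point oscillation with characters
-/

namespace Pool.Agent.Q251.EW

open Filter Topology MeasureTheory
open Pool.Agent.Q80.EW Pool.Agent.Q61.EW
open Pool.Agent.Q16.EW (Gs_closed De_sum PV_bd)

noncomputable section

/-! ### relative errors of products -/

theorem two_le {δ1 δ2 : ℝ} (h1 : 0 ≤ δ1) {a b a' b' : ℂ} (ha : ‖a - a'‖ ≤ δ1 * ‖a'‖)
    (hb : ‖b - b'‖ ≤ δ2 * ‖b'‖) : ‖a * b - a' * b'‖ ≤ (δ1 * (1 + δ2) + δ2) * ‖a' * b'‖ := by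
  have e : a * b - a' * b' = (a - a') * b + a' * (b - b') := by ring
  have hb2 : ‖b‖ ≤ (1 + δ2) * ‖b'‖ := by
    have : b = (b - b') + b' := by ring
    rw [this]
    refine (norm_add_le _ _).trans ?_
    have e3 : b - b' + b' = b := by ring
    linarith
  rw [e]
  refine (norm_add_le _ _).trans ?_
  rw [norm_mul, norm_mul, norm_mul]
  have h3 : ‖a - a'‖ * ‖b‖ ≤ (δ1 * ‖a'‖) * ((1 + δ2) * ‖b'‖) :=
    mul_le_mul ha hb2 (norm_nonneg _) (by positivity)
  have h4 : ‖a'‖ * ‖b - b'‖ ≤ ‖a'‖ * (δ2 * ‖b'‖) := mul_le_mul_of_nonneg_left hb (norm_nonneg _)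
  nlinarith

theorem four_le {δ : ℝ} (h0 : 0 ≤ δ) (h1 : δ ≤ 1) {a b c d a' b' c' d' : ℂ} (ha : ‖a - a'‖ ≤ δ * ‖a'‖)
    (hb : ‖b - b'‖ ≤ δ * ‖b'‖) (hc : ‖c - c'‖ ≤ δ * ‖c'‖) (hd : ‖d - d'‖ ≤ δ * ‖d'‖) :
    ‖(a * b) * (c * d) - (a' * b') * (c' * d')‖ ≤ 15 * δ * ‖(a' * b') * (c' * d')‖ := by
  have e1 := two_le h0 ha hb
  have e2 := two_le h0 hc hd
  have e3 : δ * (1 + δ) + δ ≤ 3 * δ := by nlinarith
  have e4 : ‖a * b - a' * b'‖ ≤ (3 * δ) * ‖a' * b'‖ := e1.trans (mul_le_mul_of_nonneg_right e3 (norm_nonneg _))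
  have e5 : ‖c * d - c' * d'‖ ≤ (3 * δ) * ‖c' * d'‖ := e2.trans (mul_le_mul_of_nonneg_right e3 (norm_nonneg _))
  have e6 := two_le (by positivity : 0 ≤ 3 * δ) e4 e5
  refine e6.trans (mul_le_mul_of_nonneg_right ?_ (norm_nonneg _))
  nlinarith

/-! ### the weight -/

/-- a smooth form of `log(t/T)` -/
def psi (T t : ℝ) : ℝ := ∫ s in T..t, (max s T)⁻¹

/-- a smooth form of `(t/2π)^{-ih}` -/
def wt (h T t : ℝ) : ℂ := Complex.exp (-(((h * (psi T t + Real.log (T / (2 * Real.pi))) : ℝ) : ℂ) * Complex.I))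

theorem inv_cont {T : ℝ} (hT : 0 < T) : Continuous fun s : ℝ => (max s T)⁻¹ :=
  (continuous_id.max continuous_const).inv₀ fun s => by
    have : 0 < max s T := lt_max_of_lt_right hT
    exact this.ne'

theorem psi_deriv {T : ℝ} (hT : 0 < T) (t : ℝ) : HasDerivAt (psi T) (max t T)⁻¹ t :=
  ((inv_cont hT).integral_hasStrictDerivAt T t).hasDerivAt

theorem psi_eq {T t : ℝ} (hT : 0 < T) (ht : T ≤ t) : psi T t = Real.log (t / T) := by
  unfold psi
  have h1 : ∫ s in T..t, (max s T)⁻¹ = ∫ s in T..t, s⁻¹ := by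
    apply intervalIntegral.integral_congr
    intro s hs
    rw [Set.uIcc_of_le ht] at hs
    show (max s T)⁻¹ = s⁻¹
    rw [max_eq_left hs.1]
  rw [h1, integral_inv_of_pos hT (by linarith)]

theorem wt_eq {h T t : ℝ} (hT : 0 < T) (ht : T ≤ t) :
    wt h T t = Complex.exp (-((h * Real.log (t / (2 * Real.pi)) : ℝ) * Complex.I)) := by
  unfold wt
  rw [psi_eq hT ht]
  congr 4
  have hpi := Real.pi_pos
  rw [Real.log_div (by linarith) hT.ne', Real.log_div hT.ne' (by positivity), Real.log_div (by linarith) (by positivity)]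
  ring

theorem wt_norm (h T t : ℝ) : ‖wt h T t‖ = 1 := by
  unfold wt
  rw [← neg_mul, ← Complex.ofReal_neg, Complex.norm_exp_ofReal_mul_I]

theorem wt_deriv {h T : ℝ} (hT : 0 < T) (t : ℝ) :
    HasDerivAt (wt h T) (wt h T t * (-(((h * (max t T)⁻¹ : ℝ) : ℂ) * Complex.I))) t := by
  have h1 : HasDerivAt (fun t => h * (psi T t + Real.log (T / (2 * Real.pi)))) (h * (max t T)⁻¹) t :=
    ((psi_deriv hT t).add_const _).const_mul h
  have h2 := ((h1.ofReal_comp).mul_const Complex.I).neg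
  exact h2.cexp

theorem wt_contDiff {h T : ℝ} (hT : 0 < T) : ContDiff ℝ 1 (wt h T) := by
  rw [contDiff_one_iff_deriv]
  have hd : Differentiable ℝ (wt h T) := fun t => (wt_deriv hT t).differentiableAt
  refine ⟨hd, ?_⟩
  have : deriv (wt h T) = fun t => wt h T t * (-(((h * (max t T)⁻¹ : ℝ) : ℂ) * Complex.I)) := by
    funext t
    exact (wt_deriv hT t).deriv
  rw [this]
  refine hd.continuous.mul ?_
  exact ((Complex.continuous_ofReal.comp (continuous_const.mul (inv_cont hT))).mul continuous_const).neg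

theorem wt_var {h T : ℝ} (hT : 0 < T) (hh : 0 ≤ h) : ∫ t in T..(3 * T), ‖deriv (wt h T) t‖ ≤ 2 * h := by
  have h1 : ∀ t : ℝ, ‖deriv (wt h T) t‖ ≤ h / T := by
    intro t
    rw [(wt_deriv hT t).deriv, norm_mul, wt_norm, one_mul, norm_neg, norm_mul, Complex.norm_I, mul_one,
      Complex.norm_real, Real.norm_eq_abs]
    have h2 : 0 < max t T := lt_max_of_lt_right hT
    rw [abs_of_nonneg (by positivity), div_eq_mul_inv]
    exact mul_le_mul_of_nonneg_left (inv_anti₀ hT (le_max_right _ _)) hh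
  have h3 := intervalIntegral.norm_integral_le_of_norm_le_const (a := T) (b := 3 * T) (C := h / T)
    (f := fun t => ‖deriv (wt h T) t‖) (fun t _ => by rw [norm_norm]; exact h1 t)
  have h4 : h / T * |3 * T - T| = 2 * h := by
    rw [abs_of_pos (by linarith)]
    field_simp
    ring
  rw [h4] at h3
  exact (le_abs_self _).trans h3

/-! ### the characters -/

theorem PVc_wc {T u : ℝ} (t : ℝ) :
    PVc (zc (Yt T)) (wc T u) t = Complex.I * PV (zc (Yt T)) (wu T 1 fun _ => u) t := by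
  unfold PVc PV
  rw [Finset.mul_sum]
  refine Finset.sum_congr rfl fun p _ => ?_
  have h1 : wc T u p = ((wu T 1 (fun _ => u) p : ℝ) : ℂ) * Complex.I := by
    unfold wc wu
    congr 2
    simp
  rw [h1]
  ring

theorem PVc_neg {T u : ℝ} (t : ℝ) :
    PVc (zc (Yt T)) (wc T (-u)) t = -PVc (zc (Yt T)) (wc T u) t := by
  unfold PVc
  rw [← Finset.sum_neg_distrib]
  refine Finset.sum_congr rfl fun p _ => ?_
  rw [wc_neg]
  ring

/-- `e^{z} conj(e^{-z})` -/
theorem exp_pair (P : ℂ) :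
    Complex.exp (Complex.I * P) * (starRingEnd ℂ) (Complex.exp (-(Complex.I * P))) =
      Complex.exp (((2 * P.re : ℝ) : ℂ) * Complex.I) := by
  rw [← Complex.exp_conj, ← Complex.exp_add]
  congr 1
  rw [map_neg, map_mul, Complex.conj_I]
  have h1 : P + (starRingEnd ℂ) P = ((2 * P.re : ℝ) : ℂ) := Complex.add_conj P
  have h2 : Complex.I * P + -(-Complex.I * (starRingEnd ℂ) P) = (P + (starRingEnd ℂ) P) * Complex.I := by ring
  rw [h2, h1]

theorem De_one {T : ℝ} (hY : 0 ≤ Yt T) (u t : ℝ) :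
    u * De T 1 0 t = 2 * (PV (zc (Yt T)) (wu T 1 fun _ => u) t).re - vu T 1 fun _ => u := by
  have := De_sum (m := 1) le_rfl hY (fun _ => u) t
  rwa [Fin.sum_univ_one] at this

theorem char_eq {T : ℝ} (hY : 0 ≤ Yt T) (u u' t s : ℝ) :
    Complex.exp (((u * De T 1 0 t + u' * De T 1 0 s : ℝ) : ℂ) * Complex.I) =
    Complex.exp (((-(vu T 1 fun _ => u) - (vu T 1 fun _ => u') : ℝ) : ℂ) * Complex.I) *
      ((Complex.exp (PVc (zc (Yt T)) (wc T u) t) * Complex.exp (PVc (zc (Yt T)) (wc T u') s)) *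
      ((starRingEnd ℂ) (Complex.exp (PVc (zc (Yt T)) (wc T (-u)) t)) *
        (starRingEnd ℂ) (Complex.exp (PVc (zc (Yt T)) (wc T (-u')) s)))) := by
  rw [PVc_neg, PVc_neg, PVc_wc, PVc_wc]
  set P := PV (zc (Yt T)) (wu T 1 fun _ => u) t with hP
  set P' := PV (zc (Yt T)) (wu T 1 fun _ => u') s with hP'
  have h1 : (Complex.exp (Complex.I * P) * Complex.exp (Complex.I * P')) *
      ((starRingEnd ℂ) (Complex.exp (-(Complex.I * P))) * (starRingEnd ℂ) (Complex.exp (-(Complex.I * P')))) =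
      (Complex.exp (Complex.I * P) * (starRingEnd ℂ) (Complex.exp (-(Complex.I * P)))) *
      (Complex.exp (Complex.I * P') * (starRingEnd ℂ) (Complex.exp (-(Complex.I * P')))) := by ring
  rw [h1, exp_pair, exp_pair, ← Complex.exp_add, ← Complex.exp_add]
  congr 1
  rw [De_one hY u t, De_one hY u' s, ← hP, ← hP']
  push_cast
  ring

/-- exceptional points -/
theorem not_NE {T t : ℝ} (h : ¬ NE T 1 t) : 40 * La T < ‖PP 0 t‖ ∨ 40 * La T < ‖PP (Yt T) t‖ := by
  unfold NE at h
  push Not at h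
  obtain ⟨i, hi, h1⟩ := h
  interval_cases i
  · left; simpa using h1
  · right; simpa using h1

theorem PVc_cont (Z : ℕ) (w : ℕ → ℂ) : Continuous (PVc Z w) := by
  unfold PVc
  refine continuous_finsetSum _ fun p hp => ?_
  have hp1 : p ≠ 0 := (Nat.prime_of_mem_primesBelow hp).ne_zero
  refine continuous_const.mul ?_
  exact Continuous.const_cpow (by fun_prop) (Or.inl (by exact_mod_cast hp1))

theorem eT_cont (l : ℕ) : Continuous (eT l) := by
  unfold eT
  exact continuous_finsetSum _ fun k _ => (continuous_pow k).div_const _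

theorem tendsto_el : Tendsto el atTop atTop :=
  tendsto_nat_ceil_atTop.comp (tendsto_La.const_mul_atTop (by norm_num))

/-- the integrals over the exceptional sets -/
theorem exc_int {T a h : ℝ} {X : ℝ → ℝ} (hT : 0 < T) (hX : Continuous X) (hX0 : ∀ t, 0 ≤ X t)
    (hI : ∫ t in T..(4 * T), Set.indicator {t | 40 * La T < ‖PP a t‖ ∨ 40 * La T < ‖PP a (t + h)‖} X t ≤
      T / Real.log T) :
    IntervalIntegrable (Set.indicator {t | 40 * La T < ‖PP a t‖ ∨ 40 * La T < ‖PP a (t + h)‖} X) volume T (3 * T) ∧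
    ∫ t in T..(3 * T), Set.indicator {t | 40 * La T < ‖PP a t‖ ∨ 40 * La T < ‖PP a (t + h)‖} X t ≤ T / Real.log T := by
  set S : Set ℝ := {t | 40 * La T < ‖PP a t‖ ∨ 40 * La T < ‖PP a (t + h)‖} with hS
  have mS : MeasurableSet S := by
    have h1 : IsOpen S := (isOpen_lt continuous_const (PP_cont a).norm).union
      (isOpen_lt continuous_const ((PP_cont a).comp (continuous_id.add continuous_const)).norm)
    exact h1.measurableSet
  have hi : ∀ x y : ℝ, IntervalIntegrable (Set.indicator S X) volume x y := by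
    intro x y
    rw [intervalIntegrable_iff]
    exact (intervalIntegrable_iff.1 (hX.intervalIntegrable x y)).indicator mS
  refine ⟨hi _ _, le_trans ?_ hI⟩
  apply intervalIntegral.integral_mono_interval le_rfl (by linarith) (by linarith)
    (Eventually.of_forall fun t => Set.indicator_nonneg (fun t _ => hX0 t) t) (hi _ _)

set_option maxHeartbeats 8000000 in
theorem t_OSM (hE : J_EXP) (hEc : J_EXPc) (hFF : J_FF) (hEXC : J_EXCc) (hET : J_ETc) (hCEP : J_CEP) (hBMV : J_BMV)
    (hCHI : J_CHI) (hM : J_MERT) (hPS : J_PS) (hMU : J_MULT) (hR : J_FR2) (hRHO : J_RHO) : J_OSM := by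
  intro η u u' κ K hη hη1 hκ
  have esm := smooth_bd hCEP hM hPS u u' κ K hκ
  have en1 := nm_QR hE hEc hMU hM hR hRHO u u' η hη hη1
  have en2 := nm_QR hE hEc hMU hM hR hRHO (-u) (-u') η hη hη1
  have ema := mass2 hFF hM hR hRHO η hη hη1
  have eex := hEXC η hη hη1
  have eet := tendsto_el.eventually hET
  obtain ⟨CB, hCB, hBMV⟩ := hBMV
  obtain ⟨CH, hCH, hCHI⟩ := hCHI
  have s1 := ev_exp (|K|) (1 / 2) (by norm_num)
  have s2 := ev_exp (2 * |K| + 60) (1 / 2) (by norm_num)
  have s3 := ev_exp (|K| + 60) η hη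
  have s4 : ∀ᶠ T : ℝ in atTop, 3 * CB ≤ T ^ η := (tendsto_rpow_atTop hη).eventually_ge_atTop _
  have s5 : ∀ᶠ T : ℝ in atTop, 2 * CH ≤ T ^ (1 / 2 : ℝ) :=
    (tendsto_rpow_atTop (by norm_num : (0 : ℝ) < 1 / 2)).eventually_ge_atTop _
  have s6 : ∀ᶠ T : ℝ in atTop, (|u| + |u'| + 1) ≤ Real.sqrt (La T) :=
    (Real.tendsto_sqrt_atTop.comp tendsto_La).eventually_ge_atTop _
  have s7 : ∀ᶠ T : ℝ in atTop, 8 ≤ Real.exp (3 * La T / 8) := by
    have h1 : Tendsto (fun T : ℝ => Real.exp (3 * La T / 8)) atTop atTop :=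
      Real.tendsto_exp_atTop.comp ((tendsto_La.const_mul_atTop (by norm_num : (0 : ℝ) < 3)).atTop_div_const (by norm_num))
    exact h1.eventually_ge_atTop _
  filter_upwards [esm, en1, en2, ema, eex, eet, s1, s2, s3, s4, s5, s6, s7, grow 4 hη,
    tendsto_La.eventually_ge_atTop 1, Pool.Agent.Q237.EW.ev_Yt, eventually_ge_atTop 100]
    with T esm en1 en2 ema eex eet s1 s2 s3 s4 s5 s6 s7 hg hL hYT hT100 h hh1 hh2
  obtain ⟨hY0, hYL, -⟩ := hYT
  have hT0 : 0 < T := by linarith
  have hT1 : 1 < T := by linarith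
  have hh0 : 0 ≤ h := by linarith
  have hL0 : 0 < La T := by linarith
  have hlog := log_eq hT1
  have hlog0 : 0 < Real.log T := Real.log_pos hT1
  set Z := zc (Yt T) with hZ
  have hz : ∀ (w : ℝ) (p : ℕ), Z ≤ p → wc T w p = 0 := fun w p hp => wc_zero T w p hp
  set l := el T with hl
  -- the size of h
  set B1 : ℝ := Real.exp (|K| * La T) with hB1
  have hB11 : 1 ≤ B1 := Real.one_le_exp (by positivity)
  have hhB : h ≤ B1 := hh2.trans (Real.exp_le_exp.2 (mul_le_mul_of_nonneg_right (le_abs_self K) hL0.le))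
  -- the polynomials
  set E1 : ℝ → ℂ := fun t => eT l (PVc Z (wc T u) t) with hE1
  set E2 : ℝ → ℂ := fun t => eT l (PVc Z (wc T u') (t + h)) with hE2
  set E3 : ℝ → ℂ := fun t => eT l (PVc Z (wc T (-u)) t) with hE3
  set E4 : ℝ → ℂ := fun t => eT l (PVc Z (wc T (-u')) (t + h)) with hE4
  set fA := QT l Z 0 h (wc T u) (wc T u') * RR η T 0 with hfA
  set fB := QT l Z h h (wc T (-u)) (wc T (-u')) * RR η T h with hfB
  have hAe : ∀ t, dp fA t = Dp η T t ^ 2 * (E1 t * E2 t) := by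
    intro t
    have := dp_QR hE hEc η T 0 h (hz u) (hz u') t
    rw [add_zero] at this
    exact this
  have hBe : ∀ t, dp fB t = Dp η T (t + h) ^ 2 * (E3 t * E4 t) := fun t =>
    dp_QR hE hEc η T h h (hz (-u)) (hz (-u')) t
  have hFA : FS ⌊T ^ (1 - 3 * η)⌋₊ fA := FS_QR hE hEc hT1 (hg (Yt T) le_rfl) 0 h (hz u) (hz u')
  have hFB : FS ⌊T ^ (1 - 3 * η)⌋₊ fB := FS_QR hE hEc hT1 (hg (Yt T) le_rfl) h h (hz (-u)) (hz (-u'))
  set c : ℂ := Complex.exp (((-(vu T 1 fun _ => u) - (vu T 1 fun _ => u') : ℝ) : ℂ) * Complex.I) with hc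
  have hc1 : ‖c‖ = 1 := Complex.norm_exp_ofReal_mul_I _
  set G : ℝ → ℂ := fun t => c * (wt h T t * dp fA t * (starRingEnd ℂ) (dp fB t)) with hG
  set S : Set ℝ := {t | NE T 1 t ∧ NE T 1 (t + h)} with hS
  have mS : MeasurableSet S := (Gs_closed T 1 h).measurableSet
  set F0 : ℝ → ℂ := fun t => (starRingEnd ℂ) (chi t) * Dp η T t ^ 2 *
    (chi (t + h) * (starRingEnd ℂ) (Dp η T (t + h)) ^ 2) *
    Complex.exp (((u * De T 1 0 t + u' * De T 1 0 (t + h) : ℝ) : ℂ) * Complex.I) with hF0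
  have hDc : Continuous (Dp η T) := Dp_cont hE η T
  have hDh : Continuous fun t => Dp η T (t + h) := hDc.comp (continuous_id.add continuous_const)
  have hF0c : Continuous F0 := by
    have c1 : Continuous fun t => chi (t + h) := chi_cont.comp (continuous_id.add continuous_const)
    have c2 : Continuous fun t => ((u * De T 1 0 t + u' * De T 1 0 (t + h) : ℝ) : ℂ) :=
      Complex.continuous_ofReal.comp ((continuous_const.mul (De_cont T 1 0)).add
        (continuous_const.mul ((De_cont T 1 0).comp (continuous_id.add continuous_const))))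
    exact (((Complex.continuous_conj.comp chi_cont).mul (hDc.pow 2)).mul
      (c1.mul ((Complex.continuous_conj.comp hDh).pow 2))).mul
      (Complex.continuous_exp.comp (c2.mul continuous_const))
  have hGc : Continuous G := by
    have c1 := (wt_contDiff (h := h) hT0).continuous
    exact continuous_const.mul ((c1.mul (dp_cont hFA)).mul (Complex.continuous_conj.comp (dp_cont hFB)))
  have hFi : IntervalIntegrable (Set.indicator S F0) volume T (3 * T) := by
    rw [intervalIntegrable_iff]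
    exact (intervalIntegrable_iff.1 (hF0c.intervalIntegrable T (3 * T))).indicator mS
  have hGi : IntervalIntegrable G volume T (3 * T) := hGc.intervalIntegrable _ _
  -- the comparison functions
  set q : ℝ → ℝ := fun t => ‖Dp η T t‖ ^ 2 * ‖Dp η T (t + h)‖ ^ 2 with hq
  have hqc : Continuous q := (hDc.norm.pow 2).mul (hDh.norm.pow 2)
  set X1 : ℝ → ℝ := fun t => (‖Dp η T t‖ ^ 1 * ‖Dp η T (t + h)‖ ^ 1 * ‖E1 t‖ * ‖E2 t‖) ^ 2 with hX1
  set X2 : ℝ → ℝ := fun t => (‖Dp η T t‖ ^ 1 * ‖Dp η T (t + h)‖ ^ 1 * ‖E3 t‖ * ‖E4 t‖) ^ 2 with hX2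
  have cE : ∀ w : ℝ, Continuous fun t => eT l (PVc Z (wc T w) t) := fun w => (eT_cont l).comp (PVc_cont _ _)
  have cEh : ∀ w : ℝ, Continuous fun t => eT l (PVc Z (wc T w) (t + h)) := fun w =>
    (eT_cont l).comp ((PVc_cont _ _).comp (continuous_id.add continuous_const))
  have hX1c : Continuous X1 :=
    ((((hDc.norm.pow 1).mul (hDh.norm.pow 1)).mul (cE u).norm).mul (cEh u').norm).pow 2
  have hX2c : Continuous X2 :=
    ((((hDc.norm.pow 1).mul (hDh.norm.pow 1)).mul (cE (-u)).norm).mul (cEh (-u')).norm).pow 2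
  have hX10 : ∀ t, 0 ≤ X1 t := fun t => sq_nonneg _
  have hX20 : ∀ t, 0 ≤ X2 t := fun t => sq_nonneg _
  have hu1 := abs_nonneg u
  have hu2 := abs_nonneg u'
  have hsq0 : 0 < Real.sqrt (La T) := by linarith
  have hwn : ∀ w : ℝ, |w| ≤ |u| + |u'| → ∀ p, ‖wc T w p‖ ≤ 1 / 2 := by
    intro w hw p
    refine (wc_norm T w p).trans ?_
    rw [div_le_iff₀ (by linarith)]
    linarith
  have hexc : ∀ a : ℝ, 0 ≤ a → a ≤ Yt T →
      (IntervalIntegrable (Set.indicator {t | 40 * La T < ‖PP a t‖ ∨ 40 * La T < ‖PP a (t + h)‖} X1) volume T (3 * T) ∧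
      ∫ t in T..(3 * T), Set.indicator {t | 40 * La T < ‖PP a t‖ ∨ 40 * La T < ‖PP a (t + h)‖} X1 t ≤ T / Real.log T) ∧
      (IntervalIntegrable (Set.indicator {t | 40 * La T < ‖PP a t‖ ∨ 40 * La T < ‖PP a (t + h)‖} X2) volume T (3 * T) ∧
      ∫ t in T..(3 * T), Set.indicator {t | 40 * La T < ‖PP a t‖ ∨ 40 * La T < ‖PP a (t + h)‖} X2 t ≤ T / Real.log T) := by
    intro a ha0 ha1
    refine ⟨exc_int hT0 hX1c hX10 ?_, exc_int hT0 hX2c hX20 ?_⟩
    · exact eex 1 1 h a (wc T u) (wc T u') le_rfl le_rfl ha0 ha1 (hwn u (by linarith)) (hwn u' (by linarith))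
        fun p hp => ⟨hz u p hp, hz u' p hp⟩
    · exact eex 1 1 h a (wc T (-u)) (wc T (-u')) le_rfl le_rfl ha0 ha1 (hwn (-u) (by rw [abs_neg]; linarith))
        (hwn (-u') (by rw [abs_neg]; linarith)) fun p hp => ⟨hz (-u) p hp, hz (-u') p hp⟩
  obtain ⟨⟨i01, b01⟩, ⟨i02, b02⟩⟩ := hexc 0 le_rfl hY0
  obtain ⟨⟨iY1, bY1⟩, ⟨iY2, bY2⟩⟩ := hexc (Yt T) hY0 le_rfl
  set δ : ℝ := Real.exp (-(l : ℝ)) with hδ
  have hδ0 : 0 ≤ δ := (Real.exp_pos _).le
  have hδ1 : δ ≤ 1 := Real.exp_le_one_iff.2 (by have := Nat.cast_nonneg (α := ℝ) l; linarith)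
  set κ0 : ℝ := CH * (1 + h ^ 2) / T + 15 * δ with hκ0
  have hκ00 : 0 ≤ κ0 := by positivity
  set S0 : Set ℝ := {t | 40 * La T < ‖PP 0 t‖ ∨ 40 * La T < ‖PP 0 (t + h)‖} with hS0
  set SY : Set ℝ := {t | 40 * La T < ‖PP (Yt T) t‖ ∨ 40 * La T < ‖PP (Yt T) (t + h)‖} with hSY
  have hpt : ∀ t ∈ Set.Icc T (3 * T), ‖Set.indicator S F0 t - G t‖ ≤ κ0 * q t +
      (1 / 2) * (Set.indicator S0 X1 t + Set.indicator S0 X2 t + Set.indicator SY X1 t + Set.indicator SY X2 t) := by
    intro t ht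
    have hnn : 0 ≤ (1 / 2) * (Set.indicator S0 X1 t + Set.indicator S0 X2 t + Set.indicator SY X1 t +
        Set.indicator SY X2 t) := by
      have a1 : 0 ≤ Set.indicator S0 X1 t := Set.indicator_nonneg (fun t _ => hX10 t) t
      have a2 : 0 ≤ Set.indicator S0 X2 t := Set.indicator_nonneg (fun t _ => hX20 t) t
      have a3 : 0 ≤ Set.indicator SY X1 t := Set.indicator_nonneg (fun t _ => hX10 t) t
      have a4 : 0 ≤ Set.indicator SY X2 t := Set.indicator_nonneg (fun t _ => hX20 t) t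
      positivity
    have hq0 : 0 ≤ q t := by rw [hq]; positivity
    by_cases htS : t ∈ S
    · rw [Set.indicator_of_mem htS]
      have hPn : ∀ (w : ℝ), |w| ≤ Real.sqrt (La T) → ∀ s, NE T 1 s → ‖PVc Z (wc T w) s‖ ≤ (l : ℝ) / 10 := by
        intro w hw s hs
        rw [PVc_wc, norm_mul, Complex.norm_I, one_mul]
        have h1 := PV_bd (m := 1) le_rfl hY0 hL0 (fun _ => w) (by rwa [Fin.sum_univ_one]) hs
        have h2 := le_el (T := T)
        linarith
      have r1 := eet _ (hPn u (by linarith) t htS.1)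
      have r2 := eet _ (hPn u' (by linarith) (t + h) htS.2)
      have r3 := eet _ (hPn (-u) (by rw [abs_neg]; linarith) t htS.1)
      have r4 := eet _ (hPn (-u') (by rw [abs_neg]; linarith) (t + h) htS.2)
      set e1 := Complex.exp (PVc Z (wc T u) t) with he1
      set e2 := Complex.exp (PVc Z (wc T u') (t + h)) with he2
      set e3 := Complex.exp (PVc Z (wc T (-u)) t) with he3
      set e4 := Complex.exp (PVc Z (wc T (-u')) (t + h)) with he4
      have r3' : ‖(starRingEnd ℂ) (E3 t) - (starRingEnd ℂ) e3‖ ≤ δ * ‖(starRingEnd ℂ) e3‖ := by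
        rw [← map_sub, RCLike.norm_conj, RCLike.norm_conj]; exact r3
      have r4' : ‖(starRingEnd ℂ) (E4 t) - (starRingEnd ℂ) e4‖ ≤ δ * ‖(starRingEnd ℂ) e4‖ := by
        rw [← map_sub, RCLike.norm_conj, RCLike.norm_conj]; exact r4
      have r5 := four_le hδ0 hδ1 r1 r2 r3' r4'
      have hch := char_eq hY0 u u' t (t + h)
      have hce : Complex.exp (((u * De T 1 0 t + u' * De T 1 0 (t + h) : ℝ) : ℂ) * Complex.I) =
          c * ((e1 * e2) * ((starRingEnd ℂ) e3 * (starRingEnd ℂ) e4)) := hch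
      have hn1 : ‖(e1 * e2) * ((starRingEnd ℂ) e3 * (starRingEnd ℂ) e4)‖ = 1 := by
        have h1 : ‖c * ((e1 * e2) * ((starRingEnd ℂ) e3 * (starRingEnd ℂ) e4))‖ = 1 := by
          rw [← hce, Complex.norm_exp_ofReal_mul_I]
        rwa [norm_mul, hc1, one_mul] at h1
      rw [hn1, mul_one] at r5
      have hchi := hCHI t h (by linarith [ht.1]) hh0 (by
        refine hhB.trans (s1.trans ?_)
        rw [← Real.sqrt_eq_rpow]
        exact Real.sqrt_le_sqrt ht.1)
      rw [← wt_eq hT0 ht.1] at hchi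
      have hchi2 : ‖(starRingEnd ℂ) (chi t) * chi (t + h) - wt h T t‖ ≤ CH * (1 + h ^ 2) / T := by
        refine hchi.trans ?_
        exact div_le_div_of_nonneg_left (by positivity) hT0 ht.1
      have hid : F0 t - G t = (Dp η T t ^ 2 * (starRingEnd ℂ) (Dp η T (t + h)) ^ 2) *
          (((starRingEnd ℂ) (chi t) * chi (t + h) - wt h T t) *
            (c * ((e1 * e2) * ((starRingEnd ℂ) e3 * (starRingEnd ℂ) e4))) -
          (wt h T t * c) * ((E1 t * E2 t) * ((starRingEnd ℂ) (E3 t) * (starRingEnd ℂ) (E4 t)) -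
            (e1 * e2) * ((starRingEnd ℂ) e3 * (starRingEnd ℂ) e4))) := by
        rw [hF0, hG]
        simp only
        rw [hce, hAe, hBe, map_mul, map_mul, map_pow]
        ring
      rw [hid, norm_mul]
      have h1 : ‖Dp η T t ^ 2 * (starRingEnd ℂ) (Dp η T (t + h)) ^ 2‖ = q t := by
        rw [norm_mul, norm_pow, norm_pow, RCLike.norm_conj]
      rw [h1]
      have h2 : ‖((starRingEnd ℂ) (chi t) * chi (t + h) - wt h T t) *
            (c * ((e1 * e2) * ((starRingEnd ℂ) e3 * (starRingEnd ℂ) e4))) -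
          (wt h T t * c) * ((E1 t * E2 t) * ((starRingEnd ℂ) (E3 t) * (starRingEnd ℂ) (E4 t)) -
            (e1 * e2) * ((starRingEnd ℂ) e3 * (starRingEnd ℂ) e4))‖ ≤ κ0 := by
        refine (norm_sub_le _ _).trans ?_
        rw [norm_mul, norm_mul c, hc1, hn1, one_mul, mul_one, norm_mul, norm_mul, wt_norm, hc1, one_mul, one_mul]
        exact add_le_add hchi2 r5
      calc q t * _ ≤ q t * κ0 := mul_le_mul_of_nonneg_left h2 hq0
        _ ≤ _ := by linarith
    · rw [Set.indicator_of_notMem htS, zero_sub, norm_neg]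
      have h1 : ‖G t‖ ≤ (1 / 2) * (X1 t + X2 t) := by
        rw [hG]
        simp only
        rw [norm_mul, hc1, one_mul, norm_mul, norm_mul, wt_norm, one_mul, RCLike.norm_conj, hAe, hBe, hX1, hX2]
        simp only [norm_mul, norm_pow, pow_one]
        nlinarith [sq_nonneg (‖Dp η T t‖ * ‖Dp η T (t + h)‖ * ‖E1 t‖ * ‖E2 t‖ -
          ‖Dp η T t‖ * ‖Dp η T (t + h)‖ * ‖E3 t‖ * ‖E4 t‖)]
      have h2 : t ∈ S0 ∨ t ∈ SY := by
        by_contra hcon
        push Not at hcon
        apply htS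
        constructor
        · by_contra h3
          rcases not_NE h3 with h4 | h4
          · exact hcon.1 (Or.inl h4)
          · exact hcon.2 (Or.inl h4)
        · by_contra h3
          rcases not_NE h3 with h4 | h4
          · exact hcon.1 (Or.inr h4)
          · exact hcon.2 (Or.inr h4)
      have h3 : 0 ≤ κ0 * q t := mul_nonneg hκ00 hq0
      have a1 : 0 ≤ Set.indicator S0 X1 t := Set.indicator_nonneg (fun t _ => hX10 t) t
      have a2 : 0 ≤ Set.indicator S0 X2 t := Set.indicator_nonneg (fun t _ => hX20 t) t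
      have a3 : 0 ≤ Set.indicator SY X1 t := Set.indicator_nonneg (fun t _ => hX10 t) t
      have a4 : 0 ≤ Set.indicator SY X2 t := Set.indicator_nonneg (fun t _ => hX20 t) t
      rcases h2 with h2 | h2
      · have b1 := Set.indicator_of_mem h2 X1
        have b2 := Set.indicator_of_mem h2 X2
        linarith
      · have b1 := Set.indicator_of_mem h2 X1
        have b2 := Set.indicator_of_mem h2 X2
        linarith
  -- integration of the comparison
  have hcomp : ‖(∫ t in T..(3 * T), Set.indicator S F0 t) - ∫ t in T..(3 * T), G t‖ ≤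
      κ0 * (T * Real.exp (60 * La T)) + 2 * (T / Real.log T) := by
    rw [← intervalIntegral.integral_sub hFi hGi]
    refine (intervalIntegral.norm_integral_le_integral_norm (by linarith)).trans ?_
    have iq : IntervalIntegrable (fun t => κ0 * q t) volume T (3 * T) := (continuous_const.mul hqc).intervalIntegrable _ _
    have iX : IntervalIntegrable (fun t => (1 / 2 : ℝ) * (Set.indicator S0 X1 t + Set.indicator S0 X2 t +
        Set.indicator SY X1 t + Set.indicator SY X2 t)) volume T (3 * T) :=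
      (((i01.add i02).add iY1).add iY2).const_mul _
    have h1 : ∫ t in T..(3 * T), ‖Set.indicator S F0 t - G t‖ ≤ ∫ t in T..(3 * T), (κ0 * q t +
        (1 / 2) * (Set.indicator S0 X1 t + Set.indicator S0 X2 t + Set.indicator SY X1 t + Set.indicator SY X2 t)) :=
      intervalIntegral.integral_mono_on (by linarith) (hFi.sub hGi).norm (iq.add iX) hpt
    refine h1.trans ?_
    rw [intervalIntegral.integral_add iq iX, intervalIntegral.integral_const_mul, intervalIntegral.integral_const_mul,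
      intervalIntegral.integral_add ((i01.add i02).add iY1) iY2, intervalIntegral.integral_add (i01.add i02) iY1,
      intervalIntegral.integral_add i01 i02]
    have h2 := mul_le_mul_of_nonneg_left (ema h) hκ00
    have h3 : (1 / 2 : ℝ) * ((∫ t in T..(3 * T), Set.indicator S0 X1 t) + (∫ t in T..(3 * T), Set.indicator S0 X2 t) +
        (∫ t in T..(3 * T), Set.indicator SY X1 t) + ∫ t in T..(3 * T), Set.indicator SY X2 t) ≤ 2 * (T / Real.log T) := by
      linarith
    exact add_le_add h2 h3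
  -- the main integral
  have hmain : ‖∫ t in T..(3 * T), G t‖ ≤ 2 * T * (Real.exp (La T / 2) * Real.exp (La T / 8)) +
      CB * ⌊T ^ (1 - 3 * η)⌋₊ * (1 + 2 * h) * Real.exp (60 * La T) := by
    rw [hG, intervalIntegral.integral_const_mul, norm_mul, hc1, one_mul]
    have h1 := hBMV _ fA fB hFA hFB T (3 * T) (1 + 2 * h) (wt h T) (by linarith) (wt_contDiff hT0)
      (fun t _ => by rw [wt_norm]; linarith) ((wt_var hT0 hh0).trans (by linarith))
    rw [← ip_fin hFA] at h1
    have h2 : ‖(∫ t in T..(3 * T), wt h T t) * ip fA fB‖ ≤ 2 * T * (Real.exp (La T / 2) * Real.exp (La T / 8)) := by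
      rw [norm_mul]
      have a1 : ‖∫ t in T..(3 * T), wt h T t‖ ≤ 2 * T := by
        have := intervalIntegral.norm_integral_le_of_norm_le_const (a := T) (b := 3 * T) (C := 1)
          (f := wt h T) (fun t _ => (wt_norm h T t).le)
        rw [one_mul, abs_of_pos (by linarith)] at this
        linarith
      have a2 : ip fA fB = ip (QT l Z 0 h (wc T u) (wc T u')) (QT l Z h h (wc T (-u)) (wc T (-u'))) *
          ip (RR η T 0) (RR η T h) :=
        ip_mul (FS_QT hE hEc (zc_pos _) (hz u) (hz u')) (FS_RR η T 0) (Su_QT (hz u) (hz u')) (Su_QT (hz (-u)) (hz (-u')))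
          (Su_RR η T 0) (Su_RR η T h)
      have a3 : ‖ip (RR η T 0) (RR η T h)‖ ≤ Real.exp (La T / 8) := by
        refine (ip_le (FS_RR η T 0) (FS_RR η T h)).trans ?_
        have b1 := (nm_RR hR η T 0).trans en1.1
        have b2 := (nm_RR hR η T h).trans en1.1
        linarith
      rw [a2, norm_mul]
      exact mul_le_mul a1 (mul_le_mul (esm h hh1 hh2) a3 (norm_nonneg _) (Real.exp_pos _).le)
        (by positivity) (by positivity)
    have h3 : Real.sqrt (nm fA * nm fB) ≤ Real.exp (60 * La T) := by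
      have b1 := en1.2 0 h
      have b2 := en2.2 h h
      have b3 : nm fA * nm fB ≤ Real.exp (60 * La T) ^ 2 := by
        rw [sq]
        exact mul_le_mul b1 b2 (nm_nonneg _) (Real.exp_pos _).le
      calc Real.sqrt (nm fA * nm fB) ≤ Real.sqrt (Real.exp (60 * La T) ^ 2) := Real.sqrt_le_sqrt b3
        _ = _ := Real.sqrt_sq (Real.exp_pos _).le
    have h4 : CB * ⌊T ^ (1 - 3 * η)⌋₊ * (1 + 2 * h) * Real.sqrt (nm fA * nm fB) ≤
        CB * ⌊T ^ (1 - 3 * η)⌋₊ * (1 + 2 * h) * Real.exp (60 * La T) :=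
      mul_le_mul_of_nonneg_left h3 (by positivity)
    have h5 : ∫ t in T..(3 * T), wt h T t * dp fA t * (starRingEnd ℂ) (dp fB t) =
        ((∫ t in T..(3 * T), wt h T t * dp fA t * (starRingEnd ℂ) (dp fB t)) -
          (∫ t in T..(3 * T), wt h T t) * ip fA fB) + (∫ t in T..(3 * T), wt h T t) * ip fA fB := by ring
    rw [h5]
    refine (norm_add_le _ _).trans ?_
    linarith
  -- sizes
  have z1 : CB * ⌊T ^ (1 - 3 * η)⌋₊ * (1 + 2 * h) * Real.exp (60 * La T) ≤ T := by
    have a1 : (⌊T ^ (1 - 3 * η)⌋₊ : ℝ) ≤ T ^ (1 - 3 * η) := Nat.floor_le (by positivity)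
    have a2 : 1 + 2 * h ≤ 3 * B1 := by linarith
    have a3 : B1 * Real.exp (60 * La T) ≤ T ^ η := by
      rw [hB1, ← Real.exp_add, ← add_mul]
      exact s3
    calc CB * ⌊T ^ (1 - 3 * η)⌋₊ * (1 + 2 * h) * Real.exp (60 * La T) ≤
          CB * T ^ (1 - 3 * η) * (3 * B1) * Real.exp (60 * La T) := by gcongr
      _ = (3 * CB) * T ^ (1 - 3 * η) * (B1 * Real.exp (60 * La T)) := by ring
      _ ≤ T ^ η * T ^ (1 - 3 * η) * T ^ η := by gcongr
      _ = T ^ (1 - η) := by
          rw [← Real.rpow_add hT0, ← Real.rpow_add hT0]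
          congr 1
          ring
      _ ≤ T ^ (1 : ℝ) := Real.rpow_le_rpow_of_exponent_le hT1.le (by linarith)
      _ = T := Real.rpow_one T
  have z2 : κ0 * (T * Real.exp (60 * La T)) ≤ 2 * T := by
    have a1 : CH * (1 + h ^ 2) / T * (T * Real.exp (60 * La T)) ≤ T := by
      have b1 : 1 + h ^ 2 ≤ 2 * B1 ^ 2 := by nlinarith [pow_le_pow_left₀ hh0 hhB 2, one_le_pow₀ hB11 (n := 2)]
      have b2 : B1 ^ 2 * Real.exp (60 * La T) ≤ T ^ (1 / 2 : ℝ) := by
        rw [hB1, ← Real.exp_nat_mul, ← Real.exp_add]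
        refine le_trans (Real.exp_le_exp.2 (le_of_eq ?_)) s2
        push_cast
        ring
      calc CH * (1 + h ^ 2) / T * (T * Real.exp (60 * La T)) = CH * (1 + h ^ 2) * Real.exp (60 * La T) := by
            field_simp
        _ ≤ CH * (2 * B1 ^ 2) * Real.exp (60 * La T) := by gcongr
        _ = (2 * CH) * (B1 ^ 2 * Real.exp (60 * La T)) := by ring
        _ ≤ T ^ (1 / 2 : ℝ) * T ^ (1 / 2 : ℝ) := by gcongr
        _ = T := by
            rw [← Real.rpow_add hT0]
            norm_num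
    have a2 : 15 * δ * (T * Real.exp (60 * La T)) ≤ T := by
      have b1 : δ * Real.exp (60 * La T) ≤ 1 / 15 := by
        rw [hδ, ← Real.exp_add]
        have b2 := le_el (T := T)
        have b3 : -(l : ℝ) + 60 * La T ≤ -(340 * La T) := by linarith
        refine (Real.exp_le_exp.2 b3).trans ?_
        rw [Real.exp_neg, one_div]
        refine inv_anti₀ (by norm_num) ?_
        have := Real.add_one_le_exp (340 * La T)
        linarith
      calc 15 * δ * (T * Real.exp (60 * La T)) = 15 * T * (δ * Real.exp (60 * La T)) := by ring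
        _ ≤ 15 * T * (1 / 15) := mul_le_mul_of_nonneg_left b1 (by positivity)
        _ = T := by ring
    rw [hκ0, add_mul]
    linarith
  have hexpL : Real.exp (La T) = Real.log T := hlog.symm
  have z3 : 2 * (T / Real.log T) ≤ T := by
    have a1 : 2 ≤ Real.log T := by
      rw [← hexpL]
      have := Real.add_one_le_exp (La T)
      linarith
    rw [mul_div_assoc', div_le_iff₀ hlog0]
    nlinarith
  have z4 : 2 * T * (Real.exp (La T / 2) * Real.exp (La T / 8)) + 4 * T ≤ T * Real.log T := by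
    rw [← hexpL, ← Real.exp_add]
    have a1 : Real.exp (La T) = Real.exp (La T / 2 + La T / 8) * Real.exp (3 * La T / 8) := by
      rw [← Real.exp_add]
      congr 1
      ring
    have a2 : 1 ≤ Real.exp (La T / 2 + La T / 8) := Real.one_le_exp (by positivity)
    rw [a1]
    have a3 : Real.exp (La T / 2 + La T / 8) * 8 ≤ Real.exp (La T / 2 + La T / 8) * Real.exp (3 * La T / 8) :=
      mul_le_mul_of_nonneg_left s7 (by positivity)
    nlinarith
  have hfin : (∫ t in T..(3 * T), Set.indicator S F0 t) =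
      ((∫ t in T..(3 * T), Set.indicator S F0 t) - ∫ t in T..(3 * T), G t) + ∫ t in T..(3 * T), G t := by ring
  show ‖∫ t in T..(3 * T), Set.indicator S F0 t‖ ≤ T * Real.log T
  rw [hfin]
  refine (norm_add_le _ _).trans ?_
  linarith

end

end Pool.Agent.Q251.EW
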