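import Pool.Agent.Q80.EW.Stm5
import Pool.Agent.Q237.EW.One

set_option autoImplicit false

/-!
# Project EWD, job TWOw: the wide version of TWO (adapted from Pool.Agent.Q237.EW.One)
-/

open Filter Topology Finset

namespace Pool.Agent.Q251.EW

open Pool.Agent.Q80.EW Pool.Agent.Q237.EW

/-- The sums of the real parts of the characters over the blocks. -/
theorem block_bound_w (hM : J_MERT) (hPS : J_PS) (κ0 K : ℝ) (hκ0 : 0 < κ0) : ∃ C0 : ℝ, 0 ≤ C0 ∧ ∀ᶠ T in atTop,
    ∀ h : ℝ, κ0 ≤ h → h ≤ Real.exp (K * La T) → ∀ α β : ℝ, 0 ≤ α → α ≤ β →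
    |∑ p ∈ bl α β, (om h p).re / p| ≤ 3 * Real.log (La T) + C0 := by
  obtain ⟨D, hM⟩ := hM
  obtain ⟨E, c, hE, hc, hPS⟩ := hPS
  refine ⟨|D| + 3 * E, by positivity, ?_⟩
  filter_upwards [tendsto_La.eventually_ge_atTop 1,
    (Real.tendsto_sqrt_atTop.comp tendsto_La).eventually_ge_atTop (|K| / c),
    tendsto_La.eventually_ge_atTop (1 / κ0)]
    with T hL hLK hLκ h hh1 hh2 α β hα hαβ
  have hL0 : 0 < La T := by linarith
  have hlog : 0 ≤ Real.log (La T) := Real.log_nonneg hL
  set y0 := 3 * Real.log (La T) with hy0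
  have hy00 : 0 ≤ y0 := by positivity
  set γ := max α (min β y0) with hγ
  have hγ1 : α ≤ γ := le_max_left _ _
  have hγ2 : γ ≤ β := max_le hαβ (min_le_left _ _)
  have hpos : ∀ a b : ℝ, ∀ p ∈ bl a b, 0 < p := by
    intro a b p hp
    unfold bl at hp
    exact (Finset.mem_filter.1 hp).2.pos
  have hsplit : ∑ p ∈ bl α β, (om h p).re / p =
      ∑ p ∈ bl α γ, (om h p).re / p + ∑ p ∈ bl γ β, (om h p).re / p := by
    rw [sum_bl hαβ, sum_bl hγ1, sum_bl hγ2]
    ring
  have h1 : |∑ p ∈ bl α γ, (om h p).re / p| ≤ y0 + |D| := by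
    have e1 : |∑ p ∈ bl α γ, (om h p).re / p| ≤ VV γ - VV α := by
      rw [← sum_bl_inv hγ1]
      refine (Finset.abs_sum_le_sum_abs _ _).trans (Finset.sum_le_sum fun p hp => ?_)
      rw [abs_div, Nat.abs_cast]
      exact div_le_div_of_nonneg_right (norm_re_om (hpos _ _ p hp)) (by positivity)
    refine e1.trans ?_
    rcases le_total α (min β y0) with h2 | h2
    · have e2 : γ = min β y0 := max_eq_right h2
      have e3 : γ ≤ y0 := by
        rw [e2]
        exact min_le_right _ _
      have e4 := VV_mono e3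
      have e5 := (abs_le.1 (hM y0 hy00)).2
      have e6 := le_abs_self D
      have e7 : 0 ≤ VV α := by
        unfold VV
        exact Finset.sum_nonneg fun p _ => by positivity
      linarith
    · have e2 : γ = α := max_eq_left h2
      rw [e2, sub_self]
      positivity
  have h2 : |∑ p ∈ bl γ β, (om h p).re / p| ≤ 3 * E := by
    by_cases h3 : y0 ≤ γ
    · have hh0 : 0 < h := by linarith
      have h4 := hPS h hh0.ne' (zc γ) (zc β) (two_le_zc (hα.trans hγ1)) (zc_mono hγ2)
      refine (sum_re_le (bl γ β) (hpos _ _)).trans (h4.trans ?_)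
      rw [abs_of_pos hh0]
      have e1 : La T ^ 3 ≤ Real.log (zc γ) := by
        have e2 := exp_le_log_zc γ
        have e3 : Real.exp y0 = La T ^ 3 := by
          have e4 : y0 = ((3 : ℕ) : ℝ) * Real.log (La T) := by
            rw [hy0]
            norm_num
          rw [e4, Real.exp_nat_mul, Real.exp_log hL0]
        rw [← e3]
        exact (Real.exp_le_exp.2 h3).trans e2
      have e5 : 1 ≤ La T ^ 3 := one_le_pow₀ hL
      have e6 : E / (h * Real.log (zc γ)) ≤ E := by
        apply div_le_self hE.le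
        have f1 : 1 ≤ κ0 * La T := by
          rw [div_le_iff₀ hκ0] at hLκ; linarith
        have f2 : La T ≤ La T ^ 3 := by nlinarith [mul_self_nonneg (La T - 1)]
        calc (1 : ℝ) ≤ κ0 * La T := f1
          _ ≤ κ0 * La T ^ 3 := mul_le_mul_of_nonneg_left f2 hκ0.le
          _ ≤ h * Real.log (zc γ) := mul_le_mul hh1 e1 (by positivity) hh0.le
      have e7 : La T * Real.sqrt (La T) ≤ Real.sqrt (Real.log (zc γ)) := by
        refine (le_abs_self _).trans (Real.abs_le_sqrt ?_)
        rw [mul_pow, Real.sq_sqrt hL0.le]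
        refine le_trans (le_of_eq ?_) e1
        ring
      have e8 : |K| * La T ≤ c * Real.sqrt (Real.log (zc γ)) := by
        have e9 : |K| ≤ c * Real.sqrt (La T) := by
          have hLK' : |K| / c ≤ Real.sqrt (La T) := hLK
          rw [div_le_iff₀ hc] at hLK'
          linarith
        calc |K| * La T ≤ c * Real.sqrt (La T) * La T :=
              mul_le_mul_of_nonneg_right e9 hL0.le
          _ = c * (La T * Real.sqrt (La T)) := by ring
          _ ≤ _ := mul_le_mul_of_nonneg_left e7 hc.le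
      have e9 : E * (1 + h) * Real.exp (-(c * Real.sqrt (Real.log (zc γ)))) ≤ 2 * E := by
        have f0 : K * La T ≤ |K| * La T := mul_le_mul_of_nonneg_right (le_abs_self K) hL0.le
        have f2 : h ≤ Real.exp (|K| * La T) := hh2.trans (Real.exp_le_exp.2 f0)
        have f3 : 1 ≤ Real.exp (|K| * La T) := Real.one_le_exp (by positivity)
        have f1 : E * (1 + h) ≤ 2 * E * Real.exp (|K| * La T) := by nlinarith
        calc E * (1 + h) * Real.exp (-(c * Real.sqrt (Real.log (zc γ))))
            ≤ 2 * E * Real.exp (|K| * La T) *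
              Real.exp (-(c * Real.sqrt (Real.log (zc γ)))) :=
              mul_le_mul_of_nonneg_right f1 (Real.exp_pos _).le
          _ = 2 * E * Real.exp (|K| * La T + -(c * Real.sqrt (Real.log (zc γ)))) := by
              rw [Real.exp_add]
              ring
          _ ≤ 2 * E * 1 := by
              refine mul_le_mul_of_nonneg_left ?_ (by positivity)
              rw [Real.exp_le_one_iff]
              linarith
          _ = 2 * E := mul_one _
      linarith
    · push Not at h3
      have e1 : γ = β := by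
        refine le_antisymm hγ2 ?_
        have e2 : min β y0 ≤ γ := le_max_right _ _
        rcases le_total β y0 with e3 | e3
        · rwa [min_eq_left e3] at e2
        · rw [min_eq_right e3] at e2
          linarith
      rw [e1]
      have h4 : bl β β = ∅ := by
        unfold bl
        simp
      rw [h4, Finset.sum_empty, abs_zero]
      positivity
  rw [hsplit]
  refine (abs_add_le _ _).trans ?_
  linarith

theorem twow (hEU : J_EU) (hM : J_MERT) (hPS : J_PS) : J_TWOw := by
  intro m u u' κ0 K ε hm hκ0 hε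
  obtain ⟨C0, hC0, hB⟩ := block_bound_w hM hPS κ0 K hκ0
  obtain ⟨C, hC, hEU⟩ := hEU
  set L : ℝ := (∑ i, u i ^ 2 + ∑ i, u' i ^ 2) / (4 * m) with hL
  have hcont := Metric.continuousAt_iff.1 (Real.continuous_exp.continuousAt (x := L)) ε hε
  obtain ⟨δ, hδ, hcont⟩ := hcont
  have hR1 : Tendsto (fun T => |∑ i, cc T u i ^ 2 * dV T m i + ∑ i, cc T u' i ^ 2 * dV T m i - L|)
      atTop (𝓝 0) := by
    have h1 := ((tendsto_sq hM hm u).add (tendsto_sq hM hm u')).sub_const L
    have h2 : (∑ i, u i ^ 2) / (4 * (m : ℝ)) + (∑ i, u' i ^ 2) / (4 * m) - L = 0 := by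
      rw [hL]
      ring
    rw [h2] at h1
    have h3 := h1.abs
    rwa [abs_zero] at h3
  have hR2 : Tendsto (fun T => ∑ i, (|cc T u i| + |cc T u' i| + |cc T u i| * |cc T u' i|) *
      (3 * Real.log (La T) + C0)) atTop (𝓝 0) := by
    have h1 : ∀ i : Fin m, Tendsto (fun T => (|cc T u i| + |cc T u' i| +
        |cc T u i| * |cc T u' i|) * (3 * Real.log (La T) + C0)) atTop (𝓝 0) := by
      intro i
      have e1 := tendsto_cc_log u C0 i
      have e2 := tendsto_cc_log u' C0 i
      have e3 : Tendsto (fun T => |cc T u i|) atTop (𝓝 0) := by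
        refine squeeze_zero (fun T => abs_nonneg _) (fun T => ?_) (tendsto_cc u)
        exact Finset.single_le_sum (f := fun i => |cc T u i|) (fun j _ => abs_nonneg _)
          (Finset.mem_univ i)
      have e4 := (e1.add e2).add (e3.mul e2)
      rw [mul_zero, add_zero, add_zero] at e4
      refine e4.congr fun T => ?_
      ring
    have h3 := tendsto_finsetSum (Finset.univ : Finset (Fin m)) (fun i _ => h1 i)
    simpa using h3
  have hR3 : Tendsto (fun T => C * ((∑ i, |cc T u i| + ∑ i, |cc T u' i|) * 2)) atTop (𝓝 0) := by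
    have := (((tendsto_cc u).add (tendsto_cc u')).mul_const 2).const_mul C
    simpa using this
  have hR := (hR1.add (hR2.const_mul 2)).add hR3
  simp only [mul_zero, add_zero] at hR
  filter_upwards [ev_Yt, (tendsto_cc u).eventually (gt_mem_nhds (by norm_num : (0 : ℝ) < 2)),
    (tendsto_cc u').eventually (gt_mem_nhds (by norm_num : (0 : ℝ) < 2)), hB,
    hR.eventually (gt_mem_nhds hδ)] with T hT hT2 hT3 hBT hRT h hh1 hh2
  obtain ⟨hY, hYL, hL1⟩ := hT
  obtain ⟨-, g1, -, g2⟩ := hEU 1 1 (zc (Yt T)) h (ws T m (cc T u)) (ws T m (cc T u')) le_rfl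
    le_rfl (wt_ws hY _ hT2.le) (wt_ws hY _ hT3.le)
  obtain ⟨-, g0, -, -⟩ := hEU 1 1 (zc (Yt T)) h 0 0 le_rfl le_rfl (wt_zero _) (wt_zero _)
  set κ : Fin m → ℝ := fun i => cc T u i + (cc T u' i + cc T u i * cc T u' i) with hκ
  have h5 : ∑ p ∈ Nat.primesBelow (zc (Yt T)),
      (c1 1 1 h (ws T m (cc T u)) (ws T m (cc T u')) p - c1 1 1 h 0 0 p) / (p : ℝ) =
      (vu T m u + ∑ i, cc T u i ^ 2 * dV T m i) + (vu T m u' + ∑ i, cc T u' i ^ 2 * dV T m i) +
        2 * ∑ i, κ i * ∑ p ∈ bl (al T m i) (be T m i), (om h p).re / p := by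
    have e0 : ∀ u : Fin m → ℝ, vu T m u + ∑ i, cc T u i ^ 2 * dV T m i =
        ∑ p ∈ Nat.primesBelow (zc (Yt T)),
          (2 * ws T m (cc T u) p + ws T m (cc T u) p ^ 2) / (p : ℝ) := by
      intro u
      rw [vu_eq, ← Finset.sum_add_distrib]
      have e1 : ∑ i, (2 * cc T u i * dV T m i + cc T u i ^ 2 * dV T m i) =
          ∑ i, (cc T u i + (cc T u i + cc T u i * cc T u i)) * dV T m i :=
        Finset.sum_congr rfl fun i _ => by ring
      rw [e1, ← sum_ws hY (fun i => cc T u i + (cc T u i + cc T u i * cc T u i))]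
      refine Finset.sum_congr rfl fun p hp => ?_
      congr 1
      rw [← ws_add (cc T u) (fun i => cc T u i + cc T u i * cc T u i),
        ← ws_add (cc T u) (fun i => cc T u i * cc T u i), ← ws_mul hY]
      ring
    rw [e0, e0, ← sum_ws_om hY κ h, Finset.mul_sum, ← Finset.sum_add_distrib,
      ← Finset.sum_add_distrib]
    refine Finset.sum_congr rfl fun p hp => ?_
    rw [c1_eq _ _ _ _ _ (primes_pos hp), c1_eq _ _ _ _ _ (primes_pos hp), hκ,
      ← ws_add (cc T u) (fun i => cc T u' i + cc T u i * cc T u' i),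
      ← ws_add (cc T u') (fun i => cc T u i * cc T u' i), ← ws_mul hY]
    simp only [Pi.zero_apply, Nat.cast_one]
    ring
  rw [h5] at g2
  have h6 := g2.trans (mul_le_mul_of_nonneg_left (sum_abs_ws (T := T) (cc T u) (cc T u')
    (zc (Yt T))) hC.le)
  have h7 : |∑ i, κ i * ∑ p ∈ bl (al T m i) (be T m i), (om h p).re / p| ≤
      ∑ i, (|cc T u i| + |cc T u' i| + |cc T u i| * |cc T u' i|) *
        (3 * Real.log (La T) + C0) := by
    refine (Finset.abs_sum_le_sum_abs _ _).trans (Finset.sum_le_sum fun i _ => ?_)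
    rw [abs_mul]
    have e1 := hBT h hh1 hh2 (al T m i) (be T m i) (al_nonneg hY i) (al_le_be hY i)
    refine mul_le_mul ?_ e1 (abs_nonneg _) (by positivity)
    rw [hκ]
    refine (abs_add_le _ _).trans ?_
    have e2 := abs_add_le (cc T u' i) (cc T u i * cc T u' i)
    rw [abs_mul] at e2
    linarith
  set S1 := ∑ i, cc T u i ^ 2 * dV T m i
  set S2 := ∑ i, cc T u' i ^ 2 * dV T m i
  set S3 := ∑ i, κ i * ∑ p ∈ bl (al T m i) (be T m i), (om h p).re / p
  set X1 := nm (GG 1 1 (zc (Yt T)) h (ws T m (cc T u)) (ws T m (cc T u'))) with hX1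
  set X0 := nm (GG 1 1 (zc (Yt T)) h 0 0) with hX0
  have h8 : |(Real.log X1 - Real.log X0 - vu T m u - vu T m u') - L| < δ := by
    refine lt_of_le_of_lt ?_ hRT
    have e1 : (Real.log X1 - Real.log X0 - vu T m u - vu T m u') - L =
        (S1 + S2 - L) + 2 * S3 + (Real.log X1 - Real.log X0 -
          ((vu T m u + S1) + (vu T m u' + S2) + 2 * S3)) := by ring
    rw [e1]
    refine (abs_add_le _ _).trans (add_le_add ((abs_add_le _ _).trans (add_le_add le_rfl ?_)) h6)
    rw [abs_mul, abs_of_pos (by norm_num : (0 : ℝ) < 2)]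
    exact mul_le_mul_of_nonneg_left h7 (by norm_num)
  have h9 := hcont (x := Real.log X1 - Real.log X0 - vu T m u - vu T m u') h8
  rw [Real.dist_eq] at h9
  have h10 : X1 / X0 * Real.exp (-(vu T m u) - vu T m u') =
      Real.exp (Real.log X1 - Real.log X0 - vu T m u - vu T m u') := by
    have e1 : Real.log X1 - Real.log X0 - vu T m u - vu T m u' =
        (Real.log X1 - Real.log X0) + (-(vu T m u) - vu T m u') := by ring
    rw [e1, Real.exp_add, Real.exp_sub (Real.log X1) (Real.log X0), Real.exp_log (by linarith),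
      Real.exp_log (by linarith)]
  rw [wu_eq, wu_eq, ← hX1, h10]
  exact h9.le

end Pool.Agent.Q251.EW
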