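import Pool.Agent.Q61.EW.EXCc
import Pool.Agent.Q153.EW.TAIL
import Pool.Agent.Q251.EW.TwoW

set_option autoImplicit false

/-!
# Project EWD, job OSM, first part: the diagonal term
-/

namespace Pool.Agent.Q251.EW

open Filter Topology MeasureTheory
open Pool.Agent.Q80.EW Pool.Agent.Q61.EW

noncomputable section

/-! ### the bilinear form -/

/-- `∑ f(n) conj g(n) / n` -/
def ip (f g : ArithmeticFunction ℂ) : ℂ := ∑' n : ℕ, f n * (starRingEnd ℂ) (g n) / (n : ℂ)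

/-- the products of the coefficients -/
def pq (f g : ArithmeticFunction ℂ) : ArithmeticFunction ℂ :=
  ⟨fun n => f n * (starRingEnd ℂ) (g n), by simp⟩

theorem pq_apply (f g : ArithmeticFunction ℂ) (n : ℕ) : pq f g n = f n * (starRingEnd ℂ) (g n) := rfl

theorem ip_ls (f g : ArithmeticFunction ℂ) : ip f g = LSeries (fun n => pq f g n) 1 := by
  unfold ip LSeries
  refine tsum_congr fun n => ?_
  rcases eq_or_ne n 0 with rfl | hn
  · simp
  · rw [LSeries.term_of_ne_zero hn, Complex.cpow_one, pq_apply]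

theorem FS_pq {X : ℕ} {f g : ArithmeticFunction ℂ} (hf : FS X f) : FS X (pq f g) := by
  intro n hn
  rw [pq_apply, hf n hn, zero_mul]

theorem ip_fin {X : ℕ} {f g : ArithmeticFunction ℂ} (hf : FS X f) :
    ip f g = ∑ n ∈ Finset.Icc 1 X, f n * (starRingEnd ℂ) (g n) / (n : ℂ) := by
  unfold ip
  rw [tsum_eq_sum (s := Finset.Icc 1 X)]
  intro n hn
  rcases Nat.eq_zero_or_pos n with rfl | h0
  · simp
  · have : X < n := by
      by_contra h
      exact hn (Finset.mem_Icc.2 ⟨by omega, by omega⟩)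
    rw [hf n this]
    simp

theorem ip_mul {Z X Y : ℕ} {f g f' g' : ArithmeticFunction ℂ} (hfX : FS X f) (hgY : FS Y g)
    (hf : Su (fun n => n ∈ Nat.smoothNumbers Z) f) (hf' : Su (fun n => n ∈ Nat.smoothNumbers Z) f')
    (hg : Su (fun n => ∀ p : ℕ, p.Prime → p ∣ n → Z ≤ p) g)
    (hg' : Su (fun n => ∀ p : ℕ, p.Prime → p ∣ n → Z ≤ p) g') :
    ip (f * g) (f' * g') = ip f f' * ip g g' := by
  -- uniqueness of the decomposition
  have hdvd : ∀ a b a' b' : ℕ, a * b = a' * b' → a ∈ Nat.smoothNumbers Z →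
      (∀ p : ℕ, p.Prime → p ∣ b' → Z ≤ p) → a ∣ a' := by
    intro a b a' b' he ha hb'
    have hco : Nat.Coprime a b' := by
      rw [Nat.coprime_iff_gcd_eq_one]
      by_contra hne
      obtain ⟨p, hp, hpd⟩ := Nat.exists_prime_and_dvd hne
      have h1 := Nat.mem_smoothNumbers'.mp ha p hp (hpd.trans (Nat.gcd_dvd_left _ _))
      have h2 := hb' p hp (hpd.trans (Nat.gcd_dvd_right _ _))
      omega
    exact hco.dvd_of_dvd_mul_right (he ▸ Dvd.intro b rfl)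
  set Q : ℕ × ℕ → Prop := fun x => x.1 ∈ Nat.smoothNumbers Z ∧ ∀ p : ℕ, p.Prime → p ∣ x.2 → Z ≤ p with hQ
  have hsq : (fun n => pq (f * g) (f' * g') n) = fun n => (pq f f' * pq g g') n := by
    funext n
    rw [pq_apply, ArithmeticFunction.mul_apply, ArithmeticFunction.mul_apply, ArithmeticFunction.mul_apply]
    have hz1 : ∀ y : ℕ × ℕ, ¬ Q y → f y.1 * g y.2 = 0 := by
      intro y hy
      by_contra h
      exact hy ⟨hf _ (left_ne_zero_of_mul h), hg _ (right_ne_zero_of_mul h)⟩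
    have hz2 : ∀ y : ℕ × ℕ, ¬ Q y → f' y.1 * g' y.2 = 0 := by
      intro y hy
      by_contra h
      exact hy ⟨hf' _ (left_ne_zero_of_mul h), hg' _ (right_ne_zero_of_mul h)⟩
    have hz3 : ∀ y : ℕ × ℕ, ¬ Q y → pq f f' y.1 * pq g g' y.2 = 0 := by
      intro y hy
      rw [pq_apply, pq_apply]
      have := hz1 y hy
      calc f y.1 * (starRingEnd ℂ) (f' y.1) * (g y.2 * (starRingEnd ℂ) (g' y.2)) =
          (f y.1 * g y.2) * ((starRingEnd ℂ) (f' y.1) * (starRingEnd ℂ) (g' y.2)) := by ring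
        _ = 0 := by rw [this, zero_mul]
    by_cases hex : ∃ x ∈ n.divisorsAntidiagonal, Q x
    · obtain ⟨x, hx, hxQ⟩ := hex
      have hz : ∀ y ∈ n.divisorsAntidiagonal, y ≠ x → ¬ Q y := by
        intro y hy hyx hQy
        apply hyx
        rw [Nat.mem_divisorsAntidiagonal] at hx hy
        have he : y.1 * y.2 = x.1 * x.2 := hy.1.trans hx.1.symm
        have h1 : y.1 = x.1 := Nat.dvd_antisymm (hdvd _ _ _ _ he hQy.1 hxQ.2) (hdvd _ _ _ _ he.symm hxQ.1 hQy.2)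
        have hx0 : 0 < x.1 := Nat.pos_of_ne_zero fun h0 => hx.2 (by rw [← hx.1, h0, zero_mul])
        have h2 : y.2 = x.2 := by
          rw [h1] at he
          exact Nat.eq_of_mul_eq_mul_left hx0 he
        exact Prod.ext h1 h2
      rw [Finset.sum_eq_single_of_mem x hx fun y hy hyx => hz1 y (hz y hy hyx),
        Finset.sum_eq_single_of_mem x hx fun y hy hyx => hz2 y (hz y hy hyx),
        Finset.sum_eq_single_of_mem x hx fun y hy hyx => hz3 y (hz y hy hyx), pq_apply, pq_apply, map_mul]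
      ring
    · push Not at hex
      rw [Finset.sum_eq_zero fun y hy => hz1 y (hex y hy), Finset.sum_eq_zero fun y hy => hz3 y (hex y hy)]
      simp
  have hmul := ArithmeticFunction.LSeries_mul' (LSS (FS_pq (g := f') hfX) 1) (LSS (FS_pq (g := g') hgY) 1)
  rw [ip_ls, hsq, ip_ls f f', ip_ls g g']
  exact hmul

theorem ip_le {X : ℕ} {f g : ArithmeticFunction ℂ} (hf : FS X f) (hg : FS X g) :
    ‖ip f g‖ ≤ (nm f + nm g) / 2 := by
  rw [ip_fin hf, nm_eq hf, nm_eq hg, ← Finset.sum_add_distrib, Finset.sum_div]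
  refine (norm_sum_le _ _).trans (Finset.sum_le_sum fun n _ => ?_)
  rw [norm_div, norm_mul, RCLike.norm_conj, Complex.norm_natCast, ← add_div, div_right_comm]
  refine div_le_div_of_nonneg_right ?_ (Nat.cast_nonneg n)
  nlinarith [sq_nonneg (‖f n‖ - ‖g n‖)]

/-! ### truncation -/

theorem ip_tail {l Z : ℕ} {v v' : ℕ → ℝ} (hv : Wt Z v) (hv' : Wt Z v') {f f' g g' : ArithmeticFunction ℂ}
    (d1 : Pool.Agent.Q153.EW.Dom f (Pool.Agent.Q153.EW.gg Z v v'))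
    (d2 : Pool.Agent.Q153.EW.Dom f' (Pool.Agent.Q153.EW.gg Z v v'))
    (d3 : Pool.Agent.Q153.EW.Dom g (Pool.Agent.Q153.EW.gg Z v v'))
    (d4 : Pool.Agent.Q153.EW.Dom g' (Pool.Agent.Q153.EW.gg Z v v'))
    (e1 : Pool.Agent.Q153.EW.Eql l f f') (e2 : Pool.Agent.Q153.EW.Eql l g g') :
    ‖ip f g - ip f' g'‖ ≤ 2 * (Real.exp (Pool.Agent.Q153.EW.KK * ∑' n : ℕ, 1 / (n : ℝ) ^ 2) *
      Real.exp (51 * ∑ p ∈ Nat.primesBelow Z, (1 : ℝ) / (p : ℝ))) * ((7 / 5 : ℝ) ^ l)⁻¹ := by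
  obtain ⟨hS, hle⟩ := Pool.Agent.Q153.EW.sum_FF hv hv'
  have hg0 : ∀ n, 0 ≤ Pool.Agent.Q153.EW.gg Z v v' n := Pool.Agent.Q153.EW.gg_nonneg Z v v'
  have hgF : ∀ n, Pool.Agent.Q153.EW.gg Z v v' n ^ 2 / (n : ℝ) ≤ Pool.Agent.Q153.EW.FF Z v v' n := by
    intro n
    unfold Pool.Agent.Q153.EW.FF
    refine div_le_div_of_nonneg_right ?_ (Nat.cast_nonneg n)
    exact le_mul_of_one_le_right (sq_nonneg _) (one_le_pow₀ (by norm_num))
  have hsumm : ∀ f g : ArithmeticFunction ℂ, Pool.Agent.Q153.EW.Dom f (Pool.Agent.Q153.EW.gg Z v v') →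
      Pool.Agent.Q153.EW.Dom g (Pool.Agent.Q153.EW.gg Z v v') →
      Summable fun n : ℕ => f n * (starRingEnd ℂ) (g n) / (n : ℂ) := by
    intro f g hf hg
    refine Summable.of_norm_bounded hS (fun n => ?_)
    refine le_trans ?_ (hgF n)
    rw [norm_div, norm_mul, RCLike.norm_conj, Complex.norm_natCast, sq]
    exact div_le_div_of_nonneg_right (mul_le_mul (hf n) (hg n) (norm_nonneg _) (hg0 n)) (Nat.cast_nonneg n)
  unfold ip
  rw [← (hsumm _ _ d1 d3).tsum_sub (hsumm _ _ d2 d4)]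
  have hterm : ∀ n : ℕ, ‖f n * (starRingEnd ℂ) (g n) / (n : ℂ) - f' n * (starRingEnd ℂ) (g' n) / (n : ℂ)‖ ≤
      2 * (Pool.Agent.Q153.EW.FF Z v v' n * ((7 / 5 : ℝ) ^ l)⁻¹) := by
    intro n
    by_cases hn : ArithmeticFunction.cardFactors n ≤ l
    · rw [e1 n hn, e2 n hn, sub_self, norm_zero]
      have := Pool.Agent.Q153.EW.FF_nonneg Z v v' n
      positivity
    · push Not at hn
      rw [← sub_div, norm_div, Complex.norm_natCast]
      have h1 : ‖f n * (starRingEnd ℂ) (g n) - f' n * (starRingEnd ℂ) (g' n)‖ ≤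
          2 * Pool.Agent.Q153.EW.gg Z v v' n ^ 2 := by
        refine (norm_sub_le _ _).trans ?_
        rw [norm_mul, norm_mul, RCLike.norm_conj, RCLike.norm_conj]
        have a1 := mul_le_mul (d1 n) (d3 n) (norm_nonneg _) (hg0 n)
        have a2 := mul_le_mul (d2 n) (d4 n) (norm_nonneg _) (hg0 n)
        linarith [sq (Pool.Agent.Q153.EW.gg Z v v' n)]
      have h2 : (1 : ℝ) ≤ (7 / 5 : ℝ) ^ (ArithmeticFunction.cardFactors n) * ((7 / 5 : ℝ) ^ l)⁻¹ := by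
        rw [← div_eq_mul_inv, le_div_iff₀ (by positivity), one_mul]
        exact pow_le_pow_right₀ (by norm_num) hn.le
      calc ‖f n * (starRingEnd ℂ) (g n) - f' n * (starRingEnd ℂ) (g' n)‖ / (n : ℝ)
          ≤ 2 * Pool.Agent.Q153.EW.gg Z v v' n ^ 2 / (n : ℝ) := div_le_div_of_nonneg_right h1 (Nat.cast_nonneg n)
        _ ≤ 2 * Pool.Agent.Q153.EW.gg Z v v' n ^ 2 / (n : ℝ) *
            ((7 / 5 : ℝ) ^ (ArithmeticFunction.cardFactors n) * ((7 / 5 : ℝ) ^ l)⁻¹) :=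
            le_mul_of_one_le_right (by positivity) h2
        _ = 2 * (Pool.Agent.Q153.EW.FF Z v v' n * ((7 / 5 : ℝ) ^ l)⁻¹) := by
            unfold Pool.Agent.Q153.EW.FF
            ring
  refine (tsum_of_norm_bounded ((hS.mul_right _).mul_left 2).hasSum hterm).trans ?_
  rw [tsum_mul_left, tsum_mul_right, mul_assoc]
  exact mul_le_mul_of_nonneg_left (mul_le_mul_of_nonneg_right hle (by positivity)) (by norm_num)

/-- the norm of a dominated function -/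
theorem nm_gg {Z : ℕ} {v v' : ℕ → ℝ} (hv : Wt Z v) (hv' : Wt Z v') {f : ArithmeticFunction ℂ}
    (d1 : Pool.Agent.Q153.EW.Dom f (Pool.Agent.Q153.EW.gg Z v v')) :
    nm f ≤ Real.exp (Pool.Agent.Q153.EW.KK * ∑' n : ℕ, 1 / (n : ℝ) ^ 2) *
      Real.exp (51 * ∑ p ∈ Nat.primesBelow Z, (1 : ℝ) / (p : ℝ)) := by
  obtain ⟨hS, hle⟩ := Pool.Agent.Q153.EW.sum_FF hv hv'
  have hb : ∀ n : ℕ, ‖f n‖ ^ 2 / (n : ℝ) ≤ Pool.Agent.Q153.EW.FF Z v v' n := by
    intro n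
    have h1 : ‖f n‖ ^ 2 / (n : ℝ) ≤ Pool.Agent.Q153.EW.gg Z v v' n ^ 2 / (n : ℝ) :=
      div_le_div_of_nonneg_right (pow_le_pow_left₀ (norm_nonneg _) (d1 n) 2) (Nat.cast_nonneg n)
    refine h1.trans ?_
    unfold Pool.Agent.Q153.EW.FF
    refine div_le_div_of_nonneg_right ?_ (Nat.cast_nonneg n)
    exact le_mul_of_one_le_right (sq_nonneg _) (one_le_pow₀ (by norm_num))
  refine le_trans ?_ hle
  exact (hS.of_nonneg_of_le (fun n => by positivity) hb).tsum_le_tsum hb hS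

/-! ### the polynomials -/

theorem exc_mult (w : ℕ → ℂ) : (exc w).IsMultiplicative := by
  refine ⟨?_, fun {m n} hmn => ?_⟩
  · rw [Pool.Agent.Q61.EW.exc_apply, if_neg one_ne_zero]
    simp
  · rcases eq_or_ne m 0 with rfl | hm
    · simp
    rcases eq_or_ne n 0 with rfl | hn
    · simp
    rw [Pool.Agent.Q61.EW.exc_apply, Pool.Agent.Q61.EW.exc_apply, Pool.Agent.Q61.EW.exc_apply,
      if_neg (mul_ne_zero hm hn), if_neg hm, if_neg hn,
      Nat.factorization_mul hm hn, Finsupp.prod_add_index_of_disjoint]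
    exact Nat.Coprime.disjoint_primeFactors hmn

theorem exc_p (w : ℕ → ℂ) {p : ℕ} (hp : p.Prime) : exc w p = w p := by
  rw [Pool.Agent.Q61.EW.exc_apply, if_neg hp.ne_zero, hp.factorization, Finsupp.prod_single_index]
  · simp
  · simp

/-- the smooth part, not truncated -/
def QF (Z : ℕ) (a h : ℝ) (w w' : ℕ → ℂ) : ArithmeticFunction ℂ :=
  sh a (sm Z) * sh a (sm Z) * exc w * sh h (exc w')

/-- the smooth part, truncated -/
def QT (l Z : ℕ) (a h : ℝ) (w w' : ℕ → ℂ) : ArithmeticFunction ℂ :=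
  sh a (tr l (sm Z)) * sh a (tr l (sm Z)) * tr l (exc w) * sh h (tr l (exc w'))

/-- the rough part -/
def RR (η T a : ℝ) : ArithmeticFunction ℂ := sh a (ro (zc (Yt T)) (Nt η T)) * sh a (ro (zc (Yt T)) (Nt η T))

theorem dom_exc' {w : ℕ → ℂ} {v : ℕ → ℝ} (h : ∀ p, ‖w p‖ ≤ v p) :
    Pool.Agent.Q153.EW.Dom (exc w) (Pool.Agent.Q153.EW.nr (ex v)) := by
  intro n
  obtain ⟨r, hr, hr'⟩ := Dom_exc w v h n
  rw [Pool.Agent.Q153.EW.nr_apply, hr, Complex.norm_real, Real.norm_eq_abs]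
  exact hr'.trans (le_abs_self r)

theorem dom_QF {Z : ℕ} {a h : ℝ} {w w' : ℕ → ℂ} {v v' : ℕ → ℝ} (hw : ∀ p, ‖w p‖ ≤ v p) (hw' : ∀ p, ‖w' p‖ ≤ v' p) :
    Pool.Agent.Q153.EW.Dom (QF Z a h w w') (Pool.Agent.Q153.EW.gg Z v v') := by
  have h1 : Pool.Agent.Q153.EW.Dom (sh a (sm Z)) (Pool.Agent.Q153.EW.nr (sm Z)) :=
    Pool.Agent.Q153.EW.dom_sh (Pool.Agent.Q153.EW.dom_self _)
  exact ((h1.mul h1).mul (dom_exc' hw)).mul (Pool.Agent.Q153.EW.dom_sh (dom_exc' hw'))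

theorem dom_QT {l Z : ℕ} {a h : ℝ} {w w' : ℕ → ℂ} {v v' : ℕ → ℝ} (hw : ∀ p, ‖w p‖ ≤ v p) (hw' : ∀ p, ‖w' p‖ ≤ v' p) :
    Pool.Agent.Q153.EW.Dom (QT l Z a h w w') (Pool.Agent.Q153.EW.gg Z v v') := by
  have h1 : Pool.Agent.Q153.EW.Dom (sh a (tr l (sm Z))) (Pool.Agent.Q153.EW.nr (sm Z)) :=
    Pool.Agent.Q153.EW.dom_sh (Pool.Agent.Q153.EW.dom_tr (Pool.Agent.Q153.EW.dom_self _))
  exact ((h1.mul h1).mul (Pool.Agent.Q153.EW.dom_tr (dom_exc' hw))).mul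
    (Pool.Agent.Q153.EW.dom_sh (Pool.Agent.Q153.EW.dom_tr (dom_exc' hw')))

theorem eql_Q (l Z : ℕ) (a h : ℝ) (w w' : ℕ → ℂ) : Pool.Agent.Q153.EW.Eql l (QT l Z a h w w') (QF Z a h w w') :=
  (((Pool.Agent.Q153.EW.eql_sh a (Pool.Agent.Q153.EW.eql_tr l _)).mul
    (Pool.Agent.Q153.EW.eql_sh a (Pool.Agent.Q153.EW.eql_tr l _))).mul (Pool.Agent.Q153.EW.eql_tr l _)).mul
    (Pool.Agent.Q153.EW.eql_sh h (Pool.Agent.Q153.EW.eql_tr l _))

theorem Su_QF {Z : ℕ} {a h : ℝ} {w w' : ℕ → ℂ} (hw : ∀ p, Z ≤ p → w p = 0) (hw' : ∀ p, Z ≤ p → w' p = 0) :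
    Su (fun n => n ∈ Nat.smoothNumbers Z) (QF Z a h w w') :=
  ((((Su_sm Z).sh a).mul (Cl_smooth Z) ((Su_sm Z).sh a)).mul (Cl_smooth Z) (Su_exc hw)).mul
    (Cl_smooth Z) ((Su_exc hw').sh h)

theorem Su_QT {l Z : ℕ} {a h : ℝ} {w w' : ℕ → ℂ} (hw : ∀ p, Z ≤ p → w p = 0) (hw' : ∀ p, Z ≤ p → w' p = 0) :
    Su (fun n => n ∈ Nat.smoothNumbers Z) (QT l Z a h w w') :=
  (((((Su_sm Z).tr l).sh a).mul (Cl_smooth Z) (((Su_sm Z).tr l).sh a)).mul (Cl_smooth Z) ((Su_exc hw).tr l)).mul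
    (Cl_smooth Z) (((Su_exc hw').tr l).sh h)

theorem mult_QF (Z : ℕ) (a h : ℝ) (w w' : ℕ → ℂ) : (QF Z a h w w').IsMultiplicative :=
  (((Pool.Agent.Q153.EW.sh_mult a (Pool.Agent.Q153.EW.sm_mult Z)).mul
    (Pool.Agent.Q153.EW.sh_mult a (Pool.Agent.Q153.EW.sm_mult Z))).mul (exc_mult w)).mul
    (Pool.Agent.Q153.EW.sh_mult h (exc_mult w'))

theorem step_p {f g : ArithmeticFunction ℂ} {p : ℕ} (hp : p.Prime) (hf : f 1 = 1) (hg : g 1 = 1) :
    (f * g) p = g p + f p := by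
  have := Pool.Agent.Q153.EW.mul_pp f g hp 1
  rw [pow_one] at this
  rw [this, Finset.sum_range_succ, Finset.sum_range_one]
  simp [hf, hg]

theorem QF_p {Z : ℕ} {a h : ℝ} {w w' : ℕ → ℂ} {p : ℕ} (hp : p.Prime) (hpZ : p < Z) :
    QF Z a h w w' p = 2 * (p : ℂ) ^ (-((a : ℂ) * Complex.I)) + (w p + w' p * (p : ℂ) ^ (-((h : ℂ) * Complex.I))) := by
  have m1 := Pool.Agent.Q153.EW.sh_mult a (Pool.Agent.Q153.EW.sm_mult Z)
  have m2 := m1.mul m1
  have m3 := m2.mul (exc_mult w)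
  have s1 : sh a (sm Z) p = (p : ℂ) ^ (-((a : ℂ) * Complex.I)) := by
    rw [Pool.Agent.Q80.EW.sh_apply, Pool.Agent.Q153.EW.sm_apply, if_pos, one_mul]
    have := Pool.Agent.Q153.EW.pp_smooth hp hpZ 1
    rwa [pow_one] at this
  unfold QF
  rw [step_p hp m3.1 (Pool.Agent.Q153.EW.sh_mult h (exc_mult w')).1, step_p hp m2.1 (exc_mult w).1,
    step_p hp m1.1 m1.1, s1, exc_p w hp, Pool.Agent.Q80.EW.sh_apply, exc_p w' hp]
  ring

end

end Pool.Agent.Q251.EW
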