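import Pool.Agent.Q251.EW.OSMa

set_option autoImplicit false

/-!
# Project EWD, job OSM, second part: size of the diagonal term
-/

namespace Pool.Agent.Q251.EW

open Filter Topology MeasureTheory
open Pool.Agent.Q80.EW Pool.Agent.Q61.EW

noncomputable section

theorem wc_norm (T u : ℝ) (p : ℕ) : ‖wc T u p‖ ≤ |u| / (2 * Real.sqrt (La T)) := by
  unfold wc
  rw [norm_mul, Complex.norm_I, mul_one, Complex.norm_real, Real.norm_eq_abs, abs_mul, abs_div,
    abs_of_nonneg (by positivity : (0 : ℝ) ≤ 2 * Real.sqrt (La T))]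
  have h1 : |ind 0 (Yt T) p| ≤ 1 := by
    unfold ind
    split_ifs <;> simp
  calc |u| / (2 * Real.sqrt (La T)) * |ind 0 (Yt T) p| ≤ |u| / (2 * Real.sqrt (La T)) * 1 :=
        mul_le_mul_of_nonneg_left h1 (by positivity)
    _ = _ := mul_one _

theorem wc_zero (T u : ℝ) (p : ℕ) (hp : zc (Yt T) ≤ p) : wc T u p = 0 := by
  unfold wc ind
  rw [if_neg]
  · simp
  · rintro ⟨_, _, h⟩
    omega

theorem wc_neg (T u : ℝ) (p : ℕ) : wc T (-u) p = -wc T u p := by
  unfold wc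
  push_cast
  ring

theorem Wt_wc {T u : ℝ} (h : |u| / (2 * Real.sqrt (La T)) ≤ 1 / 2) : Wt (zc (Yt T)) (fun p => ‖wc T u p‖) := by
  intro p
  refine ⟨?_, fun hp => ?_⟩
  · show |‖wc T u p‖| ≤ 2
    rw [abs_of_nonneg (norm_nonneg _)]
    linarith [wc_norm T u p]
  · show ‖wc T u p‖ = 0
    rw [wc_zero T u p hp, norm_zero]

/-- the real part of the product of the coefficients at a prime -/
theorem re_pq (x w : ℂ) (hw : ‖w‖ = 1) :
    ((2 + x) * (starRingEnd ℂ) (2 * w - x)).re ≤ 4 * w.re + 4 * ‖x‖ := by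
  have h1 : (2 + x) * (starRingEnd ℂ) (2 * w - x) =
      4 * (starRingEnd ℂ) w - 2 * (starRingEnd ℂ) x + 2 * (x * (starRingEnd ℂ) w) - x * (starRingEnd ℂ) x := by
    rw [map_sub, map_mul, show (starRingEnd ℂ) 2 = 2 from Complex.conj_ofNat 2]
    ring
  rw [h1]
  have h2 : (x * (starRingEnd ℂ) x).re = ‖x‖ ^ 2 := by
    rw [Complex.mul_conj, Complex.ofReal_re, Complex.normSq_eq_norm_sq]
  have h3 : (x * (starRingEnd ℂ) w).re ≤ ‖x‖ := by
    refine (Complex.re_le_norm _).trans ?_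
    rw [norm_mul, RCLike.norm_conj, hw, mul_one]
  have h4 : -(x.re) ≤ ‖x‖ := by
    have := (abs_le.1 (Complex.abs_re_le_norm x)).1
    linarith
  have h5 : (4 * (starRingEnd ℂ) w - 2 * (starRingEnd ℂ) x + 2 * (x * (starRingEnd ℂ) w) - x * (starRingEnd ℂ) x).re =
      4 * w.re - 2 * x.re + 2 * (x * (starRingEnd ℂ) w).re - ‖x‖ ^ 2 := by
    rw [← h2]
    simp [Complex.add_re, Complex.sub_re, Complex.mul_re]
  rw [h5]
  nlinarith [sq_nonneg ‖x‖]

theorem pp_bd {Z : ℕ} {f : ArithmeticFunction ℂ} {v v' : ℕ → ℝ} (hv : Wt Z v) (hv' : Wt Z v')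
    (hf : f.IsMultiplicative) (hS : Su (fun n => n ∈ Nat.smoothNumbers Z) f)
    (d : Pool.Agent.Q153.EW.Dom f (Pool.Agent.Q153.EW.gg Z v v')) (p k : ℕ) (hp : p.Prime) :
    ‖f (p ^ k)‖ ≤ Real.exp 4 * ((k : ℝ) + 1) ^ 3 := by
  have he : 1 ≤ Real.exp 4 := Real.one_le_exp (by norm_num)
  have hk : (1 : ℝ) ≤ (k : ℝ) + 1 := by have := Nat.cast_nonneg (α := ℝ) k; linarith
  by_cases hpZ : p < Z
  · have h1 := (d (p ^ k)).trans (Pool.Agent.Q153.EW.gg_pp hp hpZ (hv p).1 (hv' p).1 k)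
    have h2 : (k : ℝ) + 1 ≤ ((k : ℝ) + 1) ^ 3 := le_self_pow₀ hk (by norm_num)
    nlinarith
  · rcases Nat.eq_zero_or_pos k with rfl | hk0
    · rw [pow_zero, hf.1, norm_one]
      push_cast
      linarith
    · have h1 : f (p ^ k) = 0 := by
        by_contra h
        have h2 := Nat.mem_smoothNumbers'.1 (hS _ h) p hp (dvd_pow_self p hk0.ne')
        exact hpZ h2
      rw [h1, norm_zero]
      positivity

theorem sv_pow (l : ℕ) : ((7 / 5 : ℝ) ^ l)⁻¹ ≤ Real.exp (-((l : ℝ) / 4)) := by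
  rw [Real.exp_neg]
  refine inv_anti₀ (Real.exp_pos _) ?_
  have h1 : 1 - (7 / 5 : ℝ)⁻¹ ≤ Real.log (7 / 5) := Real.one_sub_inv_le_log_of_pos (by norm_num)
  have h2 : (1 / 4 : ℝ) ≤ Real.log (7 / 5) := by norm_num at h1 ⊢; linarith
  have h3 : Real.exp (1 / 4) ≤ 7 / 5 := by
    rw [← Real.exp_log (by norm_num : (0 : ℝ) < 7 / 5)]
    exact Real.exp_le_exp.2 h2
  calc Real.exp ((l : ℝ) / 4) = Real.exp (1 / 4) ^ l := by
        rw [← Real.exp_nat_mul]
        congr 1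
        ring
    _ ≤ (7 / 5) ^ l := pow_le_pow_left₀ (Real.exp_pos _).le h3 l

/-- the main part of the diagonal term is small -/
theorem smooth_bd (hCEP : J_CEP) (hM : J_MERT) (hPS : J_PS) (u u' κ K : ℝ) (hκ : 0 < κ) : ∀ᶠ T : ℝ in atTop,
    ∀ h : ℝ, κ ≤ h → h ≤ Real.exp (K * La T) →
    ‖ip (QT (el T) (zc (Yt T)) 0 h (wc T u) (wc T u')) (QT (el T) (zc (Yt T)) h h (wc T (-u)) (wc T (-u')))‖ ≤
      Real.exp (La T / 2) := by
  obtain ⟨C0, hC0, hB⟩ := block_bound_w hM hPS κ K hκ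
  obtain ⟨D, hMT⟩ := hM
  obtain ⟨CE, hCE, hCEP⟩ := hCEP (Real.exp 4) (Real.exp_pos _)
  have hD0 : 0 ≤ D := (abs_nonneg _).trans (hMT 0 le_rfl)
  set S0 : ℝ := Real.exp (Pool.Agent.Q153.EW.KK * ∑' n : ℕ, 1 / (n : ℝ) ^ 2) with hS0
  have hS00 : 0 < S0 := Real.exp_pos _
  -- growth
  have g1 : ∀ᶠ T : ℝ in atTop, 12 * Real.log (La T) ≤ La T / 8 := by
    have h1 : Tendsto (fun x : ℝ => Real.log x / x) atTop (𝓝 0) := by
      have := Real.isLittleO_log_id_atTop.tendsto_div_nhds_zero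
      simpa using this
    have h2 := (h1.comp tendsto_La).eventually_le_const (by norm_num : (0 : ℝ) < 1 / 96)
    filter_upwards [h2, tendsto_La.eventually_ge_atTop 1] with T h3 h4
    have h5 : Real.log (La T) / La T ≤ 1 / 96 := h3
    rw [div_le_iff₀ (by linarith)] at h5
    linarith
  have g2 : ∀ᶠ T : ℝ in atTop, 2 * (|u| + |u'|) * Real.sqrt (La T) ≤ La T / 8 := by
    filter_upwards [(Real.tendsto_sqrt_atTop.comp tendsto_La).eventually_ge_atTop (16 * (|u| + |u'|)),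
      tendsto_La.eventually_ge_atTop 1] with T h1 h2
    have h1' : 16 * (|u| + |u'|) ≤ Real.sqrt (La T) := h1
    have h3 : Real.sqrt (La T) * Real.sqrt (La T) = La T := Real.mul_self_sqrt (by linarith)
    have h4 := Real.sqrt_nonneg (La T)
    nlinarith
  have g3 : ∀ᶠ T : ℝ in atTop, 4 * C0 + 4 * D + 4 * (D + D) + CE + Real.log 2 ≤ La T / 8 := by
    filter_upwards [tendsto_La.eventually_ge_atTop (8 * (4 * C0 + 4 * D + 4 * (D + D) + CE + Real.log 2))] with T h1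
    linarith
  have g4 : ∀ᶠ T : ℝ in atTop, 2 * (S0 * Real.exp (51 * D)) ≤ Real.exp (La T / 2) / 2 := by
    have h1 : Tendsto (fun T : ℝ => Real.exp (La T / 2)) atTop atTop :=
      Real.tendsto_exp_atTop.comp (tendsto_La.atTop_div_const (by norm_num))
    filter_upwards [h1.eventually_ge_atTop (2 * (2 * (S0 * Real.exp (51 * D))))] with T h2
    linarith
  have g5 : ∀ᶠ T : ℝ in atTop, |u| / (2 * Real.sqrt (La T)) ≤ 1 / 2 ∧ |u'| / (2 * Real.sqrt (La T)) ≤ 1 / 2 := by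
    filter_upwards [(Real.tendsto_sqrt_atTop.comp tendsto_La).eventually_ge_atTop (|u| + |u'| + 1)] with T h1
    have h1' : |u| + |u'| + 1 ≤ Real.sqrt (La T) := h1
    have h2 := abs_nonneg u
    have h3 := abs_nonneg u'
    constructor <;> rw [div_le_iff₀ (by linarith)] <;> linarith
  filter_upwards [g1, g2, g3, g4, g5, hB, tendsto_La.eventually_ge_atTop 1, Pool.Agent.Q237.EW.ev_Yt] with T g1 g2 g3 g4 g5 hB hL hYT h hh1 hh2
  obtain ⟨hY0, hYL, -⟩ := hYT
  have hL0 : 0 < La T := by linarith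
  have hs0 : 0 < Real.sqrt (La T) := Real.sqrt_pos.2 hL0
  set Z := zc (Yt T) with hZ
  have hWv := Wt_wc g5.1
  have hWv' := Wt_wc g5.2
  have hn : ∀ (w : ℝ) (p : ℕ), ‖wc T (-w) p‖ ≤ ‖wc T w p‖ := fun w p => by rw [wc_neg, norm_neg]
  have hz : ∀ (w : ℝ) (p : ℕ), Z ≤ p → wc T w p = 0 := fun w p hp => wc_zero T w p hp
  have d1 := dom_QF (Z := Z) (a := 0) (h := h) (fun p => le_refl ‖wc T u p‖) (fun p => le_refl ‖wc T u' p‖)
  have d2 := dom_QF (Z := Z) (a := h) (h := h) (hn u) (hn u')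
  have d3 := dom_QT (l := el T) (Z := Z) (a := 0) (h := h) (fun p => le_refl ‖wc T u p‖) (fun p => le_refl ‖wc T u' p‖)
  have d4 := dom_QT (l := el T) (Z := Z) (a := h) (h := h) (hn u) (hn u')
  have hVV : VV (Yt T) ≤ La T + D := by
    have h1 := abs_le.1 (hMT (Yt T) hY0)
    linarith [h1.2]
  have hVV0 : VV 0 ≤ D := by
    have h1 := abs_le.1 (hMT 0 le_rfl)
    linarith [h1.2]
  -- the tail
  have ht := ip_tail (l := el T) hWv hWv' d3 d1 d4 d2 (eql_Q _ _ _ _ _ _) (eql_Q _ _ _ _ _ _)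
  have ht2 : 2 * (S0 * Real.exp (51 * ∑ p ∈ Nat.primesBelow Z, (1 : ℝ) / (p : ℝ))) * ((7 / 5 : ℝ) ^ el T)⁻¹ ≤
      2 * (S0 * Real.exp (51 * D)) := by
    have h1 : Real.exp (51 * ∑ p ∈ Nat.primesBelow Z, (1 : ℝ) / (p : ℝ)) * ((7 / 5 : ℝ) ^ el T)⁻¹ ≤ Real.exp (51 * D) := by
      calc Real.exp (51 * ∑ p ∈ Nat.primesBelow Z, (1 : ℝ) / (p : ℝ)) * ((7 / 5 : ℝ) ^ el T)⁻¹ ≤
            Real.exp (51 * (La T + D)) * Real.exp (-((el T : ℝ) / 4)) := by
            refine mul_le_mul (Real.exp_le_exp.2 ?_) (sv_pow _) (by positivity) (Real.exp_pos _).le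
            have : ∑ p ∈ Nat.primesBelow Z, (1 : ℝ) / (p : ℝ) = VV (Yt T) := rfl
            rw [this]
            linarith
        _ = Real.exp (51 * (La T + D) + -((el T : ℝ) / 4)) := by rw [Real.exp_add]
        _ ≤ Real.exp (51 * D) := by
            refine Real.exp_le_exp.2 ?_
            have := le_el (T := T)
            linarith
    calc 2 * (S0 * Real.exp (51 * ∑ p ∈ Nat.primesBelow Z, (1 : ℝ) / (p : ℝ))) * ((7 / 5 : ℝ) ^ el T)⁻¹ =
          2 * (S0 * (Real.exp (51 * ∑ p ∈ Nat.primesBelow Z, (1 : ℝ) / (p : ℝ)) * ((7 / 5 : ℝ) ^ el T)⁻¹)) := by ring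
      _ ≤ 2 * (S0 * Real.exp (51 * D)) := by gcongr
  have htail := ht.trans ht2
  -- the Euler product
  have hc := hCEP Z _ _ (mult_QF Z 0 h (wc T u) (wc T u')) (mult_QF Z h h (wc T (-u)) (wc T (-u')))
    (Su_QF (hz u) (hz u')) (fun p k hp =>
      ⟨pp_bd hWv hWv' (mult_QF _ _ _ _ _) (Su_QF (hz u) (hz u')) d1 p k hp,
        pp_bd hWv hWv' (mult_QF _ _ _ _ _) (Su_QF (hz (-u)) (hz (-u'))) d2 p k hp⟩)
  have hsum : ∑ p ∈ Nat.primesBelow Z, (QF Z 0 h (wc T u) (wc T u') p *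
      (starRingEnd ℂ) (QF Z h h (wc T (-u)) (wc T (-u')) p)).re / (p : ℝ) ≤
      4 * (3 * Real.log (La T) + C0 + D) + 4 * ((|u| + |u'|) / (2 * Real.sqrt (La T))) * (La T + D) := by
    have h1 : ∀ p ∈ Nat.primesBelow Z, (QF Z 0 h (wc T u) (wc T u') p *
        (starRingEnd ℂ) (QF Z h h (wc T (-u)) (wc T (-u')) p)).re / (p : ℝ) ≤
        4 * ((Pool.Agent.Q237.EW.om h p).re / p) + 4 * ((|u| + |u'|) / (2 * Real.sqrt (La T))) * (1 / (p : ℝ)) := by
      intro p hp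
      have hpp := Nat.prime_of_mem_primesBelow hp
      have hpZ := Nat.lt_of_mem_primesBelow hp
      rw [QF_p hpp hpZ, QF_p hpp hpZ, wc_neg, wc_neg]
      have e1 : (p : ℂ) ^ (-(((0 : ℝ) : ℂ) * Complex.I)) = 1 := by simp
      rw [e1]
      set ω : ℂ := (p : ℂ) ^ (-((h : ℂ) * Complex.I)) with hω
      have hω1 : ‖ω‖ = 1 := norm_cpow_I p hpp.ne_zero h
      set x : ℂ := wc T u p + wc T u' p * ω with hx
      have e2 : 2 * (1 : ℂ) + x = 2 + x := by ring
      have e3 : 2 * ω + (-wc T u p + -wc T u' p * ω) = 2 * ω - x := by rw [hx]; ring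
      rw [e2, e3]
      have e4 := re_pq x ω hω1
      have e5 : ‖x‖ ≤ (|u| + |u'|) / (2 * Real.sqrt (La T)) := by
        rw [hx, add_div]
        refine (norm_add_le _ _).trans (add_le_add (wc_norm T u p) ?_)
        rw [norm_mul, hω1, mul_one]
        exact wc_norm T u' p
      have e6 : (Pool.Agent.Q237.EW.om h p).re = ω.re := rfl
      rw [e6]
      have hp0 : (0 : ℝ) < p := by exact_mod_cast hpp.pos
      rw [div_le_iff₀ hp0]
      have e7 : (4 * (ω.re / p) + 4 * ((|u| + |u'|) / (2 * Real.sqrt (La T))) * (1 / (p : ℝ))) * p =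
          4 * ω.re + 4 * ((|u| + |u'|) / (2 * Real.sqrt (La T))) := by
        field_simp
      rw [e7]
      linarith
    refine (Finset.sum_le_sum h1).trans ?_
    rw [Finset.sum_add_distrib, ← Finset.mul_sum, ← Finset.mul_sum]
    have h2 : ∑ p ∈ Nat.primesBelow Z, (1 : ℝ) / (p : ℝ) = VV (Yt T) := rfl
    rw [h2]
    have h3 := Pool.Agent.Q237.EW.sum_bl hY0 (fun p => (Pool.Agent.Q237.EW.om h p).re / p)
    have h4 := (abs_le.1 (hB h hh1 hh2 0 (Yt T) le_rfl hY0)).2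
    have h5 : ∑ p ∈ Nat.primesBelow (zc 0), (Pool.Agent.Q237.EW.om h p).re / p ≤ VV 0 := by
      unfold VV
      refine Finset.sum_le_sum fun p hp => ?_
      have hpp := Nat.prime_of_mem_primesBelow hp
      exact div_le_div_of_nonneg_right ((le_abs_self _).trans (Pool.Agent.Q237.EW.norm_re_om hpp.pos)) (by positivity)
    have h6 : ∑ p ∈ Nat.primesBelow Z, (Pool.Agent.Q237.EW.om h p).re / p ≤ 3 * Real.log (La T) + C0 + D := by
      rw [hZ]
      linarith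
    have h7 : 4 * ((|u| + |u'|) / (2 * Real.sqrt (La T))) * VV (Yt T) ≤
        4 * ((|u| + |u'|) / (2 * Real.sqrt (La T))) * (La T + D) :=
      mul_le_mul_of_nonneg_left hVV (by positivity)
    linarith
  have hexp : 4 * (3 * Real.log (La T) + C0 + D) + 4 * ((|u| + |u'|) / (2 * Real.sqrt (La T))) * (La T + D) + CE ≤
      La T / 2 - Real.log 2 := by
    have e1 : 4 * ((|u| + |u'|) / (2 * Real.sqrt (La T))) * La T = 2 * (|u| + |u'|) * Real.sqrt (La T) := by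
      have h3 : Real.sqrt (La T) * Real.sqrt (La T) = La T := Real.mul_self_sqrt hL0.le
      field_simp
      nlinarith
    have e2 : (|u| + |u'|) / (2 * Real.sqrt (La T)) ≤ 1 := by
      rw [add_div]
      linarith [g5.1, g5.2]
    have e3 : 4 * ((|u| + |u'|) / (2 * Real.sqrt (La T))) * D ≤ 4 * (D + D) := by nlinarith
    have e4 : 4 * ((|u| + |u'|) / (2 * Real.sqrt (La T))) * (La T + D) =
        4 * ((|u| + |u'|) / (2 * Real.sqrt (La T))) * La T + 4 * ((|u| + |u'|) / (2 * Real.sqrt (La T))) * D := by ring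
    rw [e4, e1]
    linarith
  have hmain : ‖ip (QF Z 0 h (wc T u) (wc T u')) (QF Z h h (wc T (-u)) (wc T (-u')))‖ ≤ Real.exp (La T / 2) / 2 := by
    refine hc.trans ?_
    calc Real.exp (∑ p ∈ Nat.primesBelow Z, (QF Z 0 h (wc T u) (wc T u') p *
      (starRingEnd ℂ) (QF Z h h (wc T (-u)) (wc T (-u')) p)).re / (p : ℝ) + CE) ≤ Real.exp (La T / 2 - Real.log 2) :=
          Real.exp_le_exp.2 (by linarith)
      _ = Real.exp (La T / 2) / 2 := by rw [Real.exp_sub, Real.exp_log (by norm_num)]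
  have hfin : ip (QT (el T) Z 0 h (wc T u) (wc T u')) (QT (el T) Z h h (wc T (-u)) (wc T (-u'))) =
      (ip (QT (el T) Z 0 h (wc T u) (wc T u')) (QT (el T) Z h h (wc T (-u)) (wc T (-u'))) -
        ip (QF Z 0 h (wc T u) (wc T u')) (QF Z h h (wc T (-u)) (wc T (-u')))) +
      ip (QF Z 0 h (wc T u) (wc T u')) (QF Z h h (wc T (-u)) (wc T (-u'))) := by ring
  rw [hfin]
  refine (norm_add_le _ _).trans ?_
  linarith

end

end Pool.Agent.Q251.EW
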