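import Pool.Agent.Q251.EW.OSMb
import Pool.Agent.Q251.EW.DIF
import Pool.Agent.Q251.EW.ConP
import Pool.Agent.Q251.EW.Upp

set_option autoImplicit false

/-!
# Project EWD, job OSM, third part: supports, values, norms
-/

namespace Pool.Agent.Q251.EW

open Filter Topology MeasureTheory
open Pool.Agent.Q80.EW Pool.Agent.Q61.EW

noncomputable section

theorem FS_RR (η T a : ℝ) : FS (Nt η T * Nt η T) (RR η T a) :=
  FS_mul (FS_sh a (FS_ro _ _)) (FS_sh a (FS_ro _ _))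

theorem Su_RR (η T a : ℝ) : Su (fun n => ∀ p : ℕ, p.Prime → p ∣ n → zc (Yt T) ≤ p) (RR η T a) :=
  ((Su_ro _ _).sh a).mul (Cl_rough _) ((Su_ro _ _).sh a)

theorem nm_RR (hR : J_FR2) (η T a : ℝ) : nm (RR η T a) ≤ nm (ro (zc (Yt T)) (Nt η T)) ^ 4 := by
  unfold RR
  rw [← sh_mul, nm_sh]
  have := hR (zc (Yt T)) (Nt η T) 0
  rwa [sh_zero] at this

theorem FS_QT (hE : J_EXP) (hEc : J_EXPc) {l Z : ℕ} {a h : ℝ} {w w' : ℕ → ℂ}
    (hZ : 1 ≤ Z) (hw : ∀ p, Z ≤ p → w p = 0) (hw' : ∀ p, Z ≤ p → w' p = 0) :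
    FS (Z ^ (4 * l)) (QT l Z a h w w') := by
  have h0 := (hE Z l 0 hZ (fun p => by simp)).2.2.1
  have h1 := hEc Z l w hZ hw
  have h2 := hEc Z l w' hZ hw'
  have h3 := FS_mul (FS_mul (FS_mul (FS_sh a h0) (FS_sh a h0)) h1.1) (FS_sh h h2.1)
  have h4 : Z ^ l * Z ^ l * Z ^ l * Z ^ l = Z ^ (4 * l) := by
    rw [← pow_add, ← pow_add, ← pow_add]
    congr 1
    ring
  rw [h4] at h3
  exact h3

theorem dp_QT (hE : J_EXP) (hEc : J_EXPc) {l Z : ℕ} {a h : ℝ} {w w' : ℕ → ℂ}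
    (hZ : 1 ≤ Z) (hw : ∀ p, Z ≤ p → w p = 0) (hw' : ∀ p, Z ≤ p → w' p = 0) (t : ℝ) :
    dp (QT l Z a h w w') t = dp (tr l (sm Z)) (t + a) ^ 2 * eT l (PVc Z w t) * eT l (PVc Z w' (t + h)) := by
  have h0 := (hE Z l 0 hZ (fun p => by simp)).2.2.1
  have h1 := hEc Z l w hZ hw
  have h2 := hEc Z l w' hZ hw'
  unfold QT
  rw [dp_mul (FS_mul (FS_mul (FS_sh a h0) (FS_sh a h0)) h1.1) (FS_sh h h2.1),
    dp_mul (FS_mul (FS_sh a h0) (FS_sh a h0)) h1.1, dp_mul (FS_sh a h0) (FS_sh a h0), dp_sh h0, dp_sh h2.1,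
    h1.2 t, h2.2 (t + h), sq]

theorem dp_RR (η T a t : ℝ) : dp (RR η T a) t = dp (ro (zc (Yt T)) (Nt η T)) (t + a) ^ 2 := by
  unfold RR
  rw [dp_mul (FS_sh a (FS_ro _ _)) (FS_sh a (FS_ro _ _)), dp_sh (FS_ro _ _), sq]

/-- the value of the full polynomial -/
theorem dp_QR (hE : J_EXP) (hEc : J_EXPc) (η T a h : ℝ) {w w' : ℕ → ℂ}
    (hw : ∀ p, zc (Yt T) ≤ p → w p = 0) (hw' : ∀ p, zc (Yt T) ≤ p → w' p = 0) (t : ℝ) :
    dp (QT (el T) (zc (Yt T)) a h w w' * RR η T a) t = Dp η T (t + a) ^ 2 *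
      (eT (el T) (PVc (zc (Yt T)) w t) * eT (el T) (PVc (zc (Yt T)) w' (t + h))) := by
  have hZ : 1 ≤ zc (Yt T) := by
    have := two_le_zc (Yt T)
    omega
  have hD : ∀ t, Dp η T t = dp (tr (el T) (sm (zc (Yt T)))) t * dp (ro (zc (Yt T)) (Nt η T)) t := by
    intro t
    unfold Dp dd
    exact dp_mul (hE (zc (Yt T)) (el T) 0 hZ (fun p => by simp)).2.2.1 (FS_ro _ _) t
  rw [dp_mul (FS_QT hE hEc hZ hw hw') (FS_RR η T a), dp_QT hE hEc hZ hw hw', dp_RR, hD]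
  ring

/-- the support of the full polynomial -/
theorem FS_QR (hE : J_EXP) (hEc : J_EXPc) {η T : ℝ} (hT : 1 < T)
    (hg : ((zc (Yt T) : ℕ) : ℝ) ^ (4 * el T) ≤ T ^ η) (a h : ℝ) {w w' : ℕ → ℂ}
    (hw : ∀ p, zc (Yt T) ≤ p → w p = 0) (hw' : ∀ p, zc (Yt T) ≤ p → w' p = 0) :
    FS ⌊T ^ (1 - 3 * η)⌋₊ (QT (el T) (zc (Yt T)) a h w w' * RR η T a) := by
  have hZ : 1 ≤ zc (Yt T) := by
    have := two_le_zc (Yt T)
    omega
  have hT0 : 0 < T := by linarith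
  have h1 := FS_mul (FS_QT (l := el T) (a := a) (h := h) hE hEc hZ hw hw') (FS_RR η T a)
  refine FS.mono h1 ?_
  rw [Nat.le_floor_iff (Real.rpow_pos_of_pos hT0 _).le]
  push_cast
  have h2 := Nt_le (η := η) hT0
  have h3 : (Nt η T : ℝ) * (Nt η T : ℝ) ≤ T ^ (1 / 2 - 2 * η) * T ^ (1 / 2 - 2 * η) :=
    mul_le_mul h2 h2 (by positivity) (by positivity)
  calc ((zc (Yt T) : ℕ) : ℝ) ^ (4 * el T) * ((Nt η T : ℝ) * (Nt η T : ℝ)) ≤
      T ^ η * (T ^ (1 / 2 - 2 * η) * T ^ (1 / 2 - 2 * η)) :=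
        mul_le_mul hg h3 (by positivity) (by positivity)
    _ = T ^ (1 - 3 * η) := by
      rw [← Real.rpow_add hT0, ← Real.rpow_add hT0]
      congr 1
      ring

/-- the sizes of the norms -/
theorem nm_QR (hE : J_EXP) (hEc : J_EXPc) (hMU : J_MULT) (hM : J_MERT) (hR : J_FR2) (hRHO : J_RHO) (u u' η : ℝ)
    (hη : 0 < η) (hη1 : η ≤ 1 / 100) :
    ∀ᶠ T : ℝ in atTop, nm (ro (zc (Yt T)) (Nt η T)) ^ 4 ≤ Real.exp (La T / 8) ∧ ∀ a h : ℝ,
      nm (QT (el T) (zc (Yt T)) a h (wc T u) (wc T u') * RR η T a) ≤ Real.exp (60 * La T) := by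
  obtain ⟨D, hMT⟩ := hM
  obtain ⟨CR, hRHO⟩ := hRHO
  have hD0 : 0 ≤ D := (abs_nonneg _).trans (hMT 0 le_rfl)
  set S0 : ℝ := Real.exp (Pool.Agent.Q153.EW.KK * ∑' n : ℕ, 1 / (n : ℝ) ^ 2) with hS0
  have hS00 : 0 < S0 := Real.exp_pos _
  have g1 : ∀ᶠ T : ℝ in atTop, (CR ^ 4 + 1) * La T ^ 8 ≤ Real.exp (La T / 8) := by
    have h1 : Tendsto (fun x : ℝ => x ^ 8 * Real.exp (-(1 / 8) * x)) atTop (𝓝 0) := by
      have := tendsto_rpow_mul_exp_neg_mul_atTop_nhds_zero 8 (1 / 8) (by norm_num)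
      refine this.congr fun x => ?_
      rw [← Real.rpow_natCast]
      norm_num
    have h2 := (h1.comp tendsto_La).eventually_le_const (by positivity : (0 : ℝ) < 1 / (CR ^ 4 + 1))
    filter_upwards [h2] with T h3
    have h4 : La T ^ 8 * Real.exp (-(1 / 8) * La T) ≤ 1 / (CR ^ 4 + 1) := h3
    have h5 : 0 < CR ^ 4 + 1 := by positivity
    rw [le_div_iff₀ h5] at h4
    have h6 : Real.exp (La T / 8) * Real.exp (-(1 / 8) * La T) = 1 := by
      rw [← Real.exp_add]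
      have : La T / 8 + -(1 / 8) * La T = 0 := by ring
      rw [this, Real.exp_zero]
    have h7 := Real.exp_pos (La T / 8)
    calc (CR ^ 4 + 1) * La T ^ 8 = (La T ^ 8 * Real.exp (-(1 / 8) * La T) * (CR ^ 4 + 1)) * Real.exp (La T / 8) := by
          calc (CR ^ 4 + 1) * La T ^ 8 = (CR ^ 4 + 1) * La T ^ 8 * (Real.exp (La T / 8) * Real.exp (-(1 / 8) * La T)) := by
                rw [h6, mul_one]
            _ = _ := by ring
      _ ≤ 1 * Real.exp (La T / 8) := mul_le_mul_of_nonneg_right h4 h7.le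
      _ = _ := one_mul _
  have g2 : ∀ᶠ T : ℝ in atTop, S0 * Real.exp (51 * D) ≤ Real.exp (La T / 8) := by
    have h1 : Tendsto (fun T : ℝ => Real.exp (La T / 8)) atTop atTop :=
      Real.tendsto_exp_atTop.comp (tendsto_La.atTop_div_const (by norm_num))
    exact h1.eventually_ge_atTop _
  have g5 : ∀ᶠ T : ℝ in atTop, |u| / (2 * Real.sqrt (La T)) ≤ 1 / 2 ∧ |u'| / (2 * Real.sqrt (La T)) ≤ 1 / 2 := by
    filter_upwards [(Real.tendsto_sqrt_atTop.comp tendsto_La).eventually_ge_atTop (|u| + |u'| + 1)] with T h1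
    have h1' : |u| + |u'| + 1 ≤ Real.sqrt (La T) := h1
    have h2 := abs_nonneg u
    have h3 := abs_nonneg u'
    constructor <;> rw [div_le_iff₀ (by linarith)] <;> linarith
  filter_upwards [g1, g2, g5, hRHO η hη hη1, tendsto_La.eventually_ge_atTop 1, Pool.Agent.Q237.EW.ev_Yt]
    with T g1 g2 g5 hrho hL hYT
  obtain ⟨hY0, hYL, -⟩ := hYT
  have hr4 : nm (ro (zc (Yt T)) (Nt η T)) ^ 4 ≤ Real.exp (La T / 8) := by
    refine le_trans ?_ g1
    refine (pow_le_pow_left₀ (nm_nonneg _) hrho 4).trans ?_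
    rw [mul_pow, ← pow_mul]
    exact mul_le_mul_of_nonneg_right (by linarith) (by positivity)
  refine ⟨hr4, fun a h => ?_⟩
  have hZ : 1 ≤ zc (Yt T) := by
    have := two_le_zc (Yt T)
    omega
  have hw : ∀ (w : ℝ) (p : ℕ), zc (Yt T) ≤ p → wc T w p = 0 := fun w p hp => wc_zero T w p hp
  have h1 : nm (QT (el T) (zc (Yt T)) a h (wc T u) (wc T u') * RR η T a) =
      nm (QT (el T) (zc (Yt T)) a h (wc T u) (wc T u')) * nm (RR η T a) :=
    hMU (zc (Yt T)) _ _ _ _ (FS_QT hE hEc hZ (hw u) (hw u')) (FS_RR η T a) (Su_QT (hw u) (hw u')) (Su_RR η T a)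
  have h2 := nm_gg (Wt_wc g5.1) (Wt_wc g5.2) (dom_QT (l := el T) (Z := zc (Yt T)) (a := a) (h := h)
    (fun p => le_refl ‖wc T u p‖) (fun p => le_refl ‖wc T u' p‖))
  have h3 : ∑ p ∈ Nat.primesBelow (zc (Yt T)), (1 : ℝ) / (p : ℝ) ≤ La T + D := by
    have h1 := abs_le.1 (hMT (Yt T) hY0)
    have h2 : ∑ p ∈ Nat.primesBelow (zc (Yt T)), (1 : ℝ) / (p : ℝ) = VV (Yt T) := rfl
    rw [h2]
    linarith [h1.2]
  have h4 : nm (QT (el T) (zc (Yt T)) a h (wc T u) (wc T u')) ≤ Real.exp (51 * La T) * Real.exp (La T / 8) := by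
    refine h2.trans ?_
    calc S0 * Real.exp (51 * ∑ p ∈ Nat.primesBelow (zc (Yt T)), (1 : ℝ) / (p : ℝ)) ≤
          S0 * Real.exp (51 * (La T + D)) := by
          refine mul_le_mul_of_nonneg_left (Real.exp_le_exp.2 ?_) hS00.le
          linarith
      _ = Real.exp (51 * La T) * (S0 * Real.exp (51 * D)) := by
          rw [mul_add, Real.exp_add]; ring
      _ ≤ _ := mul_le_mul_of_nonneg_left g2 (Real.exp_pos _).le
  rw [h1]
  calc nm (QT (el T) (zc (Yt T)) a h (wc T u) (wc T u')) * nm (RR η T a) ≤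
        (Real.exp (51 * La T) * Real.exp (La T / 8)) * Real.exp (La T / 8) :=
        mul_le_mul h4 ((nm_RR hR η T a).trans hr4) (nm_nonneg _) (by positivity)
    _ = Real.exp (51 * La T + La T / 8 + La T / 8) := by rw [Real.exp_add, Real.exp_add]
    _ ≤ Real.exp (60 * La T) := Real.exp_le_exp.2 (by linarith)

/-- the bound of the plain two point mass -/
theorem mass2 (hFF : J_FF) (hM : J_MERT) (hR : J_FR2) (hRHO : J_RHO) (η : ℝ)
    (hη : 0 < η) (hη1 : η ≤ 1 / 100) :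
    ∀ᶠ T : ℝ in atTop, ∀ h : ℝ, ∫ t in T..(3 * T), ‖Dp η T t‖ ^ 2 * ‖Dp η T (t + h)‖ ^ 2 ≤ T * Real.exp (60 * La T) := by
  obtain ⟨D, hMT⟩ := hM
  obtain ⟨CR, hRHO⟩ := hRHO
  have hD0 : 0 ≤ D := (abs_nonneg _).trans (hMT 0 le_rfl)
  set S0 : ℝ := Real.exp (Pool.Agent.Q153.EW.KK * ∑' n : ℕ, 1 / (n : ℝ) ^ 2) with hS0
  have hS00 : 0 < S0 := Real.exp_pos _
  have g1 : ∀ᶠ T : ℝ in atTop, (CR ^ 4 + 1) * La T ^ 8 ≤ Real.exp (La T) := by
    have h1 : Tendsto (fun x : ℝ => x ^ 8 * Real.exp (-x)) atTop (𝓝 0) :=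
      Real.tendsto_pow_mul_exp_neg_atTop_nhds_zero 8
    have h2 := (h1.comp tendsto_La).eventually_le_const (by positivity : (0 : ℝ) < 1 / (CR ^ 4 + 1))
    filter_upwards [h2] with T h3
    have h4 : La T ^ 8 * Real.exp (-La T) ≤ 1 / (CR ^ 4 + 1) := h3
    have h5 : 0 < CR ^ 4 + 1 := by positivity
    rw [le_div_iff₀ h5, Real.exp_neg] at h4
    have h7 := Real.exp_pos (La T)
    have h8 : (CR ^ 4 + 1) * La T ^ 8 = (La T ^ 8 * (Real.exp (La T))⁻¹ * (CR ^ 4 + 1)) * Real.exp (La T) := by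
      field_simp
    rw [h8]
    nlinarith
  have g2 : ∀ᶠ T : ℝ in atTop, 3 * (S0 * Real.exp (51 * D)) ≤ Real.exp (La T) :=
    (Real.tendsto_exp_atTop.comp tendsto_La).eventually_ge_atTop _
  filter_upwards [g1, g2, hFF η hη hη1, hRHO η hη hη1, tendsto_La.eventually_ge_atTop 1, Pool.Agent.Q237.EW.ev_Yt,
    eventually_gt_atTop 1] with T g1 g2 hFF hrho hL hYT hT h
  obtain ⟨hY0, hYL, -⟩ := hYT
  have hT0 : 0 < T := by linarith
  have hW0 : Wt (zc (Yt T)) 0 := fun p => by simp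
  obtain ⟨-, hdp, hnm, hint⟩ := hFF.2 1 1 h 0 0 le_rfl le_rfl hW0 hW0
  have hPV : ∀ t, PV (zc (Yt T)) 0 t = 0 := by
    intro t
    unfold PV
    simp
  have heT : eT (el T) 0 = 1 := by
    unfold eT
    rw [Finset.sum_range_succ']
    simp
  have h1 : ∀ t, ‖Dp η T t‖ ^ 2 * ‖Dp η T (t + h)‖ ^ 2 = ‖dp (FF η T 1 1 h 0 0) t‖ ^ 2 := by
    intro t
    rw [hdp, hPV, hPV, heT, pow_one, pow_one, mul_one, mul_one, norm_mul, mul_pow]
  simp_rw [h1]
  have h2 := (abs_le.1 (hint T (3 * T) (by linarith))).2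
  have h3 : T ^ (1 - 2 * η) ≤ T := by
    calc T ^ (1 - 2 * η) ≤ T ^ (1 : ℝ) := Real.rpow_le_rpow_of_exponent_le hT.le (by linarith)
      _ = T := Real.rpow_one T
  have hnn := nm_nonneg (FF η T 1 1 h 0 0)
  have h4 : ∫ t in T..(3 * T), ‖dp (FF η T 1 1 h 0 0) t‖ ^ 2 ≤ 3 * T * nm (FF η T 1 1 h 0 0) := by
    have := mul_le_mul_of_nonneg_right h3 hnn
    linarith
  refine h4.trans ?_
  have h5 : nm (GT (el T) 1 1 (zc (Yt T)) h 0 0) ≤ Real.exp (51 * La T) * (S0 * Real.exp (51 * D)) := by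
    refine (nm_gg hW0 hW0 (Pool.Agent.Q153.EW.dom_GT le_rfl le_rfl _ _ _ _)).trans ?_
    have h3 : ∑ p ∈ Nat.primesBelow (zc (Yt T)), (1 : ℝ) / (p : ℝ) ≤ La T + D := by
      have h1 := abs_le.1 (hMT (Yt T) hY0)
      have h2 : ∑ p ∈ Nat.primesBelow (zc (Yt T)), (1 : ℝ) / (p : ℝ) = VV (Yt T) := rfl
      rw [h2]
      linarith [h1.2]
    calc S0 * Real.exp (51 * ∑ p ∈ Nat.primesBelow (zc (Yt T)), (1 : ℝ) / (p : ℝ)) ≤
          S0 * Real.exp (51 * (La T + D)) := by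
          refine mul_le_mul_of_nonneg_left (Real.exp_le_exp.2 ?_) hS00.le
          linarith
      _ = Real.exp (51 * La T) * (S0 * Real.exp (51 * D)) := by
          rw [mul_add, Real.exp_add]; ring
  have h6 : nm (RF η T 1 1 h) ≤ Real.exp (La T) := by
    refine (nm_RF_le hR le_rfl le_rfl (one_le_Nt hη1 hT.le)).trans (le_trans ?_ g1)
    refine (pow_le_pow_left₀ (nm_nonneg _) hrho 4).trans ?_
    rw [mul_pow, ← pow_mul]
    exact mul_le_mul_of_nonneg_right (by linarith) (by positivity)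
  rw [hnm]
  calc 3 * T * (nm (GT (el T) 1 1 (zc (Yt T)) h 0 0) * nm (RF η T 1 1 h)) ≤
        3 * T * ((Real.exp (51 * La T) * (S0 * Real.exp (51 * D))) * Real.exp (La T)) := by
        refine mul_le_mul_of_nonneg_left ?_ (by positivity)
        exact mul_le_mul h5 h6 (nm_nonneg _) (by positivity)
    _ = T * Real.exp (51 * La T) * Real.exp (La T) * (3 * (S0 * Real.exp (51 * D))) := by ring
    _ ≤ T * Real.exp (51 * La T) * Real.exp (La T) * Real.exp (La T) :=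
        mul_le_mul_of_nonneg_left g2 (by positivity)
    _ = T * Real.exp (51 * La T + La T + La T) := by rw [Real.exp_add, Real.exp_add]; ring
    _ ≤ T * Real.exp (60 * La T) := mul_le_mul_of_nonneg_left (Real.exp_le_exp.2 (by linarith)) hT0.le

end

end Pool.Agent.Q251.EW
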